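import Pool.Agent.MG.Good

/-!
MG Block.  For `s ≠ t` the element `Dq n i (single s w)` commutes with `cj b (Dq n i (single t w'))` for all `b ∈ A`.

PROOF: adapt the proved /team-store/h9_NL_Block.lean.
-/

set_option autoImplicit false

namespace Pool.Agent.MG

variable {p l : ℕ} {ζ : ZMod l} {ι G : Type} [Group G] {d : GData p l ι G}

private theorem block_zero (hp : Par p l ζ) (R : GRel ζ d) (i : ι) (s t : ZMod p) (hst : s ≠ t)
    (b : G) (hb : b ∈ d.A) (w w' : ZMod l) :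
    Commute (d.D1 i (Pi.single s w)) (cj b (d.D1 i (Pi.single t w'))) := by
  have : Fact p.Prime := ⟨hp.p_prime⟩
  have hbp : b ^ p = 1 := R.P_pow b (GRel.A_le_P hb)
  have hb' : zp b ((t - s)⁻¹) ∈ d.A := d.A.pow_mem hb _
  have hb'p : (zp b ((t - s)⁻¹)) ^ p = 1 := zp_pow_p hbp _
  obtain ⟨φ, _, hφ⟩ := good hp R i _ hb'
  have h0 : Commute (d.D1 i (Pi.single s w)) (d.D1 i (Pi.single t w')) :=
    R.D_commute false i _ _
  have h1 := (cj_commute φ).mpr h0
  rw [hφ s w, hφ t w'] at h1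
  have h2 := (cj_commute (zp (zp b ((t - s)⁻¹)) s)⁻¹).mpr h1
  rw [cj_inv_cj, cj_cj] at h2
  have h3 : (zp (zp b ((t - s)⁻¹)) s)⁻¹ * zp (zp b ((t - s)⁻¹)) t = b := by
    rw [← zp_neg hb'p, ← zp_add hb'p, ← zp_mul hbp]
    have hne : t - s ≠ 0 := sub_ne_zero.mpr (Ne.symm hst)
    have h4 : (t - s)⁻¹ * (-s + t) = 1 := by
      rw [neg_add_eq_sub]
      exact inv_mul_cancel₀ hne
    rw [h4, zp_one]
  rw [h3] at h2
  exact h2

theorem block (hp : Par p l ζ) (R : GRel ζ d) :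
    ∀ (n : Ex) (i : ι) (s t : ZMod p), s ≠ t → ∀ b ∈ d.A, ∀ w w' : ZMod l,
      Commute (d.Dq n i (Pi.single s w)) (cj b (d.Dq n i (Pi.single t w'))) := by
  intro n i s t hst b hb w w'
  unfold GData.Dq
  have hb' : cj (d.U n)⁻¹ b ∈ d.A := by
    rw [← R.U_neg]
    exact R.cj_U_A _ b hb
  have h := (cj_commute (d.U n)).mpr (block_zero hp R i s t hst _ hb' w w')
  have h2 : cj (d.U n) (cj (cj (d.U n)⁻¹ b) (d.D1 i (Pi.single t w'))) =
      cj b (cj (d.U n) (d.D1 i (Pi.single t w'))) := by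
    rw [cj_cj, cj_cj]
    congr 1
    simp [cj, mul_assoc]
  rw [h2] at h
  exact h

end Pool.Agent.MG
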