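import Mathlib

/-!
MG Cases: the combinatorial case distinction for STEP 1.

Proof of `tame_cases`: let `n b` be maximal and `n c` minimal.  If at least three indices have
`n i ≤ n b - 2`: case 1.  If at least three indices have `n i ≥ n c + 2`: case 2.  Otherwise at
least three indices have `n i ≥ n b - 1` and at least three have `n i ≤ n c + 1`, so some `i` has both
and `n b - n c ≤ 2`; as the sum is 0, `n c ≤ -2` would give `n b ≤ 0`, hence all `n = 0`; so
`n c ≥ -1`, likewise `n b ≤ 1`.
-/

set_option autoImplicit false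

namespace Pool.Agent.MG

theorem tame_cases (n : Fin 5 → ℤ) (hn : ∑ i, n i = 0) :
    (∃ b i j k : Fin 5, b ≠ i ∧ b ≠ j ∧ b ≠ k ∧ i ≠ j ∧ i ≠ k ∧ j ≠ k ∧
      n i + 2 ≤ n b ∧ n j + 2 ≤ n b ∧ n k + 2 ≤ n b) ∨
    (∃ b i j k : Fin 5, b ≠ i ∧ b ≠ j ∧ b ≠ k ∧ i ≠ j ∧ i ≠ k ∧ j ≠ k ∧
      n b + 2 ≤ n i ∧ n b + 2 ≤ n j ∧ n b + 2 ≤ n k) ∨
    ∀ i, n i = -1 ∨ n i = 0 ∨ n i = 1 := by
  classical
  obtain ⟨b, -, hb⟩ := Finset.exists_max_image (Finset.univ : Finset (Fin 5)) n
    ⟨0, Finset.mem_univ _⟩
  obtain ⟨c, -, hc⟩ := Finset.exists_min_image (Finset.univ : Finset (Fin 5)) n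
    ⟨0, Finset.mem_univ _⟩
  by_cases h1 : 2 < (Finset.univ.filter fun i => n i + 2 ≤ n b).card
  · left
    obtain ⟨i, hi, j, hj, k, hk, hij, hik, hjk⟩ := Finset.two_lt_card.1 h1
    rw [Finset.mem_filter] at hi hj hk
    refine ⟨b, i, j, k, ?_, ?_, ?_, hij, hik, hjk, hi.2, hj.2, hk.2⟩
    · rintro rfl
      have := hi.2
      omega
    · rintro rfl
      have := hj.2
      omega
    · rintro rfl
      have := hk.2
      omega
  · by_cases h2 : 2 < (Finset.univ.filter fun i => n c + 2 ≤ n i).card
    · right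
      left
      obtain ⟨i, hi, j, hj, k, hk, hij, hik, hjk⟩ := Finset.two_lt_card.1 h2
      rw [Finset.mem_filter] at hi hj hk
      refine ⟨c, i, j, k, ?_, ?_, ?_, hij, hik, hjk, hi.2, hj.2, hk.2⟩
      · rintro rfl
        have := hi.2
        omega
      · rintro rfl
        have := hj.2
        omega
      · rintro rfl
        have := hk.2
        omega
    · right
      right
      have h3 : ∃ i, ¬ (n i + 2 ≤ n b) ∧ ¬ (n c + 2 ≤ n i) := by
        by_contra hcon
        push Not at hcon
        have h4 : (Finset.univ : Finset (Fin 5)) ⊆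
            (Finset.univ.filter fun i => n i + 2 ≤ n b) ∪
              (Finset.univ.filter fun i => n c + 2 ≤ n i) := by
          intro i _
          rw [Finset.mem_union, Finset.mem_filter, Finset.mem_filter]
          by_cases h5 : n i + 2 ≤ n b
          · exact Or.inl ⟨Finset.mem_univ _, h5⟩
          · exact Or.inr ⟨Finset.mem_univ _, hcon i (not_le.1 h5)⟩
        have h5 := (Finset.card_le_card h4).trans (Finset.card_union_le _ _)
        rw [Finset.card_univ, Fintype.card_fin] at h5
        omega
      obtain ⟨i, hi1, hi2⟩ := h3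
      have hbc : n b ≤ n c + 2 := by omega
      have hc1 : -1 ≤ n c := by
        by_contra hcon
        have h4 : ∀ j ∈ (Finset.univ : Finset (Fin 5)), n j ≤ 0 := by
          intro j hj
          have := hb j hj
          omega
        have h5 := (Finset.sum_eq_zero_iff_of_nonpos h4).1 hn c (Finset.mem_univ c)
        omega
      have hb1 : n b ≤ 1 := by
        by_contra hcon
        have h4 : ∀ j ∈ (Finset.univ : Finset (Fin 5)), 0 ≤ n j := by
          intro j hj
          have := hc j hj
          omega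
        have h5 := (Finset.sum_eq_zero_iff_of_nonneg h4).1 hn b (Finset.mem_univ b)
        omega
      intro j
      have h4 := hb j (Finset.mem_univ j)
      have h5 := hc j (Finset.mem_univ j)
      omega

end Pool.Agent.MG
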