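import Mathlib

/-!
MG CharAlg: simultaneous eigen-characters of commuting operators of order `p` (`p`-th roots of unity in the ground field `ZMod l`).

PROOF.  `S := Algebra.adjoin (ZMod l) (range T)` is a commutative ring (`Algebra.adjoinCommRingOfComm` or similar), `I := {s ∈ S | s c = 0}` is an ideal, proper because `c ≠ 0`.  Let `m` be a maximal ideal
containing `I` (`Ideal.exists_le_maximal`), `K = S ⧸ m` (a field), `χ = mk`, `θ : ZMod l → K` the algebra map.  `χ (T j)` is a root of `X^p - 1 = ∏_{s < p} (X - θ(ζ)^s)` in `K`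
(`θ ζ` is a primitive `p`-th root of unity in the field `K`; e.g. `IsPrimitiveRoot.eq_pow_of_pow_eq_one`), so `χ (T j) = θ ζ ^ s` with `s < p`.
-/

set_option autoImplicit false

namespace Pool.Agent.MG

theorem exists_char {l p : ℕ} [Fact l.Prime] [Fact p.Prime] (ζ : ZMod l) (hζ : ζ ^ p = 1) (hζ1 : ζ ≠ 1)
    {N : Type} [AddCommGroup N] [Module (ZMod l) N] {J : Type} (T : J → Module.End (ZMod l) N)
    (hT : ∀ i j, Commute (T i) (T j)) (hTp : ∀ j, T j ^ p = 1) (c : N) (hc : c ≠ 0) :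
    ∃ (w : J → ZMod p) (K : Type) (_ : Field K)
      (χ : (Algebra.adjoin (ZMod l) (Set.range T)) →+* K) (θ : ZMod l →+* K),
      (∀ j, χ ⟨T j, Algebra.subset_adjoin ⟨j, rfl⟩⟩ = θ (ζ ^ (w j).val)) ∧
      (∀ r : ZMod l, χ (algebraMap _ _ r) = θ r) ∧
      ∀ s : Algebra.adjoin (ZMod l) (Set.range T), (s : Module.End (ZMod l) N) c = 0 → χ s = 0 := by
  classical
  letI : CommRing (Algebra.adjoin (ZMod l) (Set.range T)) :=
    Algebra.adjoinCommRingOfComm (ZMod l) (by
      rintro _ ⟨i, rfl⟩ _ ⟨j, rfl⟩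
      exact hT i j)
  let I : Ideal (Algebra.adjoin (ZMod l) (Set.range T)) :=
    { carrier := {s | (s : Module.End (ZMod l) N) c = 0}
      add_mem' := by
        intro a b ha hb
        show (a : Module.End (ZMod l) N) c + (b : Module.End (ZMod l) N) c = 0
        rw [show (a : Module.End (ZMod l) N) c = 0 from ha,
          show (b : Module.End (ZMod l) N) c = 0 from hb, add_zero]
      zero_mem' := rfl
      smul_mem' := by
        intro a b hb
        show (a : Module.End (ZMod l) N) ((b : Module.End (ZMod l) N) c) = 0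
        rw [show (b : Module.End (ZMod l) N) c = 0 from hb, map_zero] }
  have hI : I ≠ ⊤ := by
    rw [Ideal.ne_top_iff_one]
    intro h
    exact hc h
  obtain ⟨m, hm, hIm⟩ := Ideal.exists_le_maximal I hI
  letI : Field ((Algebra.adjoin (ZMod l) (Set.range T)) ⧸ m) := Ideal.Quotient.field m
  let χ : (Algebra.adjoin (ZMod l) (Set.range T)) →+* (Algebra.adjoin (ZMod l) (Set.range T)) ⧸ m :=
    Ideal.Quotient.mk m
  let θ : ZMod l →+* (Algebra.adjoin (ZMod l) (Set.range T)) ⧸ m :=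
    χ.comp (algebraMap (ZMod l) (Algebra.adjoin (ZMod l) (Set.range T)))
  have h1 : (θ ζ) ^ p = 1 := by rw [← map_pow, hζ, map_one]
  have h2 : θ ζ ≠ 1 := by
    intro h
    apply hζ1
    apply θ.injective
    rw [h, map_one]
  have hprim : IsPrimitiveRoot (θ ζ) p := by
    have h3 := IsPrimitiveRoot.orderOf (θ ζ)
    rwa [orderOf_eq_prime h1 h2] at h3
  have key : ∀ j, ∃ s : ZMod p,
      χ ⟨T j, Algebra.subset_adjoin ⟨j, rfl⟩⟩ = θ (ζ ^ s.val) := by
    intro j
    have h4 : (χ ⟨T j, Algebra.subset_adjoin ⟨j, rfl⟩⟩) ^ p = 1 := by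
      rw [← map_pow]
      have h5 : (⟨T j, Algebra.subset_adjoin ⟨j, rfl⟩⟩ :
          Algebra.adjoin (ZMod l) (Set.range T)) ^ p = 1 := Subtype.ext (hTp j)
      rw [h5, map_one]
    haveI : NeZero p := ⟨(Fact.out : p.Prime).ne_zero⟩
    obtain ⟨i, hi, hi'⟩ := hprim.eq_pow_of_pow_eq_one h4
    refine ⟨(i : ZMod p), ?_⟩
    rw [ZMod.val_natCast, Nat.mod_eq_of_lt hi, map_pow, hi']
  choose w hw using key
  refine ⟨w, (Algebra.adjoin (ZMod l) (Set.range T)) ⧸ m, inferInstance, χ, θ, hw, fun r => rfl,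
    fun s hs => ?_⟩
  exact Ideal.Quotient.eq_zero_iff_mem.2 (hIm hs)

end Pool.Agent.MG
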