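import Mathlib

/-!
MG Iface: positions and points (curried, as in Pool/Agent/MB/Iface.lean).
-/

set_option autoImplicit false

namespace Pool.Agent.MG

/-- exponent vectors of one variable -/
abbrev E4 : Type := Fin 4 → ℤ

/-- positions: the group `ℤ^4 × ℤ^4` -/
abbrev Pos : Type := E4 × E4

/-- basis vectors -/
def ee (j : Fin 4) : E4 := Pi.single j 1

/-- points: functions satisfying the module relations `1 + (j+1) X = (j+1) (1 + X) - j` in both variables -/
structure IsPt {p t : ℕ} (w : E4 → E4 → (Fin t → ZMod p)) : Prop where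
  relx : ∀ (n m : E4) (j : Fin 4), w (n + ee j) m =
    (((j : ℕ) + 1 : ℕ) : ZMod p) • w (n + ee 0) m - ((j : ℕ) : ZMod p) • w n m
  rely : ∀ (n m : E4) (j : Fin 4), w n (m + ee j) =
    (((j : ℕ) + 1 : ℕ) : ZMod p) • w n (m + ee 0) - ((j : ℕ) : ZMod p) • w n m

/-- a condition: at the position (relative) the vector of the track values belongs to the list -/
abbrev Cond (p t : ℕ) : Type := Pos × List (Fin t → ZMod p)

/-- `w` satisfies the condition `c` at `ν` -/
def Sat {p t : ℕ} (w : E4 → E4 → (Fin t → ZMod p)) (ν : Pos) (c : Cond p t) : Prop :=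
  w (ν.1 + c.1.1) (ν.2 + c.1.2) ∈ c.2

/-- `w` avoids the pattern `L`: nowhere all conditions of `L` are satisfied -/
def Avoids {p t : ℕ} (w : E4 → E4 → (Fin t → ZMod p)) (L : List (Cond p t)) : Prop :=
  ∀ ν : Pos, ∃ c ∈ L, ¬ Sat w ν c

/-- the conditions of the additional rule, except the last -/
def LL {p t : ℕ} (B : Fin 4 → List (Fin t → ZMod p)) : ℕ → List (Cond p t)
  | 0 => [(0, B 0), ((0, ee 0), B 2)]
  | k + 1 => ((((p : ℤ) ^ k) • ee 0, 0), B 1) :: LL B k

/-- the conditions of the additional rule with parameter `k` -/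
def LE {p t : ℕ} (B : Fin 4 → List (Fin t → ZMod p)) (k : ℕ) : List (Cond p t) :=
  ((((p : ℤ) ^ k) • ee 0, ee 0), B 3) :: LL B (k + 1)

theorem mem_LL {p t : ℕ} (B : Fin 4 → List (Fin t → ZMod p)) (k : ℕ) (c : Cond p t) :
    c ∈ LL B k ↔ c = (0, B 0) ∨ c = ((0, ee 0), B 2) ∨
      ∃ j < k, c = ((((p : ℤ) ^ j) • ee 0, 0), B 1) := by
  induction k with
  | zero => simp [LL]
  | succ k ih =>
    rw [LL, List.mem_cons, ih]
    constructor
    · rintro (rfl | h | h | ⟨j, hj, rfl⟩)
      · exact Or.inr (Or.inr ⟨k, Nat.lt_succ_self k, rfl⟩)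
      · exact Or.inl h
      · exact Or.inr (Or.inl h)
      · exact Or.inr (Or.inr ⟨j, Nat.lt_succ_of_lt hj, rfl⟩)
    · rintro (h | h | ⟨j, hj, rfl⟩)
      · exact Or.inr (Or.inl h)
      · exact Or.inr (Or.inr (Or.inl h))
      · rcases Nat.lt_succ_iff_lt_or_eq.mp hj with h | rfl
        · exact Or.inr (Or.inr (Or.inr ⟨j, h, rfl⟩))
        · exact Or.inl rfl

end Pool.Agent.MG
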