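import Pool.Agent.MG.UBasic
import Pool.Agent.MG.Iface

/-!
MG Pat: pattern elements, the rule relations.
-/

set_option autoImplicit false

namespace Pool.Agent.MG

/-- a position as an exponent vector -/
def toEx (q : Pos) : Ex := fun κ => Fin.cons (α := fun _ => ℤ) 0 (if κ then q.2 else q.1)

/-- the element `a_i` at the position `q` -/
def GData.aq {p l : ℕ} {ι G : Type} [Group G] (d : GData p l ι G) (q : Pos) (i : ι) : G :=
  cj (d.U (toEx q)) (d.a i)

variable {p l t : ℕ} {G : Type} [Group G]

/-- projection (times `p^t`) to the part where the vector of track values at `q` is `v` -/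
def epsV (ζ : ZMod l) (d : GData p l (Fin t) G) (q : Pos) (v : Fin t → ZMod p) (x : G) : G :=
  (List.finRange t).foldr (fun i y => eps ζ (d.aq q i) (v i) y) x

/-- projection (times `p^t`) to the part where the vector of track values at `q` is in the list `B` -/
def cell (ζ : ZMod l) (d : GData p l (Fin t) G) (q : Pos) (B : List (Fin t → ZMod p)) (x : G) : G :=
  (B.map fun v => epsV ζ d q v x).prod

/-- `c` projected to the part where all conditions of `L` hold (up to powers of `p`) -/
def patEl (ζ : ZMod l) (d : GData p l (Fin t) G) (L : List (Cond p t)) : G :=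
  L.foldr (fun c x => cell ζ d c.1 c.2 x) d.c

end Pool.Agent.MG
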