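import Pool.Agent.MG.Fine
import Pool.Agent.MG.Pat
import Pool.Agent.MG.CharAlg

/-!
MG Char: if `c ≠ 1` (and `N` is abelian) there is a point avoiding all patterns whose element is trivial.

PROOF.  `N = d.N` (a subgroup) is abelian of exponent `l` (generated by the `cj b c`, `c^l = 1`), so `Additive N` is a module over `ZMod l` (`AddCommGroup.zmodModule`), `c ∈ N`, `c ≠ 0`.  Let `J = Pos × Fin t` and
`T (q, i)` = conjugation by `aq q i ∈ A` (`N` is stable under conjugation by `A`); they commute (hypothesis `hA`) and `T^p = 1` (`(aq q i)^p = 1`).  Apply `exists_char`; `w n m i := w ((n, m), i)`.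
* module relations: `aq (q + (ee j, 0)) i = aq q i * (aq (q + (ee 0, 0)) i * (aq q i)⁻¹)^(j+1)` (`a_lin` for the unit index `j + 1 : Fin 5`, conjugated by `U (toEx q)`; note that `ee j` corresponds to the unit
  `u false (j+1)`), so `T(q + ee j) * T(q)^j = T(q + ee 0)^(j+1)`; apply `χ`: `θ ζ ^ (w(q + ee j) + j w(q)) = θ ζ ^ ((j+1) w (q + ee 0))`; `θ` is injective, `ζ` has order `p`.
* conjugation by `U (toEx ν)` fixes `c` (`U_c`) and maps `patEl d L` to `patEl d (L shifted by ν)` (`U_add`); so `patEl d L = 1` implies the same for all shifts.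
* the operator `eps (aq q i) v` on `N` is `∑_{t<p} coef ζ v t • T(q,i)^t ∈ S`, and `χ` of it is `θ (∑_t ζ^(-v t) ζ^(w q i t)) = θ p` if `w q i = v`, and `0` otherwise (`Par.geom`).  So `χ` of the operator of
  `epsV d q v` is `θ p ^ t` if `w q = v` and `0` otherwise, and `χ` of the operator of `cell d q B` is `θ p ^ t * (number of occurrences of w q in B)`, which is `0` or `θ p ^ t` if `B` has no duplicates.
  If `patEl d L = 1` (with lists without duplicates): the product of the operators of the conditions of `L` (shifted by `ν`) kills `c`, so the product of the `χ`-values is 0, so some condition fails (`θ p ≠ 0`).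
-/

set_option autoImplicit false

namespace Pool.Agent.MG

section generic

variable {l : ℕ} {G : Type} [Group G] {M : Type} [AddCommGroup M] [Module (ZMod l) M]
  {K : Type} [Field K]

/-- `f` is realised on the module by an operator with value `k` -/
private def CharRV (S : Subalgebra (ZMod l) (Module.End (ZMod l) M)) (χ : S →+* K) (emb : M → G)
    (f : G → G) (k : K) : Prop :=
  ∃ s : S, (∀ x, f (emb x) = emb ((s : Module.End (ZMod l) M) x)) ∧ χ s = k

variable {S : Subalgebra (ZMod l) (Module.End (ZMod l) M)} {χ : S →+* K} {emb : M → G}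

omit [Group G] in
private theorem CharRV.comp {f g : G → G} {k k' : K} (hf : CharRV S χ emb f k)
    (hg : CharRV S χ emb g k') : CharRV S χ emb (fun x => f (g x)) (k * k') := by
  obtain ⟨s, hs, rfl⟩ := hf
  obtain ⟨s', hs', rfl⟩ := hg
  refine ⟨s * s', fun x => ?_, map_mul χ s s'⟩
  change f (g (emb x)) = _
  rw [hs', hs]
  rfl

private theorem CharRV.mul (hemb : ∀ x y, emb (x + y) = emb x * emb y) {f g : G → G} {k k' : K}
    (hf : CharRV S χ emb f k) (hg : CharRV S χ emb g k') :
    CharRV S χ emb (fun x => f x * g x) (k + k') := by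
  obtain ⟨s, hs, rfl⟩ := hf
  obtain ⟨s', hs', rfl⟩ := hg
  refine ⟨s + s', fun x => ?_, map_add χ s s'⟩
  change f (emb x) * g (emb x) = _
  rw [hs', hs, ← hemb]
  rfl

private theorem CharRV.one (hemb : ∀ x y, emb (x + y) = emb x * emb y) :
    CharRV S χ emb (fun _ => 1) 0 := by
  refine ⟨0, fun x => ?_, map_zero χ⟩
  have h := hemb 0 0
  rw [add_zero] at h
  exact (left_eq_mul.mp h).symm

omit [Group G] in
private theorem CharRV.id : CharRV S χ emb (fun x => x) 1 :=
  ⟨1, fun _ => rfl, map_one χ⟩

private theorem CharRV.pow (hemb : ∀ x y, emb (x + y) = emb x * emb y) (n : ℕ) :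
    CharRV S χ emb (fun x => x ^ n) (n : K) := by
  induction n with
  | zero =>
    simpa using CharRV.one (S := S) (χ := χ) hemb
  | succ n ih =>
    have h := ih.mul hemb (CharRV.id (S := S) (χ := χ) (emb := emb))
    have e1 : (fun x : G => x ^ n * x) = fun x => x ^ (n + 1) := by
      funext x
      rw [pow_succ]
    have e2 : ((n : K) + 1) = ((n + 1 : ℕ) : K) := by push_cast; ring
    rwa [e1, e2] at h

private theorem CharRV.listProd (hemb : ∀ x y, emb (x + y) = emb x * emb y) {α : Type}
    (L : List α) (F : α → G → G) (k : α → K) (h : ∀ a ∈ L, CharRV S χ emb (F a) (k a)) :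
    CharRV S χ emb (fun x => (L.map fun a => F a x).prod) ((L.map k).sum) := by
  induction L with
  | nil => simpa using CharRV.one (S := S) (χ := χ) hemb
  | cons a L ih =>
    simp only [List.map_cons, List.prod_cons, List.sum_cons]
    exact (h a (List.mem_cons_self)).mul hemb (ih fun b hb => h b (List.mem_cons_of_mem _ hb))

omit [Group G] in
private theorem CharRV.foldr {α : Type} (L : List α) (F : α → G → G) (k : α → K)
    (h : ∀ a ∈ L, CharRV S χ emb (F a) (k a)) :
    CharRV S χ emb (fun x => L.foldr (fun a y => F a y) x) ((L.map k).prod) := by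
  induction L with
  | nil => simpa using CharRV.id (S := S) (χ := χ) (emb := emb)
  | cons a L ih =>
    simp only [List.map_cons, List.prod_cons, List.foldr_cons]
    exact (h a (List.mem_cons_self)).comp (ih fun b hb => h b (List.mem_cons_of_mem _ hb))

end generic

section groups

variable {p l t : ℕ} {ζ : ZMod l} {G : Type} [Group G] {d : GData p l (Fin t) G}

private theorem char_cj_list_prod (g : G) {α : Type} (L : List α) (F : α → G) :
    cj g (L.map F).prod = (L.map fun a => cj g (F a)).prod := by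
  induction L with
  | nil => simp
  | cons a L ih => simp only [List.map_cons, List.prod_cons, cj_mul, ih]

private theorem char_cj_eps (g a : G) (v : ZMod p) (x : G) :
    cj g (eps ζ a v x) = eps ζ (cj g a) v (cj g x) := by
  unfold eps
  rw [char_cj_list_prod]
  congr 1
  refine List.map_congr_left fun m _ => ?_
  rw [← cj_pow, ← cj_pow]
  simp [cj, mul_assoc]

private theorem char_toEx_add (ν q : Pos) : toEx (ν + q) = toEx ν + toEx q := by
  funext κ j
  refine Fin.cases ?_ (fun j => ?_) j
  · simp [toEx]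
  · cases κ <;> simp [toEx]

private theorem char_toEx_x (j : Fin 4) : toEx (ee j, 0) = sg false j.succ := by
  funext κ k
  refine Fin.cases ?_ (fun k => ?_) k
  · cases κ
    · simp [toEx, sg, Fin.succ_ne_zero]
    · simp [toEx, sg]
  · cases κ
    · simp [toEx, sg, ee, Pi.single_apply]
    · simp [toEx, sg]

private theorem char_toEx_y (j : Fin 4) : toEx (0, ee j) = sg true j.succ := by
  funext κ k
  refine Fin.cases ?_ (fun k => ?_) k
  · cases κ
    · simp [toEx, sg]
    · simp [toEx, sg, Fin.succ_ne_zero]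
  · cases κ
    · simp [toEx, sg]
    · simp [toEx, sg, ee, Pi.single_apply]

private theorem char_cj_aq (R : GRel ζ d) (ν q : Pos) (i : Fin t) :
    cj (d.U (toEx ν)) (d.aq q i) = d.aq (ν + q) i := by
  unfold GData.aq
  rw [cj_cj, ← R.U_add, ← char_toEx_add]

private theorem char_cj_epsV (R : GRel ζ d) (ν q : Pos) (v : Fin t → ZMod p) (x : G) :
    cj (d.U (toEx ν)) (epsV ζ d q v x) = epsV ζ d (ν + q) v (cj (d.U (toEx ν)) x) := by
  unfold epsV
  induction List.finRange t with
  | nil => rfl
  | cons i L ih =>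
    simp only [List.foldr_cons]
    rw [char_cj_eps, char_cj_aq R, ih]

private theorem char_cj_cell (R : GRel ζ d) (ν q : Pos) (B : List (Fin t → ZMod p)) (x : G) :
    cj (d.U (toEx ν)) (cell ζ d q B x) = cell ζ d (ν + q) B (cj (d.U (toEx ν)) x) := by
  unfold cell
  rw [char_cj_list_prod]
  congr 1
  exact List.map_congr_left fun v _ => char_cj_epsV R ν q v x

private theorem char_cj_patEl (R : GRel ζ d) (ν : Pos) (L : List (Cond p t)) :
    cj (d.U (toEx ν)) (patEl ζ d L) =
      L.foldr (fun c x => cell ζ d (ν + c.1) c.2 x) d.c := by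
  unfold patEl
  induction L with
  | nil => exact cj_eq_self.2 (R.U_c _)
  | cons c L ih =>
    simp only [List.foldr_cons]
    rw [char_cj_cell R, ih]

private theorem char_aq_mem (q : Pos) (i : Fin t) : d.aq q i ∈ d.A := GRel.cj_a_mem _ _

private theorem char_aq_step (R : GRel ζ d) (q : Pos) (κ : Bool) (j : Fin 5) (i : Fin t) :
    cj (d.U (toEx q)) (cj (d.u κ j) (d.a i)) =
      d.aq q i * (cj (d.U (toEx q)) (cj (d.u κ 1) (d.a i)) * (d.aq q i)⁻¹) ^ (j : ℕ) := by
  rw [R.a_lin, cj_mul, cj_pow]
  unfold xop GData.aq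
  rw [cj_mul, cj_inv]

private theorem char_aq_x (R : GRel ζ d) (q : Pos) (j : Fin 4) (i : Fin t) :
    d.aq (q + (ee j, 0)) i = d.aq q i * (d.aq (q + (ee 0, 0)) i * (d.aq q i)⁻¹) ^ ((j : ℕ) + 1) := by
  have key : ∀ j : Fin 4, d.aq (q + (ee j, 0)) i =
      cj (d.U (toEx q)) (cj (d.u false j.succ) (d.a i)) := by
    intro j
    unfold GData.aq
    rw [char_toEx_add, char_toEx_x, R.U_add, R.U_single, cj_cj]
  rw [key j, key 0, char_aq_step R]
  rfl

private theorem char_aq_y (R : GRel ζ d) (q : Pos) (j : Fin 4) (i : Fin t) :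
    d.aq (q + (0, ee j)) i = d.aq q i * (d.aq (q + (0, ee 0)) i * (d.aq q i)⁻¹) ^ ((j : ℕ) + 1) := by
  have key : ∀ j : Fin 4, d.aq (q + (0, ee j)) i =
      cj (d.U (toEx q)) (cj (d.u true j.succ) (d.a i)) := by
    intro j
    unfold GData.aq
    rw [char_toEx_add, char_toEx_y, R.U_add, R.U_single, cj_cj]
  rw [key j, key 0, char_aq_step R]
  rfl

private theorem char_grp_id {H : Type} [Group H] {x y : H} (h : Commute x y) (n : ℕ) :
    y * (x * y⁻¹) ^ (n + 1) * y ^ n = x ^ (n + 1) := by
  rw [h.inv_right.mul_pow, ← mul_assoc, (h.symm.pow_right (n + 1)).eq, pow_succ' y⁻¹ n, inv_pow]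
  group

private theorem char_chi_pow [NeZero p] (h : ζ ^ p = 1) (n : ℕ) (s : ZMod p) :
    chi ζ ((n : ZMod p) * s) = chi ζ s ^ n := by
  have h1 : (chi ζ s) ^ p = 1 := zp_pow_p h s
  rw [pow_eq_zp h1, mul_comm]
  exact zp_mul h s _

/-- `chi ζ` is injective -/
private theorem char_chi_inj (hp : Par p l ζ) {s s' : ZMod p} (h : chi ζ s = chi ζ s') :
    s = s' := by
  haveI : Fact p.Prime := ⟨hp.p_prime⟩
  have h1 : orderOf ζ = p := orderOf_eq_prime hp.pow hp.ne_one
  have h2 := pow_injOn_Iio_orderOf (x := ζ) (by rw [h1]; exact ZMod.val_lt s)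
    (by rw [h1]; exact ZMod.val_lt s') h
  exact ZMod.val_injective p h2

private theorem char_End {l : ℕ} {H A : Type} [CommGroup H] [Group A]
    [Module (ZMod l) (Additive H)] (ρ : A → H → H) (h1 : ∀ b x y, ρ b (x * y) = ρ b x * ρ b y)
    (h2 : ∀ x, ρ 1 x = x) (h3 : ∀ b b' x, ρ (b * b') x = ρ b (ρ b' x)) :
    ∃ Φ : A →* Module.End (ZMod l) (Additive H),
      ∀ b x, Φ b x = Additive.ofMul (ρ b (Additive.toMul x)) := by
  let g : A → (Additive H →+ Additive H) := fun b =>
    { toFun := fun x => Additive.ofMul (ρ b (Additive.toMul x))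
      map_zero' := by
        have h := h1 b 1 1
        rw [mul_one] at h
        exact congrArg Additive.ofMul (left_eq_mul.mp h)
      map_add' := fun x y => congrArg Additive.ofMul (h1 b (Additive.toMul x)
        (Additive.toMul y)) }
  refine ⟨⟨⟨fun b => AddMonoidHom.toZModLinearMap l (g b), ?_⟩, ?_⟩, fun b x => rfl⟩
  · refine LinearMap.ext fun x => ?_
    exact congrArg Additive.ofMul (h2 (Additive.toMul x))
  · intro b b'
    refine LinearMap.ext fun x => ?_
    exact congrArg Additive.ofMul (h3 b b' (Additive.toMul x))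

/-- the normal closure of `c` as a module over `ZMod l` with the operators of conjugation -/
private theorem char_model (R : GRel ζ d)
    (hN : ∀ x ∈ d.N, ∀ y ∈ d.N, Commute x y) :
    ∃ (M : Type) (_ : AddCommGroup M) (_ : Module (ZMod l) M) (emb : M → G) (m0 : M)
      (Φ : d.A →* Module.End (ZMod l) M),
      (∀ x y, emb (x + y) = emb x * emb y) ∧ (∀ x, emb x = 1 → x = 0) ∧ emb m0 = d.c ∧
      ∀ (b : d.A) (x : M), emb (Φ b x) = cj (b : G) (emb x) := by
  letI : CommGroup d.N :=
    { (inferInstance : Group d.N) with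
      mul_comm := fun a b => Subtype.ext (hN a a.2 b b.2) }
  have hpow : ∀ x ∈ d.N, x ^ l = 1 := by
    intro x hx
    refine Subgroup.closure_induction (p := fun x _ => x ^ l = 1) ?_ ?_ ?_ ?_ hx
    · rintro y ⟨b, _, rfl⟩
      rw [← cj_pow, R.c_pow, cj_one]
    · exact one_pow l
    · intro y z hy hz h1 h2
      rw [(hN y hy z hz).mul_pow, h1, h2, one_mul]
    · intro y _ h1
      rw [inv_pow, h1, inv_one]
  have hl : ∀ x : Additive d.N, l • x = 0 := by
    intro x
    have h := hpow ((Additive.toMul x : d.N) : G) (Additive.toMul x : d.N).2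
    apply Additive.toMul.injective
    exact Subtype.ext h
  letI : Module (ZMod l) (Additive d.N) := AddCommGroup.zmodModule hl
  have hst : ∀ (b : d.A), ∀ x ∈ d.N, cj (b : G) x ∈ d.N := by
    intro b
    have h : d.N ≤ d.N.comap (cjHom (b : G)) := by
      refine (Subgroup.closure_le _).mpr ?_
      rintro x ⟨b', hb', rfl⟩
      change cj (b : G) (cj b' d.c) ∈ d.N
      rw [cj_cj]
      exact Subgroup.subset_closure ⟨_, d.A.mul_mem b.2 hb', rfl⟩
    exact fun x hx => h hx
  have hst' : ∀ (b : d.A) (x : d.N), cj (b : G) (x : G) ∈ d.N := fun b x => hst b x x.2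
  obtain ⟨Φ, hΦ⟩ := char_End (l := l) (H := d.N) (A := d.A)
    (fun b x => ⟨cj (b : G) (x : G), hst' b x⟩)
    (fun b x y => Subtype.ext (cj_mul _ _ _)) (fun x => Subtype.ext (one_cj _))
    (fun b b' x => Subtype.ext (cj_cj _ _ _).symm)
  refine ⟨Additive d.N, inferInstance, inferInstance,
    fun x => ((Additive.toMul x : d.N) : G), Additive.ofMul ⟨d.c, ?_⟩, Φ, ?_, ?_, rfl, ?_⟩
  · exact Subgroup.subset_closure ⟨1, d.A.one_mem, (one_cj _).symm⟩
  · intro x y
    rfl
  · intro x hx
    apply Additive.toMul.injective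
    exact Subtype.ext hx
  · intro b x
    rw [hΦ]
    rfl

end groups

variable {p l t : ℕ} {ζ : ZMod l} {G : Type} [Group G] {d : GData p l (Fin t) G}

theorem char_exists (hp : Par p l ζ) (R : GRel ζ d) (hA : ∀ x ∈ d.P, ∀ y ∈ d.P, Commute x y)
    (hAp : ∀ x ∈ d.P, x ^ p = 1)
    (hN : ∀ x ∈ d.N, ∀ y ∈ d.N, Commute x y) (hc : d.c ≠ 1) :
    ∃ w : E4 → E4 → (Fin t → ZMod p), IsPt w ∧
      ∀ L : List (Cond p t), (∀ c ∈ L, c.2.Nodup) → patEl ζ d L = 1 → Avoids w L := by
  haveI : Fact p.Prime := ⟨hp.p_prime⟩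
  haveI : Fact l.Prime := ⟨hp.l_prime⟩
  obtain ⟨M, _, _, emb, m0, Φ, hemb, hinj, hm0, hΦ⟩ := char_model R hN
  have hm0' : m0 ≠ 0 := by
    rintro rfl
    apply hc
    rw [← hm0]
    have h := hemb 0 0
    rw [add_zero] at h
    exact left_eq_mul.mp h
  have hAc : ∀ x y : d.A, Commute x y := fun x y =>
    Subtype.ext (hA x (GRel.A_le_P x.2) y (GRel.A_le_P y.2))
  have hAp' : ∀ x : d.A, x ^ p = 1 := fun x => Subtype.ext (hAp x (GRel.A_le_P x.2))
  let aA : Pos → Fin t → d.A := fun q i => ⟨d.aq q i, char_aq_mem q i⟩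
  let T : Pos × Fin t → Module.End (ZMod l) M := fun j => Φ (aA j.1 j.2)
  obtain ⟨w, K, _, χ, θ, h1, h2, h3⟩ := exists_char ζ hp.pow hp.ne_one T
    (fun i j => (hAc _ _).map Φ) (fun j => by
      rw [← map_pow, hAp', map_one]) m0 hm0'
  have hθ : Function.Injective θ := θ.injective
  let τ : Pos → Fin t → Algebra.adjoin (ZMod l) (Set.range T) :=
    fun q i => ⟨T (q, i), Algebra.subset_adjoin ⟨(q, i), rfl⟩⟩
  have hv : ∀ q i, χ (τ q i) = θ (chi ζ (w (q, i))) := fun q i => h1 (q, i)
  have hstep : ∀ (q q0 q1 : Pos) (i : Fin t) (n : ℕ),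
      d.aq q i = d.aq q1 i * (d.aq q0 i * (d.aq q1 i)⁻¹) ^ (n + 1) →
      w (q, i) = ((n + 1 : ℕ) : ZMod p) * w (q0, i) - (n : ZMod p) * w (q1, i) := by
    intro q q0 q1 i n h
    have e1 : aA q i * aA q1 i ^ n = aA q0 i ^ (n + 1) := by
      have e2 : aA q i = aA q1 i * (aA q0 i * (aA q1 i)⁻¹) ^ (n + 1) := Subtype.ext h
      rw [e2, char_grp_id (hAc _ _)]
    have e3 : τ q i * τ q1 i ^ n = τ q0 i ^ (n + 1) := by
      apply Subtype.ext
      change Φ (aA q i) * Φ (aA q1 i) ^ n = Φ (aA q0 i) ^ (n + 1)
      rw [← map_pow, ← map_mul, e1, map_pow]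
    have e4 := congrArg χ e3
    rw [map_mul, map_pow, map_pow, hv, hv, hv, ← map_pow, ← map_pow, ← map_mul] at e4
    have e5 := hθ e4
    rw [← char_chi_pow hp.pow, ← char_chi_pow hp.pow, ← chi_add hp.pow] at e5
    have e6 := char_chi_inj hp e5
    rw [← e6]
    ring
  have hθp : θ ((p : ℕ) : ZMod l) ≠ 0 := by
    intro h
    exact hp.p_unit (hθ (by rw [h, map_zero]))
  refine ⟨fun n m i => w ((n, m), i), ⟨?_, ?_⟩, ?_⟩
  · intro n m j
    funext i
    have h := hstep (n + ee j, m) (n + ee 0, m) (n, m) i j (by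
      have h4 := char_aq_x R (n, m) j i
      simpa using h4)
    simpa using h
  · intro n m j
    funext i
    have h := hstep (n, m + ee j) (n, m + ee 0) (n, m) i j (by
      have h4 := char_aq_y R (n, m) j i
      simpa using h4)
    simpa using h
  · intro L hL hpat ν
    by_contra hcon
    push Not at hcon
    -- powers of the operators
    have hT : ∀ (q : Pos) (i : Fin t) (m : ℕ),
        CharRV _ χ emb (fun x => cj (d.aq q i ^ m) x) (θ (chi ζ (w (q, i))) ^ m) := by
      intro q i m
      refine ⟨τ q i ^ m, fun x => ?_, by rw [map_pow, hv]⟩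
      have h4 := hΦ (aA q i ^ m) x
      rw [map_pow] at h4
      exact h4.symm
    have hE : ∀ (q : Pos) (i : Fin t) (v : ZMod p),
        CharRV _ χ emb (fun x => eps ζ (d.aq q i) v x)
          (if w (q, i) = v then θ ((p : ℕ) : ZMod l) else 0) := by
      intro q i v
      have h4 := CharRV.listProd (S := Algebra.adjoin (ZMod l) (Set.range T)) (χ := χ) hemb
        (List.range p) (fun m x => cj (d.aq q i ^ m) (x ^ coef ζ v m))
        (fun m => θ (chi ζ (w (q, i))) ^ m * ((coef ζ v m : ℕ) : K))
        (fun m _ => (hT q i m).comp (CharRV.pow hemb _))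
      have h5 : ((List.range p).map fun m => θ (chi ζ (w (q, i))) ^ m *
          ((coef ζ v m : ℕ) : K)).sum = if w (q, i) = v then θ ((p : ℕ) : ZMod l) else 0 := by
        have h6 := hp.geom (w (q, i) - v)
        have h7 : ∀ m ∈ Finset.range p, θ (chi ζ (w (q, i))) ^ m * ((coef ζ v m : ℕ) : K) =
            θ (chi ζ ((m : ZMod p) * (w (q, i) - v))) := by
          intro m _
          have e1 : ((coef ζ v m : ℕ) : K) = θ (chi ζ (-(v * (m : ZMod p)))) := by
            rw [← map_natCast θ]
            unfold coef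
            rw [ZMod.natCast_zmod_val]
          rw [e1, ← map_pow, ← map_mul, ← char_chi_pow hp.pow, ← chi_add hp.pow]
          congr 2
          ring
        have h8 : ((List.range p).map fun m => θ (chi ζ (w (q, i))) ^ m *
            ((coef ζ v m : ℕ) : K)).sum = ∑ m ∈ Finset.range p, θ (chi ζ (w (q, i))) ^ m *
            ((coef ζ v m : ℕ) : K) := rfl
        rw [h8, Finset.sum_congr rfl h7, ← map_sum, h6]
        simp only [sub_eq_zero]
        split_ifs
        · rfl
        · exact map_zero θ
      rw [h5] at h4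
      exact h4
    have hB : ∀ (q : Pos) (v : Fin t → ZMod p), CharRV _ χ emb (fun x => epsV ζ d q v x)
        (((List.finRange t).map fun i =>
          if w (q, i) = v i then θ ((p : ℕ) : ZMod l) else 0).prod) := fun q v =>
      CharRV.foldr (List.finRange t) (fun i x => eps ζ (d.aq q i) (v i) x) _
        fun i _ => hE q i (v i)
    have hC : ∀ (q : Pos) (B : List (Fin t → ZMod p)), B.Nodup → (fun i => w (q, i)) ∈ B →
        CharRV _ χ emb (fun x => cell ζ d q B x) (θ ((p : ℕ) : ZMod l) ^ t) := by
      intro q B hBn hBm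
      have h4 := CharRV.listProd (S := Algebra.adjoin (ZMod l) (Set.range T)) (χ := χ) hemb
        B (fun v x => epsV ζ d q v x) _ (fun v _ => hB q v)
      have h5 : (B.map fun v => ((List.finRange t).map fun i =>
          if w (q, i) = v i then θ ((p : ℕ) : ZMod l) else 0).prod).sum =
          θ ((p : ℕ) : ZMod l) ^ t := by
        have h6 : ∀ v : Fin t → ZMod p, ((List.finRange t).map fun i =>
            if w (q, i) = v i then θ ((p : ℕ) : ZMod l) else 0).prod =
            if v = (fun i => w (q, i)) then θ ((p : ℕ) : ZMod l) ^ t else 0 := by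
          intro v
          rw [← List.ofFn_eq_map, List.prod_ofFn]
          by_cases hvw : v = fun i => w (q, i)
          · rw [if_pos hvw, Finset.prod_congr rfl (g := fun _ => θ ((p : ℕ) : ZMod l)) (fun i _ =>
              if_pos (congrFun hvw i).symm)]
            simp
          · rw [if_neg hvw]
            have h7 : ∃ i, w (q, i) ≠ v i := by
              by_contra h8
              push Not at h8
              exact hvw (funext fun i => (h8 i).symm)
            obtain ⟨i, hi⟩ := h7
            exact Finset.prod_eq_zero (Finset.mem_univ i) (if_neg hi)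
        simp only [h6]
        clear h4 h6
        induction B with
        | nil => exact absurd hBm (List.not_mem_nil)
        | cons v B ih =>
          rw [List.map_cons, List.sum_cons]
          rw [List.nodup_cons] at hBn
          rcases List.mem_cons.1 hBm with h7 | h7
          · rw [if_pos h7.symm]
            have h8 : (B.map fun v => if v = (fun i => w (q, i)) then
                θ ((p : ℕ) : ZMod l) ^ t else 0) = B.map fun _ => (0 : K) := by
              refine List.map_congr_left fun v' hv' => if_neg ?_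
              rintro rfl
              exact hBn.1 (h7 ▸ hv')
            rw [h8]
            simp
          · rw [if_neg ?_, ih hBn.2 h7, zero_add]
            rintro rfl
            exact hBn.1 h7
      rw [h5] at h4
      exact h4
    have hD := CharRV.foldr (S := Algebra.adjoin (ZMod l) (Set.range T)) (χ := χ) (emb := emb) L
      (fun c x => cell ζ d (ν + c.1) c.2 x) (fun _ => θ ((p : ℕ) : ZMod l) ^ t)
      (fun c hcL => hC (ν + c.1) c.2 (hL c hcL) (hcon c hcL))
    obtain ⟨s, hs1, hs2⟩ := hD
    have h4 : emb ((s : Module.End (ZMod l) M) m0) = 1 := by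
      rw [← hs1, hm0]
      change L.foldr (fun c x => cell ζ d (ν + c.1) c.2 x) d.c = 1
      rw [← char_cj_patEl R, hpat, cj_one]
    have h5 := h3 s (hinj _ h4)
    rw [hs2] at h5
    simp only [List.map_const', List.prod_replicate] at h5
    exact pow_ne_zero _ (pow_ne_zero _ hθp) h5

end Pool.Agent.MG
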