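import Mathlib

/-!
MG (MP_faf39d_al, group side): definitions and basic facts.

`p` odd prime (exponent of the tracks), `l` prime with `ζ ∈ ZMod l` of order `p`, `ι` finite set of tracks,
two variables `κ : Bool` (`false` = x, `true` = y), units `u κ j` (`j : Fin 5`, `u κ 0 = 1`, node `j`).
-/

set_option autoImplicit false

namespace Pool.Agent.MG

/-- power with exponent in `ZMod p` (used for elements whose `p`-th power is 1) -/
def zp {p : ℕ} {G : Type*} [Monoid G] (g : G) (s : ZMod p) : G := g ^ s.val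

/-- conjugation -/
def cj {G : Type*} [Group G] (g x : G) : G := g * x * g⁻¹

section basic
variable {G : Type*} [Group G]

theorem cj_def (g x : G) : cj g x = g * x * g⁻¹ := rfl
@[simp] theorem one_cj (x : G) : cj 1 x = x := by simp [cj]
@[simp] theorem cj_one (g : G) : cj g (1 : G) = 1 := by simp [cj]
theorem cj_mul (g x y : G) : cj g (x * y) = cj g x * cj g y := by simp [cj]
theorem cj_inv (g x : G) : cj g x⁻¹ = (cj g x)⁻¹ := by simp [cj, mul_assoc]
theorem cj_pow (g x : G) (n : ℕ) : cj g (x ^ n) = cj g x ^ n := by simp [cj, conj_pow]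
theorem cj_zpow (g x : G) (n : ℤ) : cj g (x ^ n) = cj g x ^ n := by simp [cj, conj_zpow]
theorem cj_zp {p : ℕ} (g x : G) (s : ZMod p) : cj g (zp x s) = zp (cj g x) s := by
  unfold zp; rw [cj_pow]
theorem cj_cj (g h x : G) : cj g (cj h x) = cj (g * h) x := by simp [cj, mul_assoc]
theorem cj_eq_self {g x : G} : cj g x = x ↔ Commute g x := by
  unfold cj; rw [mul_inv_eq_iff_eq_mul]; rfl
theorem cj_inj (g : G) {x y : G} : cj g x = cj g y ↔ x = y := by simp [cj]
theorem cj_commute (g : G) {x y : G} : Commute (cj g x) (cj g y) ↔ Commute x y := by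
  unfold Commute SemiconjBy
  rw [← cj_mul, ← cj_mul, cj_inj]
theorem cj_inv_cj (g x : G) : cj g⁻¹ (cj g x) = x := by simp [cj_cj]
theorem cj_cj_inv (g x : G) : cj g (cj g⁻¹ x) = x := by simp [cj_cj]

/-- conjugation as a homomorphism -/
def cjHom (g : G) : G →* G where
  toFun := cj g
  map_one' := cj_one g
  map_mul' := cj_mul g

@[simp] theorem cjHom_apply (g x : G) : cjHom g x = cj g x := rfl

theorem map_cj {H : Type*} [Group H] (f : G →* H) (g x : G) : f (cj g x) = cj (f g) (f x) := by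
  simp [cj]

end basic

section zpl
variable {p : ℕ} {M : Type*} [Monoid M]

@[simp] theorem zp_zero (g : M) : zp g (0 : ZMod p) = 1 := by simp [zp]
theorem zp_one [Fact p.Prime] (g : M) : zp g (1 : ZMod p) = g := by
  have : (1 : ZMod p).val = 1 := ZMod.val_one p
  simp [zp, this]
@[simp] theorem one_zp (s : ZMod p) : zp (1 : M) s = 1 := by simp [zp]

theorem pow_eq_zp {g : M} (h : g ^ p = 1) (n : ℕ) : g ^ n = zp g (n : ZMod p) := by
  unfold zp
  rw [ZMod.val_natCast]
  conv_lhs => rw [← Nat.div_add_mod n p, pow_add, pow_mul, h, one_pow, one_mul]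

theorem zp_add [NeZero p] {g : M} (h : g ^ p = 1) (s t : ZMod p) :
    zp g (s + t) = zp g s * zp g t := by
  have h1 : zp g s * zp g t = g ^ (s.val + t.val) := by unfold zp; rw [pow_add]
  have h2 : ((s.val + t.val : ℕ) : ZMod p) = s + t := by
    rw [Nat.cast_add, ZMod.natCast_zmod_val, ZMod.natCast_zmod_val]
  rw [h1, pow_eq_zp h, h2]

theorem zp_pow_p {g : M} (h : g ^ p = 1) (s : ZMod p) : (zp g s) ^ p = 1 := by
  unfold zp; rw [← pow_mul, mul_comm, pow_mul, h, one_pow]

theorem zp_mul [NeZero p] {g : M} (h : g ^ p = 1) (s t : ZMod p) :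
    zp g (s * t) = zp (zp g s) t := by
  have h1 : zp (zp g s) t = g ^ (s.val * t.val) := by unfold zp; rw [pow_mul]
  have h2 : ((s.val * t.val : ℕ) : ZMod p) = s * t := by
    rw [Nat.cast_mul, ZMod.natCast_zmod_val, ZMod.natCast_zmod_val]
  rw [h1, pow_eq_zp h, h2]

theorem zp_mul_of_commute {g h : M} (hc : Commute g h) (s : ZMod p) :
    zp (g * h) s = zp g s * zp h s := by
  unfold zp; exact hc.mul_pow _

theorem zp_map {N : Type*} [Monoid N] (f : M →* N) (g : M) (s : ZMod p) :
    f (zp g s) = zp (f g) s := by simp [zp]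

theorem Commute.zp_right {g h : M} (hc : Commute g h) (s : ZMod p) : Commute g (zp h s) :=
  hc.pow_right _

theorem Commute.zp_left {g h : M} (hc : Commute g h) (s : ZMod p) : Commute (zp g s) h :=
  hc.pow_left _

end zpl

theorem zp_neg {p : ℕ} [NeZero p] {G : Type*} [Group G] {g : G} (h : g ^ p = 1) (s : ZMod p) :
    zp g (-s) = (zp g s)⁻¹ := by
  rw [eq_inv_iff_mul_eq_one, ← zp_add h]; simp

theorem zp_inv {p : ℕ} {G : Type*} [Group G] (g : G) (s : ZMod p) :
    zp g⁻¹ s = (zp g s)⁻¹ := by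
  simp [zp]

/-- the node `j` as an element of `ZMod p` -/
def nd (p : ℕ) (j : Fin 5) : ZMod p := ((j : ℕ) : ZMod p)

/-- Lagrange coefficient mod `p` for quadratic interpolation at the nodes `i, j, k`, evaluated
at `b`, the coefficient of the value at `i` -/
def lag (p : ℕ) (b i j k : Fin 5) : ZMod p :=
  (nd p b - nd p j) * (nd p b - nd p k) * ((nd p i - nd p j) * (nd p i - nd p k))⁻¹

/-- the word `v_1^{n_1} v_2^{n_2} v_3^{n_3} v_4^{n_4}` -/
def UU4 {G : Type*} [Group G] (v : Fin 5 → G) (n : Fin 5 → ℤ) : G :=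
  v 1 ^ n 1 * v 2 ^ n 2 * v 3 ^ n 3 * v 4 ^ n 4

/-- exponent vectors (the entries at `0` are ignored) -/
abbrev Ex : Type := Bool → Fin 5 → ℤ

/-- the element of the group generated by the units with exponent vector `n` -/
def UU {G : Type*} [Group G] (u : Bool → Fin 5 → G) (n : Ex) : G :=
  UU4 (u false) (n false) * UU4 (u true) (n true)

/-- the characters of `ZMod p` in `ZMod l`: `chi ζ s = ζ ^ s` -/
def chi {p l : ℕ} (ζ : ZMod l) (s : ZMod p) : ZMod l := ζ ^ s.val

/-- generator data -/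
structure GData (p l : ℕ) (ι : Type) (G : Type) where
  u : Bool → Fin 5 → G
  a : ι → G
  e : Bool → Bool → ι → ι → G
  D : Bool → ι → (ZMod p × ZMod p → ZMod l) → G
  c : G

/-- `x_κ m = m^{u_κ - 1}` -/
def xop {G : Type*} [Group G] (u : Bool → Fin 5 → G) (κ : Bool) (m : G) : G :=
  cj (u κ 1) m * m⁻¹

/-- `ax u m α β = x^α y^β m` -/
def ax {G : Type*} [Group G] (u : Bool → Fin 5 → G) (m : G) : Bool → Bool → G
  | false, false => m
  | true, false => xop u false m
  | false, true => xop u true m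
  | true, true => xop u false (xop u true m)

namespace GData

variable {p l : ℕ} {ι G : Type}

/-- the module generators -/
def gens (d : GData p l ι G) : Set G :=
  {m | (∃ i, m = d.a i) ∨ ∃ α β i k, m = d.e α β i k}

/-- coarse functions of track `i` -/
def D1 (d : GData p l ι G) (i : ι) (f : ZMod p → ZMod l) : G := d.D false i (fun s => f s.1)

end GData

/-- coefficient of `ε_v` -/
def coef {p l : ℕ} (ζ : ZMod l) (v : ZMod p) (t : ℕ) : ℕ := (chi ζ (-(v * (t : ZMod p)))).val

/-- the operator `∑_t ζ^{-vt} g^t` applied to `w`: `p` times the projection to the part on which `g` acts as `ζ^v` -/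
def eps {p l : ℕ} (ζ : ZMod l) {G : Type*} [Group G] (g : G) (v : ZMod p) (w : G) : G :=
  ((List.range p).map fun t => cj (g ^ t) (w ^ coef ζ v t)).prod

/-- The relations (everything except the rules). -/
structure GRel {p l : ℕ} (ζ : ZMod l) {ι G : Type} [Group G] (d : GData p l ι G) : Prop where
  u_zero : ∀ κ, d.u κ 0 = 1
  u_comm : ∀ κ j κ' j', Commute (d.u κ j) (d.u κ' j')
  gen_pow : ∀ m ∈ d.gens, m ^ p = 1
  a_lin : ∀ κ (j : Fin 5) i, cj (d.u κ j) (d.a i) = d.a i * xop d.u κ (d.a i) ^ (j : ℕ)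
  lagr : ∀ m ∈ d.gens, ∀ κ, ∀ b i j k : Fin 5, b ≠ i → b ≠ j → b ≠ k → i ≠ j → i ≠ k → j ≠ k →
    cj (d.u κ b) m = zp (cj (d.u κ i) m) (lag p b i j k) * zp (cj (d.u κ j) m) (lag p b j i k) *
      zp (cj (d.u κ k) m) (lag p b k i j)
  tame : ∀ m ∈ d.gens, ∀ m' ∈ d.gens, ∀ ε : Bool → Fin 5 → SignType,
    Commute m (cj (UU d.u (fun κ j => ((ε κ j : SignType) : ℤ))) m')
  D_add : ∀ κ i f g, d.D κ i (f + g) = d.D κ i f * d.D κ i g
  D_coarse : ∀ i (f : ZMod p → ZMod l), d.D true i (fun s => f s.1) = d.D false i (fun s => f s.1)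
  D_const : ∀ κ i (w : ZMod l), d.D κ i (fun _ => w) = d.c ^ w.val
  c_pow : d.c ^ l = 1
  u_c : ∀ κ j, Commute (d.u κ j) d.c
  a_D : ∀ κ i f, cj (d.a i) (d.D κ i f) = d.D κ i (fun s => chi ζ s.1 * f s)
  x_D : ∀ κ i f, cj (xop d.u κ (d.a i)) (d.D κ i f) = d.D κ i (fun s => chi ζ s.2 * f s)
  line : ∀ κ i (j : Fin 5) (f : ZMod p → ZMod l),
    cj (d.u κ j) (d.D κ i (fun s => f s.1)) = d.D κ i (fun s => f (s.1 + nd p j * s.2))
  e_D : ∀ α β i k (s : ZMod p) (w : ZMod l),
    cj (d.e α β i k) (d.D1 i (Pi.single s w)) =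
      cj (zp (ax d.u (d.a k) α β) s) (d.D1 i (Pi.single s w))

/-- Parameters: `p ≥ 5` and `l` are primes, `ζ` has order `p`. -/
structure Par (p l : ℕ) (ζ : ZMod l) : Prop where
  p_prime : p.Prime
  l_prime : l.Prime
  p_ge : 5 ≤ p
  pow : ζ ^ p = 1
  ne_one : ζ ≠ 1

namespace GData

variable {p l : ℕ} {ι G : Type} [Group G]

/-- the element with exponent vector `n` -/
def U (d : GData p l ι G) (n : Ex) : G := UU d.u n

/-- the normal closure of the `a i` under the units -/
def A (d : GData p l ι G) : Subgroup G := Subgroup.closure {x | ∃ n i, x = cj (d.U n) (d.a i)}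

/-- the normal closure of the module generators under the units -/
def P (d : GData p l ι G) : Subgroup G :=
  Subgroup.closure {x | ∃ n, ∃ m ∈ d.gens, x = cj (d.U n) m}

/-- conjugates of the coarse functions -/
def Dq (d : GData p l ι G) (n : Ex) (i : ι) (f : ZMod p → ZMod l) : G := cj (d.U n) (d.D1 i f)

/-- the normal closure of `c` -/
def N (d : GData p l ι G) : Subgroup G := Subgroup.closure {x | ∃ b ∈ d.A, x = cj b d.c}

end GData

end Pool.Agent.MG
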