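import Pool.Agent.MG.UBasic

/-!
MG Eqn: the relations `GRel` as a finite natural family of equations.
-/

set_option autoImplicit false

namespace Pool.Agent.MG

/-- image of the data under a map -/
def GData.map {p l : ℕ} {ι G H : Type} (f : G → H) (d : GData p l ι G) : GData p l ι H where
  u κ j := f (d.u κ j)
  a i := f (d.a i)
  e α β i k := f (d.e α β i k)
  D κ i g := f (d.D κ i g)
  c := f d.c

namespace EqnAux

/-- a property of the data which is a finite natural family of equations -/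
def EqDef {p l t : ℕ} (P : ∀ (G : Type) [Group G], GData p l (Fin t) G → Prop) : Prop :=
  ∃ (I : Type) (_ : Finite I)
      (eqn : ∀ (G : Type) [Group G], GData p l (Fin t) G → I → G × G),
      (∀ (G : Type) [Group G] (d : GData p l (Fin t) G),
        P G d ↔ ∀ i, (eqn G d i).1 = (eqn G d i).2) ∧
      ∀ (G H : Type) [Group G] [Group H] (f : G →* H) (d : GData p l (Fin t) G) (i : I),
        eqn H (d.map f) i = (f (eqn G d i).1, f (eqn G d i).2)

/-- a natural element -/
def NatEl {p l t : ℕ} (x : ∀ (G : Type) [Group G], GData p l (Fin t) G → G) : Prop :=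
  ∀ (G H : Type) [Group G] [Group H] (f : G →* H) (d : GData p l (Fin t) G),
    x H (d.map f) = f (x G d)

variable {p l t : ℕ}

theorem eqDef_eq {x y : ∀ (G : Type) [Group G], GData p l (Fin t) G → G} (hx : NatEl x)
    (hy : NatEl y) : EqDef (p := p) (l := l) (t := t) (fun G _ d => x G d = y G d) := by
  refine ⟨Unit, inferInstance, fun G _ d _ => (x G d, y G d), ?_, ?_⟩
  · intro G _ d
    exact ⟨fun h _ => h, fun h => h ()⟩
  · intro G H _ _ f d _
    exact Prod.ext (hx G H f d) (hy G H f d)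

theorem eqDef_and {P Q : ∀ (G : Type) [Group G], GData p l (Fin t) G → Prop} (hP : EqDef P)
    (hQ : EqDef Q) : EqDef (p := p) (l := l) (t := t) (fun G _ d => P G d ∧ Q G d) := by
  obtain ⟨I, hI, e, h1, h2⟩ := hP
  obtain ⟨J, hJ, e', h1', h2'⟩ := hQ
  refine ⟨I ⊕ J, inferInstance, fun G _ d i => Sum.elim (e G d) (e' G d) i, ?_, ?_⟩
  · intro G _ d
    constructor
    · rintro ⟨h, h'⟩ (i | i)
      · exact (h1 G d).mp h i
      · exact (h1' G d).mp h' i
    · intro h
      exact ⟨(h1 G d).mpr fun i => h (.inl i), (h1' G d).mpr fun i => h (.inr i)⟩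
  · intro G H _ _ f d i
    rcases i with i | i
    · exact h2 G H f d i
    · exact h2' G H f d i

theorem eqDef_forall {J : Type} [Finite J]
    {P : J → ∀ (G : Type) [Group G], GData p l (Fin t) G → Prop}
    (hP : ∀ j, EqDef (P j)) :
    EqDef (p := p) (l := l) (t := t) (fun G _ d => ∀ j, P j G d) := by
  choose I hI e h1 h2 using hP
  refine ⟨Σ j, I j, inferInstance, fun G _ d i => e i.1 G d i.2, ?_, ?_⟩
  · intro G _ d
    constructor
    · intro h i
      exact (h1 i.1 G d).mp (h i.1) i.2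
    · intro h j
      exact (h1 j G d).mpr fun i => h ⟨j, i⟩
  · intro G H _ _ f d i
    exact h2 i.1 G H f d i.2

theorem eqDef_true : EqDef (p := p) (l := l) (t := t) (fun _ _ _ => True) := by
  refine ⟨Empty, inferInstance, fun G _ d i => i.elim, ?_, ?_⟩
  · intro G _ d
    exact ⟨fun _ i => i.elim, fun _ => trivial⟩
  · intro G H _ _ f d i
    exact i.elim

theorem eqDef_congr {P Q : ∀ (G : Type) [Group G], GData p l (Fin t) G → Prop} (hP : EqDef P)
    (h : ∀ (G : Type) [Group G] (d : GData p l (Fin t) G), Q G d ↔ P G d) : EqDef Q := by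
  obtain ⟨I, hI, e, h1, h2⟩ := hP
  exact ⟨I, hI, e, fun G _ d => (h G d).trans (h1 G d), h2⟩

theorem eqDef_imp {P : ∀ (G : Type) [Group G], GData p l (Fin t) G → Prop} (A : Prop)
    (hP : EqDef P) : EqDef (p := p) (l := l) (t := t) (fun G _ d => A → P G d) := by
  by_cases hA : A
  · exact eqDef_congr hP fun G _ d => ⟨fun h => h hA, fun h _ => h⟩
  · exact eqDef_congr eqDef_true fun G _ d => ⟨fun _ => trivial, fun _ h => absurd h hA⟩

/-- the generators of the module -/
def genEl {G : Type} (d : GData p l (Fin t) G) : Fin t ⊕ (Bool × Bool × Fin t × Fin t) → G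
  | .inl i => d.a i
  | .inr x => d.e x.1 x.2.1 x.2.2.1 x.2.2.2

theorem forall_gens {G : Type} (d : GData p l (Fin t) G) (Q : G → Prop) :
    (∀ m ∈ d.gens, Q m) ↔ ∀ x, Q (genEl d x) := by
  constructor
  · intro h x
    rcases x with i | x
    · exact h _ (Or.inl ⟨i, rfl⟩)
    · exact h _ (Or.inr ⟨_, _, _, _, rfl⟩)
  · rintro h m (⟨i, rfl⟩ | ⟨α, β, i, k, rfl⟩)
    · exact h (.inl i)
    · exact h (.inr (α, β, i, k))

theorem nat_one : NatEl (p := p) (l := l) (t := t) (fun _ _ _ => 1) := by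
  intro G H _ _ f d
  exact (map_one f).symm

theorem nat_mul {x y : ∀ (G : Type) [Group G], GData p l (Fin t) G → G} (hx : NatEl x)
    (hy : NatEl y) : NatEl (p := p) (l := l) (t := t) (fun G _ d => x G d * y G d) := by
  intro G H _ _ f d
  change x H (d.map f) * y H (d.map f) = f (x G d * y G d)
  rw [hx, hy, map_mul]

theorem nat_inv {x : ∀ (G : Type) [Group G], GData p l (Fin t) G → G} (hx : NatEl x) :
    NatEl (p := p) (l := l) (t := t) (fun G _ d => (x G d)⁻¹) := by
  intro G H _ _ f d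
  change (x H (d.map f))⁻¹ = f (x G d)⁻¹
  rw [hx, map_inv]

theorem nat_pow {x : ∀ (G : Type) [Group G], GData p l (Fin t) G → G} (hx : NatEl x) (n : ℕ) :
    NatEl (p := p) (l := l) (t := t) (fun G _ d => (x G d) ^ n) := by
  intro G H _ _ f d
  change (x H (d.map f)) ^ n = f ((x G d) ^ n)
  rw [hx, map_pow]

theorem nat_zpow {x : ∀ (G : Type) [Group G], GData p l (Fin t) G → G} (hx : NatEl x) (n : ℤ) :
    NatEl (p := p) (l := l) (t := t) (fun G _ d => (x G d) ^ n) := by
  intro G H _ _ f d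
  change (x H (d.map f)) ^ n = f ((x G d) ^ n)
  rw [hx, map_zpow]

theorem nat_zp {x : ∀ (G : Type) [Group G], GData p l (Fin t) G → G} (hx : NatEl x) (s : ZMod p) :
    NatEl (p := p) (l := l) (t := t) (fun G _ d => zp (x G d) s) :=
  nat_pow hx s.val

theorem nat_cj {x y : ∀ (G : Type) [Group G], GData p l (Fin t) G → G} (hx : NatEl x)
    (hy : NatEl y) : NatEl (p := p) (l := l) (t := t) (fun G _ d => cj (x G d) (y G d)) :=
  nat_mul (nat_mul hx hy) (nat_inv hx)

theorem nat_u (κ : Bool) (j : Fin 5) :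
    NatEl (p := p) (l := l) (t := t) (fun _ _ d => d.u κ j) := fun _ _ _ _ _ _ => rfl

theorem nat_a (i : Fin t) :
    NatEl (p := p) (l := l) (t := t) (fun _ _ d => d.a i) := fun _ _ _ _ _ _ => rfl

theorem nat_e (α β : Bool) (i k : Fin t) :
    NatEl (p := p) (l := l) (t := t) (fun _ _ d => d.e α β i k) := fun _ _ _ _ _ _ => rfl

theorem nat_D (κ : Bool) (i : Fin t) (g : ZMod p × ZMod p → ZMod l) :
    NatEl (p := p) (l := l) (t := t) (fun _ _ d => d.D κ i g) := fun _ _ _ _ _ _ => rfl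

theorem nat_c : NatEl (p := p) (l := l) (t := t) (fun _ _ d => d.c) := fun _ _ _ _ _ _ => rfl

theorem nat_gen (x : Fin t ⊕ (Bool × Bool × Fin t × Fin t)) :
    NatEl (p := p) (l := l) (t := t) (fun _ _ d => genEl d x) := by
  intro G H _ _ f d
  rcases x with i | x
  · rfl
  · rfl

theorem nat_xop {x : ∀ (G : Type) [Group G], GData p l (Fin t) G → G} (hx : NatEl x) (κ : Bool) :
    NatEl (p := p) (l := l) (t := t) (fun G _ d => xop d.u κ (x G d)) :=
  nat_mul (nat_cj (nat_u κ 1) hx) (nat_inv hx)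

theorem nat_ax {x : ∀ (G : Type) [Group G], GData p l (Fin t) G → G} (hx : NatEl x)
    (α β : Bool) :
    NatEl (p := p) (l := l) (t := t) (fun G _ d => ax d.u (x G d) α β) := by
  cases α <;> cases β
  · exact hx
  · exact nat_xop hx true
  · exact nat_xop hx false
  · exact nat_xop (nat_xop hx true) false

theorem nat_UU4 (κ : Bool) (n : Fin 5 → ℤ) :
    NatEl (p := p) (l := l) (t := t) (fun _ _ d => UU4 (d.u κ) n) :=
  nat_mul (nat_mul (nat_mul (nat_zpow (nat_u κ 1) _) (nat_zpow (nat_u κ 2) _))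
    (nat_zpow (nat_u κ 3) _)) (nat_zpow (nat_u κ 4) _)

theorem nat_UU (n : Ex) :
    NatEl (p := p) (l := l) (t := t) (fun _ _ d => UU d.u n) :=
  nat_mul (nat_UU4 false _) (nat_UU4 true _)

theorem eqDef_commute {x y : ∀ (G : Type) [Group G], GData p l (Fin t) G → G} (hx : NatEl x)
    (hy : NatEl y) :
    EqDef (p := p) (l := l) (t := t) (fun G _ d => Commute (x G d) (y G d)) :=
  eqDef_congr (eqDef_eq (nat_mul hx hy) (nat_mul hy hx)) fun _ _ _ => Iff.rfl

end EqnAux

open EqnAux in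
theorem eqn_exists (p l t : ℕ) [Fact p.Prime] [Fact l.Prime] (ζ : ZMod l) :
    ∃ (I : Type) (_ : Finite I)
      (eqn : ∀ (G : Type) [Group G], GData p l (Fin t) G → I → G × G),
      (∀ (G : Type) [Group G] (d : GData p l (Fin t) G),
        GRel ζ d ↔ ∀ i, (eqn G d i).1 = (eqn G d i).2) ∧
      ∀ (G H : Type) [Group G] [Group H] (f : G →* H) (d : GData p l (Fin t) G) (i : I),
        eqn H (d.map f) i = (f (eqn G d i).1, f (eqn G d i).2) := by
  have : NeZero p := ⟨(Fact.out : p.Prime).ne_zero⟩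
  have : NeZero l := ⟨(Fact.out : l.Prime).ne_zero⟩
  -- the fields
  have h1 : EqDef (p := p) (l := l) (t := t) (fun _ _ d => ∀ κ, d.u κ 0 = 1) :=
    eqDef_forall fun κ => eqDef_eq (nat_u κ 0) nat_one
  have h2 : EqDef (p := p) (l := l) (t := t)
      (fun _ _ d => ∀ κ j κ' j', Commute (d.u κ j) (d.u κ' j')) :=
    eqDef_forall fun κ => eqDef_forall fun j => eqDef_forall fun κ' => eqDef_forall fun j' =>
      eqDef_commute (nat_u κ j) (nat_u κ' j')
  have h3 : EqDef (p := p) (l := l) (t := t) (fun _ _ d => ∀ m ∈ d.gens, m ^ p = 1) :=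
    eqDef_congr (eqDef_forall fun x => eqDef_eq (nat_pow (nat_gen x) p) nat_one)
      fun G _ d => forall_gens d fun m => m ^ p = 1
  have h4 : EqDef (p := p) (l := l) (t := t) (fun _ _ d => ∀ κ (j : Fin 5) i,
      cj (d.u κ j) (d.a i) = d.a i * xop d.u κ (d.a i) ^ (j : ℕ)) :=
    eqDef_forall fun κ => eqDef_forall fun j => eqDef_forall fun i =>
      eqDef_eq (nat_cj (nat_u κ j) (nat_a i)) (nat_mul (nat_a i)
        (nat_pow (nat_xop (nat_a i) κ) (j : ℕ)))
  have h5 : EqDef (p := p) (l := l) (t := t) (fun _ _ d => ∀ m ∈ d.gens, ∀ κ,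
      ∀ b i j k : Fin 5, b ≠ i → b ≠ j → b ≠ k → i ≠ j → i ≠ k → j ≠ k →
      cj (d.u κ b) m = zp (cj (d.u κ i) m) (lag p b i j k) *
        zp (cj (d.u κ j) m) (lag p b j i k) * zp (cj (d.u κ k) m) (lag p b k i j)) := by
    refine eqDef_congr (eqDef_forall fun x => ?_) fun G _ d => forall_gens d fun m => ∀ κ,
      ∀ b i j k : Fin 5, b ≠ i → b ≠ j → b ≠ k → i ≠ j → i ≠ k → j ≠ k →
      cj (d.u κ b) m = zp (cj (d.u κ i) m) (lag p b i j k) *
        zp (cj (d.u κ j) m) (lag p b j i k) * zp (cj (d.u κ k) m) (lag p b k i j)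
    exact eqDef_forall fun κ => eqDef_forall fun b => eqDef_forall fun i => eqDef_forall fun j =>
      eqDef_forall fun k => eqDef_imp _ <| eqDef_imp _ <| eqDef_imp _ <| eqDef_imp _ <|
      eqDef_imp _ <| eqDef_imp _ <| eqDef_eq (nat_cj (nat_u κ b) (nat_gen x))
        (nat_mul (nat_mul (nat_zp (nat_cj (nat_u κ i) (nat_gen x)) _)
          (nat_zp (nat_cj (nat_u κ j) (nat_gen x)) _))
          (nat_zp (nat_cj (nat_u κ k) (nat_gen x)) _))
  have h6 : EqDef (p := p) (l := l) (t := t) (fun _ _ d => ∀ m ∈ d.gens, ∀ m' ∈ d.gens,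
      ∀ ε : Bool → Fin 5 → SignType,
      Commute m (cj (UU d.u (fun κ j => ((ε κ j : SignType) : ℤ))) m')) := by
    refine eqDef_congr (eqDef_forall fun x => ?_) fun G _ d => forall_gens d fun m =>
      ∀ m' ∈ d.gens, ∀ ε : Bool → Fin 5 → SignType,
      Commute m (cj (UU d.u (fun κ j => ((ε κ j : SignType) : ℤ))) m')
    refine eqDef_congr (eqDef_forall fun y => ?_) fun G _ d => forall_gens d fun m' =>
      ∀ ε : Bool → Fin 5 → SignType,
      Commute (genEl d x) (cj (UU d.u (fun κ j => ((ε κ j : SignType) : ℤ))) m')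
    exact eqDef_forall fun ε => eqDef_commute (nat_gen x) (nat_cj (nat_UU _) (nat_gen y))
  have h7 : EqDef (p := p) (l := l) (t := t) (fun _ _ d => ∀ κ i f g,
      d.D κ i (f + g) = d.D κ i f * d.D κ i g) :=
    eqDef_forall fun κ => eqDef_forall fun i => eqDef_forall fun f => eqDef_forall fun g =>
      eqDef_eq (nat_D κ i _) (nat_mul (nat_D κ i f) (nat_D κ i g))
  have h8 : EqDef (p := p) (l := l) (t := t) (fun _ _ d => ∀ i (f : ZMod p → ZMod l),
      d.D true i (fun s => f s.1) = d.D false i (fun s => f s.1)) :=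
    eqDef_forall fun i => eqDef_forall fun f => eqDef_eq (nat_D true i _) (nat_D false i _)
  have h9 : EqDef (p := p) (l := l) (t := t) (fun _ _ d => ∀ κ i (w : ZMod l),
      d.D κ i (fun _ => w) = d.c ^ w.val) :=
    eqDef_forall fun κ => eqDef_forall fun i => eqDef_forall fun w =>
      eqDef_eq (nat_D κ i _) (nat_pow nat_c _)
  have h10 : EqDef (p := p) (l := l) (t := t) (fun _ _ d => d.c ^ l = 1) :=
    eqDef_eq (nat_pow nat_c l) nat_one
  have h11 : EqDef (p := p) (l := l) (t := t) (fun _ _ d => ∀ κ j, Commute (d.u κ j) d.c) :=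
    eqDef_forall fun κ => eqDef_forall fun j => eqDef_commute (nat_u κ j) nat_c
  have h12 : EqDef (p := p) (l := l) (t := t) (fun _ _ d => ∀ κ i f,
      cj (d.a i) (d.D κ i f) = d.D κ i (fun s => chi ζ s.1 * f s)) :=
    eqDef_forall fun κ => eqDef_forall fun i => eqDef_forall fun f =>
      eqDef_eq (nat_cj (nat_a i) (nat_D κ i f)) (nat_D κ i _)
  have h13 : EqDef (p := p) (l := l) (t := t) (fun _ _ d => ∀ κ i f,
      cj (xop d.u κ (d.a i)) (d.D κ i f) = d.D κ i (fun s => chi ζ s.2 * f s)) :=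
    eqDef_forall fun κ => eqDef_forall fun i => eqDef_forall fun f =>
      eqDef_eq (nat_cj (nat_xop (nat_a i) κ) (nat_D κ i f)) (nat_D κ i _)
  have h14 : EqDef (p := p) (l := l) (t := t) (fun _ _ d => ∀ κ i (j : Fin 5)
      (f : ZMod p → ZMod l),
      cj (d.u κ j) (d.D κ i (fun s => f s.1)) = d.D κ i (fun s => f (s.1 + nd p j * s.2))) :=
    eqDef_forall fun κ => eqDef_forall fun i => eqDef_forall fun j => eqDef_forall fun f =>
      eqDef_eq (nat_cj (nat_u κ j) (nat_D κ i _)) (nat_D κ i _)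
  have h15 : EqDef (p := p) (l := l) (t := t) (fun _ _ d => ∀ α β i k (s : ZMod p) (w : ZMod l),
      cj (d.e α β i k) (d.D1 i (Pi.single s w)) =
        cj (zp (ax d.u (d.a k) α β) s) (d.D1 i (Pi.single s w))) :=
    eqDef_forall fun α => eqDef_forall fun β => eqDef_forall fun i => eqDef_forall fun k =>
      eqDef_forall fun s => eqDef_forall fun w =>
      eqDef_eq (nat_cj (nat_e α β i k) (nat_D false i _))
        (nat_cj (nat_zp (nat_ax (nat_a k) α β) s) (nat_D false i _))
  have hall := eqDef_and h1 (eqDef_and h2 (eqDef_and h3 (eqDef_and h4 (eqDef_and h5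
    (eqDef_and h6 (eqDef_and h7 (eqDef_and h8 (eqDef_and h9 (eqDef_and h10 (eqDef_and h11
    (eqDef_and h12 (eqDef_and h13 (eqDef_and h14 h15)))))))))))))
  refine eqDef_congr hall fun G _ d => ?_
  constructor
  · intro R
    exact ⟨R.u_zero, R.u_comm, R.gen_pow, R.a_lin, R.lagr, R.tame, R.D_add, R.D_coarse, R.D_const,
      R.c_pow, R.u_c, R.a_D, R.x_D, R.line, R.e_D⟩
  · rintro ⟨g1, g2, g3, g4, g5, g6, g7, g8, g9, g10, g11, g12, g13, g14, g15⟩
    exact ⟨g1, g2, g3, g4, g5, g6, g7, g8, g9, g10, g11, g12, g13, g14, g15⟩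

end Pool.Agent.MG
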