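import Pool.Agent.MG.Iface
import Pool.Agent.MB.Iface

/-!
MG FPex: conversion of the symbolic interface (`Win`, `Legal`, `Extra` of Pool/Agent/MB/Iface.lean, landed on origin/main) to forbidden patterns.

PROOF of `fp_exists`.  `Rel2 p w` is literally `IsPt w` (unfold `Rel2`, `Rel`, `e`, `ee`).  For every map `g : S.W → (Fin t → ZMod p)` not in `S.G` (finitely many maps) take the list of the conditions
`(a, [g a])`, `a ∈ S.W` (`Finset.toList`, `Finset.attach`).  It is avoided at `ν = (n, m)` iff the pattern of `w` at `(n, m)` is not `g`.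
PROOF of `extra_exists`.  `B i` = list of the elements of the finite set `S.B i` (`Set.toFinite`, `Finset.toList`).  `mem_LL`.
-/

set_option autoImplicit false

namespace Pool.Agent.MG

theorem FPex_isPt {p : ℕ} [Fact p.Prime] {t : ℕ} (w : E4 → E4 → (Fin t → ZMod p)) :
    Pool.Agent.MB.Rel2 p w ↔ IsPt w := by
  constructor
  · intro h
    exact ⟨fun n m j => h.1 m n j, fun n m j => h.2 n m j⟩
  · intro h
    exact ⟨fun m n j => h.relx n m j, fun n m j => h.rely n m j⟩

/-- avoiding a pattern, contrapositive form -/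
theorem FPex_avoids {p t : ℕ} (w : E4 → E4 → (Fin t → ZMod p)) (L : List (Cond p t)) :
    Avoids w L ↔ ∀ ν : Pos, ¬ ∀ c ∈ L, Sat w ν c := by
  unfold Avoids
  constructor
  · intro h ν h1
    obtain ⟨c, hc, hc'⟩ := h ν
    exact hc' (h1 c hc)
  · intro h ν
    by_contra hcon
    apply h ν
    intro c hc
    by_contra hc'
    exact hcon ⟨c, hc, hc'⟩

theorem fp_exists {p : ℕ} [Fact p.Prime] {t : ℕ} (S : Pool.Agent.MB.Win p t) :
    ∃ FP : List (List (Cond p t)), (∀ L ∈ FP, ∀ c ∈ L, c.2.Nodup) ∧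
      ∀ w : E4 → E4 → (Fin t → ZMod p), S.Legal w ↔ IsPt w ∧ ∀ L ∈ FP, Avoids w L := by
  classical
  have hp : p.Prime := Fact.out
  have hne : NeZero p := ⟨hp.ne_zero⟩
  obtain ⟨pat, hpat⟩ : ∃ pat : (S.W → (Fin t → ZMod p)) → List (Cond p t),
      ∀ g c, c ∈ pat g ↔ ∃ a : S.W, c = ((a : Pos), [g a]) := by
    refine ⟨fun g => S.W.attach.toList.map (fun a : S.W => (((a : Pos), [g a]) : Cond p t)), ?_⟩
    intro g c
    rw [List.mem_map]
    constructor
    · rintro ⟨a, -, rfl⟩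
      exact ⟨a, rfl⟩
    · rintro ⟨a, rfl⟩
      exact ⟨a, by rw [Finset.mem_toList]; exact Finset.mem_attach _ _, rfl⟩
  have hfin : (S.Gᶜ).Finite := Set.toFinite _
  refine ⟨hfin.toFinset.toList.map pat, ?_, ?_⟩
  · intro L hL c hc
    rw [List.mem_map] at hL
    obtain ⟨g, -, rfl⟩ := hL
    obtain ⟨a, rfl⟩ := (hpat g c).1 hc
    exact List.nodup_singleton _
  · intro w
    have hL : ∀ L, L ∈ hfin.toFinset.toList.map pat ↔ ∃ g, g ∉ S.G ∧ pat g = L := by
      intro L
      rw [List.mem_map]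
      constructor
      · rintro ⟨g, hg, rfl⟩
        rw [Finset.mem_toList, Set.Finite.mem_toFinset] at hg
        exact ⟨g, hg, rfl⟩
      · rintro ⟨g, hg, rfl⟩
        refine ⟨g, ?_, rfl⟩
        rw [Finset.mem_toList, Set.Finite.mem_toFinset]
        exact hg
    unfold Pool.Agent.MB.Win.Legal
    rw [FPex_isPt]
    refine and_congr_right fun _ => ?_
    constructor
    · intro h L hL'
      obtain ⟨g, hg, rfl⟩ := (hL L).1 hL'
      rw [FPex_avoids]
      intro ν h1
      apply hg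
      have h2 := h ν.1 ν.2
      have h3 : (fun a : S.W => w (ν.1 + (a : Pool.Agent.MB.E × Pool.Agent.MB.E).1)
          (ν.2 + (a : Pool.Agent.MB.E × Pool.Agent.MB.E).2)) = g := by
        funext a
        have h4 := h1 _ ((hpat g _).2 ⟨a, rfl⟩)
        exact List.mem_singleton.1 h4
      rw [h3] at h2
      exact h2
    · intro h n m
      by_contra hcon
      have h1 := h _ ((hL _).2 ⟨_, hcon, rfl⟩)
      rw [FPex_avoids] at h1
      apply h1 (n, m)
      intro c hc
      obtain ⟨a, rfl⟩ := (hpat _ c).1 hc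
      exact List.mem_singleton.2 rfl

theorem extra_exists {p : ℕ} [Fact p.Prime] {t : ℕ} (S : Pool.Agent.MB.Win p t) :
    ∃ B : Fin 4 → List (Fin t → ZMod p), (∀ i, (B i).Nodup) ∧
      ∀ (k : ℕ) (w : E4 → E4 → (Fin t → ZMod p)), S.Extra k w ↔ Avoids w (LE B k) := by
  classical
  have hp : p.Prime := Fact.out
  have hne : NeZero p := ⟨hp.ne_zero⟩
  have hfin : ∀ i, (S.B i).Finite := fun i => Set.toFinite _
  obtain ⟨B, hB, hnd⟩ : ∃ B : Fin 4 → List (Fin t → ZMod p), (∀ i v, v ∈ B i ↔ v ∈ S.B i) ∧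
      ∀ i, (B i).Nodup := by
    refine ⟨fun i => (hfin i).toFinset.toList, ?_, fun i => Finset.nodup_toList _⟩
    intro i v
    rw [Finset.mem_toList, Set.Finite.mem_toFinset]
  refine ⟨B, hnd, ?_⟩
  intro k w
  rw [FPex_avoids]
  have key : ∀ ν : Pos, (∀ c ∈ LE B k, Sat w ν c) ↔
      (w ν.1 ν.2 ∈ S.B 0 ∧ (∀ i ≤ k, w (ν.1 + ((p : ℤ) ^ i) • ee 0) ν.2 ∈ S.B 1) ∧
        w ν.1 (ν.2 + ee 0) ∈ S.B 2 ∧
        w (ν.1 + ((p : ℤ) ^ k) • ee 0) (ν.2 + ee 0) ∈ S.B 3) := by
    intro ν
    have hmem : ∀ c, c ∈ LE B k ↔ c = ((((p : ℤ) ^ k) • ee 0, ee 0), B 3) ∨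
        c = (0, B 0) ∨ c = ((0, ee 0), B 2) ∨
        ∃ j < k + 1, c = ((((p : ℤ) ^ j) • ee 0, 0), B 1) := by
      intro c
      unfold LE
      rw [List.mem_cons, mem_LL]
    constructor
    · intro h
      refine ⟨?_, ?_, ?_, ?_⟩
      · have h1 := h _ ((hmem _).2 (Or.inr (Or.inl rfl)))
        unfold Sat at h1
        rw [← hB]
        simpa using h1
      · intro i hi
        have h1 := h _ ((hmem _).2 (Or.inr (Or.inr (Or.inr ⟨i, Nat.lt_succ_of_le hi, rfl⟩))))
        unfold Sat at h1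
        rw [← hB]
        simpa using h1
      · have h1 := h _ ((hmem _).2 (Or.inr (Or.inr (Or.inl rfl))))
        unfold Sat at h1
        rw [← hB]
        simpa using h1
      · have h1 := h _ ((hmem _).2 (Or.inl rfl))
        unfold Sat at h1
        rw [← hB]
        exact h1
    · rintro ⟨h0, h1, h2, h3⟩ c hc
      rw [hmem] at hc
      unfold Sat
      rcases hc with rfl | rfl | rfl | ⟨j, hj, rfl⟩
      · rw [hB]
        exact h3
      · rw [hB]
        simpa using h0
      · rw [hB]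
        simpa using h2
      · rw [hB]
        simpa using h1 j (Nat.le_of_lt_succ hj)
  constructor
  · intro h ν h1
    exact h ν.1 ν.2 ((key ν).1 h1)
  · intro h n m h1
    exact h (n, m) ((key (n, m)).2 h1)

end Pool.Agent.MG
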