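import Pool.Agent.MG.Fine
import Pool.Agent.MG.Pat

/-!
MG Model: a point `w` gives a group satisfying all relations.

PROOF (compare the proved one-variable file /team-store/h9_NL_Model.lean).  Let `B = ZMod l ⋊ (ZMod l)ˣ` (any convenient form, e.g. permutations `x ↦ r x + b` of `ZMod l`, or
`Multiplicative (ZMod l) ⋊ (ZMod l)ˣ`, or 2×2 matrices); `τ b` the translation by `b : ZMod l`, `σ r` the scaling by the unit `r` (`ζ` is a unit).  `M = (Pos → B) ⋊ Multiplicative Pos`, `Pos` acting by translation: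
`(ν f)(q) = f (q + ν)`.  Put `y_i(q) = w q.1 q.2 i`, and for the variable `κ`: `y_i(κ q) := y_i(q + e_κ) - y_i(q)` where `e_false = (ee 0, 0)`, `e_true = (0, ee 0)`;
`y_i(xy q) := y_i(q + e_x + e_y) - y_i(q + e_x) - y_i(q + e_y) + y_i(q)`.
* `u κ 0 = 1`, `u κ (j+1) = inr (ee j in the variable κ)`;
* `a i = inl (q ↦ σ (ζ ^ y_i(q)))`; `e α β i k = inl (q ↦ σ (ζ ^ (y_i(q) * y_k(x^α y^β q))))`; `c = inl (q ↦ τ 1)`; `D κ i f = inl (q ↦ τ (f (y_i(q), y_i(κ q))))`.
All relations of `GRel` are pointwise identities: conjugation by `u κ j` is translation, `y_i(u_{κ,j} q) = y_i(q) + nd j * y_i(κ q)` by `IsPt` (also for the second differences).  `lagr`: interpolation of the linear function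
`j ↦ y_i(u_j q)` resp. the quadratic function `j ↦ y_i(u_j q) y_k(κ' u_j q)` at the nodes `nd p i, nd p j, nd p k` (distinct in `ZMod p`, `p ≥ 5`).
* `eps ζ (aq q i) v` maps `inl (x ↦ τ (f x))` to `inl (x ↦ τ (if y_i (x + q) = v then p * f x else 0))` (`Par.geom`); so if `w` avoids `L` (lists without duplicates) then `patEl L = 1`
  (`patEl L = inl (x ↦ τ (F x))` with `F x = 0` as soon as one condition of `L` fails at `x`).
* non-metabelian: for `ν, i` with `y_i(ν + (ee 0, 0)) ≠ y_i(ν)`: `b = ⁅u false 1, a i⁆ = inl (q ↦ σ (ζ^(y_i(x q))))`, and `⁅b, ⁅b, c⁆⁆ = inl (q ↦ τ ((ζ^(y_i(x q)) - 1)^2))` is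
  non-trivial at `ν`.
-/

set_option autoImplicit false

namespace Pool.Agent.MG

open scoped commutatorElement

noncomputable section

/-- translation of functions on positions -/
def Model_act (Γ : Type) [Group Γ] : Multiplicative Pos →* MulAut (Pos → Γ) where
  toFun ν :=
    { toFun := fun f q => f (q + ν.toAdd)
      invFun := fun f q => f (q - ν.toAdd)
      left_inv := by
        intro f
        funext q
        show f (q - ν.toAdd + ν.toAdd) = f q
        rw [sub_add_cancel]
      right_inv := by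
        intro f
        funext q
        show f (q + ν.toAdd - ν.toAdd) = f q
        rw [add_sub_cancel_right]
      map_mul' := fun _ _ => rfl }
  map_one' := by
    apply MulEquiv.ext
    intro f
    funext q
    show f (q + 0) = f q
    rw [add_zero]
  map_mul' ν μ := by
    apply MulEquiv.ext
    intro f
    funext q
    show f (q + (ν.toAdd + μ.toAdd)) = f (q + ν.toAdd + μ.toAdd)
    rw [add_assoc]

/-- the model group -/
abbrev Model_M (Γ : Type) [Group Γ] : Type := (Pos → Γ) ⋊[Model_act Γ] Multiplicative Pos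

section
variable {Γ : Type} [Group Γ]

/-- the copy of functions in the model -/
def Model_inl (f : Pos → Γ) : Model_M Γ := SemidirectProduct.inl f

/-- the copy of the positions in the model -/
def Model_inr (ν : Pos) : Model_M Γ := SemidirectProduct.inr (Multiplicative.ofAdd ν)

theorem Model_inr_add (ν μ : Pos) :
    (Model_inr (ν + μ) : Model_M Γ) = Model_inr ν * Model_inr μ := by
  unfold Model_inr
  rw [← map_mul, ofAdd_add]

theorem Model_inr_zero : (Model_inr 0 : Model_M Γ) = 1 := by
  unfold Model_inr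
  rw [ofAdd_zero, map_one]

theorem Model_inr_zpow (ν : Pos) (n : ℤ) :
    (Model_inr ν : Model_M Γ) ^ n = Model_inr (n • ν) := by
  unfold Model_inr
  rw [← map_zpow, ofAdd_zsmul]

theorem Model_inr_commute (ν μ : Pos) :
    Commute (Model_inr ν : Model_M Γ) (Model_inr μ) := by
  unfold Commute SemiconjBy
  rw [← Model_inr_add, ← Model_inr_add, add_comm]

theorem Model_cj (ν : Pos) (f : Pos → Γ) :
    cj (Model_inr ν : Model_M Γ) (Model_inl f) = Model_inl (fun q => f (q + ν)) := by
  unfold cj Model_inr Model_inl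
  have h := SemidirectProduct.inl_aut (φ := Model_act Γ) (Multiplicative.ofAdd ν) f
  rw [map_inv] at h
  rw [← h]
  rfl

theorem Model_inl_mul (f g : Pos → Γ) :
    (Model_inl f : Model_M Γ) * Model_inl g = Model_inl (fun q => f q * g q) := by
  unfold Model_inl
  rw [← map_mul]
  rfl

theorem Model_inl_inv (f : Pos → Γ) :
    (Model_inl f : Model_M Γ)⁻¹ = Model_inl (fun q => (f q)⁻¹) := by
  unfold Model_inl
  rw [← map_inv]
  rfl

theorem Model_inl_one : (Model_inl (fun _ => 1) : Model_M Γ) = 1 := by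
  unfold Model_inl
  exact map_one _

theorem Model_inl_cj (f g : Pos → Γ) :
    cj (Model_inl f : Model_M Γ) (Model_inl g) = Model_inl (fun q => cj (f q) (g q)) := by
  unfold cj
  rw [Model_inl_mul, Model_inl_inv, Model_inl_mul]

theorem Model_inl_inj {f g : Pos → Γ} (h : (Model_inl f : Model_M Γ) = Model_inl g) : f = g :=
  SemidirectProduct.inl_injective h

variable {p : ℕ}

/-- powers of `c` -/
def Model_Z (c : Γ) (s : Pos → ZMod p) : Model_M Γ := Model_inl (fun q => zp c (s q))

variable [NeZero p]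

theorem Model_Z_mul {c : Γ} (hc : c ^ p = 1) (s t : Pos → ZMod p) :
    Model_Z c s * Model_Z c t = Model_Z c (fun y => s y + t y) := by
  unfold Model_Z
  rw [Model_inl_mul]
  congr 1
  funext y
  rw [zp_add hc]

theorem Model_Z_inv {c : Γ} (hc : c ^ p = 1) (s : Pos → ZMod p) :
    (Model_Z c s)⁻¹ = Model_Z c (fun y => - s y) := by
  unfold Model_Z
  rw [Model_inl_inv]
  congr 1
  funext y
  rw [zp_neg hc]

omit [NeZero p] in
theorem Model_Z_zero (c : Γ) : Model_Z c (fun _ => (0 : ZMod p)) = 1 := by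
  unfold Model_Z
  simp only [zp_zero]
  exact Model_inl_one

omit [NeZero p] in
theorem Model_Z_cj (c : Γ) (ν : Pos) (s : Pos → ZMod p) :
    cj (Model_inr ν) (Model_Z c s) = Model_Z c (fun y => s (y + ν)) := by
  unfold Model_Z
  rw [Model_cj]

theorem Model_Z_commute {c : Γ} (hc : c ^ p = 1) (s t : Pos → ZMod p) :
    Commute (Model_Z c s) (Model_Z c t) := by
  unfold Commute SemiconjBy
  rw [Model_Z_mul hc, Model_Z_mul hc]
  congr 1
  funext y
  rw [add_comm]

theorem Model_Z_pow {c : Γ} (hc : c ^ p = 1) (s : Pos → ZMod p) (n : ℕ) :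
    (Model_Z c s) ^ n = Model_Z c (fun y => s y * (n : ZMod p)) := by
  induction n with
  | zero =>
    rw [pow_zero]
    simp only [Nat.cast_zero, mul_zero]
    rw [Model_Z_zero]
  | succ n ih =>
    rw [pow_succ, ih, Model_Z_mul hc]
    congr 1
    funext y
    push_cast
    ring

theorem Model_Z_zp {c : Γ} (hc : c ^ p = 1) (s : Pos → ZMod p) (t : ZMod p) :
    zp (Model_Z c s) t = Model_Z c (fun y => s y * t) := by
  unfold zp
  rw [Model_Z_pow hc]
  congr 1
  funext y
  rw [ZMod.natCast_zmod_val]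

end

section tau
variable {l : ℕ}

/-- the group of permutations of `ZMod l` -/
abbrev Model_B (l : ℕ) : Type := Equiv.Perm (ZMod l)

/-- translations -/
def Model_tau (b : ZMod l) : Model_B l := Equiv.addLeft b

theorem Model_tau_apply (b x : ZMod l) : Model_tau b x = b + x := rfl

theorem Model_tau_mul (b b' : ZMod l) : Model_tau b * Model_tau b' = Model_tau (b + b') := by
  ext1 x
  rw [Equiv.Perm.mul_apply, Model_tau_apply, Model_tau_apply, Model_tau_apply, add_assoc]

theorem Model_tau_zero : Model_tau (0 : ZMod l) = 1 := by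
  ext1 x
  rw [Model_tau_apply, zero_add, Equiv.Perm.one_apply]

theorem Model_tau_inv (b : ZMod l) : (Model_tau b)⁻¹ = Model_tau (-b) := by
  rw [inv_eq_iff_mul_eq_one, Model_tau_mul, add_neg_cancel, Model_tau_zero]

theorem Model_tau_eq_one {b : ZMod l} (h : Model_tau b = 1) : b = 0 := by
  have := congrArg (fun e : Model_B l => e 0) h
  simpa [Model_tau_apply] using this

/-- functions with values in the translations -/
def Model_T (f : Pos → ZMod l) : Model_M (Model_B l) := Model_inl (fun q => Model_tau (f q))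

theorem Model_T_mul (f g : Pos → ZMod l) :
    Model_T f * Model_T g = Model_T (fun q => f q + g q) := by
  unfold Model_T
  rw [Model_inl_mul]
  simp only [Model_tau_mul]

theorem Model_T_zero : Model_T (fun _ => (0 : ZMod l)) = 1 := by
  unfold Model_T
  simp only [Model_tau_zero]
  exact Model_inl_one

theorem Model_T_inv (f : Pos → ZMod l) : (Model_T f)⁻¹ = Model_T (fun q => - f q) := by
  unfold Model_T
  rw [Model_inl_inv]
  simp only [Model_tau_inv]

theorem Model_T_pow (f : Pos → ZMod l) (n : ℕ) :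
    (Model_T f) ^ n = Model_T (fun q => (n : ZMod l) * f q) := by
  induction n with
  | zero =>
    rw [pow_zero]
    simp only [Nat.cast_zero, zero_mul]
    rw [Model_T_zero]
  | succ n ih =>
    rw [pow_succ, ih, Model_T_mul]
    congr 1
    funext q
    push_cast
    ring

theorem Model_T_eq_one {f : Pos → ZMod l} (h : Model_T f = 1) (q : Pos) : f q = 0 := by
  have h1 : Model_inl (fun q => Model_tau (f q)) = Model_inl (fun _ => (1 : Model_B l)) := by
    rw [Model_inl_one]
    exact h
  exact Model_tau_eq_one (congrFun (Model_inl_inj h1) q)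

theorem Model_T_cj (ν : Pos) (f : Pos → ZMod l) :
    cj (Model_inr ν) (Model_T f) = Model_T (fun q => f (q + ν)) := by
  unfold Model_T
  rw [Model_cj]

/-- multiplication by the unit `z` -/
def Model_sig (z : (ZMod l)ˣ) : Model_B l := Units.mulLeft z

theorem Model_sig_pow (z : (ZMod l)ˣ) (n : ℕ) (x : ZMod l) :
    (Model_sig z ^ n) x = (z : ZMod l) ^ n * x := by
  induction n with
  | zero => simp
  | succ n ih =>
    rw [pow_succ', Equiv.Perm.mul_apply, ih, pow_succ', mul_assoc]
    rfl

theorem Model_sig_pow_p {p : ℕ} (z : (ZMod l)ˣ) (hz : (z : ZMod l) ^ p = 1) :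
    Model_sig z ^ p = 1 := by
  ext1 x
  rw [Model_sig_pow, hz, one_mul, Equiv.Perm.one_apply]

theorem Model_sig_cj (z : (ZMod l)ˣ) (n : ℕ) (b : ZMod l) :
    cj (Model_sig z ^ n) (Model_tau b) = Model_tau ((z : ZMod l) ^ n * b) := by
  unfold cj
  rw [mul_inv_eq_iff_eq_mul]
  ext1 x
  rw [Equiv.Perm.mul_apply, Equiv.Perm.mul_apply, Model_tau_apply, Model_tau_apply,
    Model_sig_pow, Model_sig_pow, mul_add]

theorem Model_Z_T {p : ℕ} (z : (ZMod l)ˣ) (s : Pos → ZMod p) (f : Pos → ZMod l) :
    cj (Model_Z (Model_sig z) s) (Model_T f) =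
      Model_T (fun q => chi (z : ZMod l) (s q) * f q) := by
  unfold Model_Z Model_T
  rw [Model_inl_cj]
  congr 1
  funext q
  unfold zp chi
  exact Model_sig_cj z _ _

end tau

section nodes

/-- the shift vectors of one variable -/
def Model_vE : Fin 5 → E4 := Fin.cases 0 ee

/-- the shift vectors -/
def Model_v (κ : Bool) (j : Fin 5) : Pos := if κ then (0, Model_vE j) else (Model_vE j, 0)

theorem Model_v_zero (κ : Bool) : Model_v κ 0 = 0 := by
  cases κ <;> rfl

variable {p : ℕ}

/-- the difference operator -/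
def Model_d (κ : Bool) (s : Pos → ZMod p) : Pos → ZMod p :=
  fun q => s (q + Model_v κ 1) - s q

/-- the iterated difference operators -/
def Model_dd (s : Pos → ZMod p) : Bool → Bool → Pos → ZMod p
  | false, false => s
  | true, false => Model_d false s
  | false, true => Model_d true s
  | true, true => Model_d false (Model_d true s)

/-- linearity in the variable `κ` -/
def Model_Lin (κ : Bool) (s : Pos → ZMod p) : Prop :=
  ∀ q j, s (q + Model_v κ j) = s q + nd p j * Model_d κ s q

theorem Model_Lin_d {κ : Bool} {s : Pos → ZMod p} (h : Model_Lin κ s) (κ' : Bool) :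
    Model_Lin κ (Model_d κ' s) := by
  intro q j
  have h1 := h (q + Model_v κ' 1) j
  have h2 := h q j
  unfold Model_d at h1 h2 ⊢
  rw [add_right_comm q (Model_v κ j), add_right_comm q (Model_v κ 1)]
  rw [h1, h2]
  ring

theorem Model_Lin_dd {κ : Bool} {s : Pos → ZMod p} (h : Model_Lin κ s) (α β : Bool) :
    Model_Lin κ (Model_dd s α β) := by
  cases α <;> cases β
  · exact h
  · exact Model_Lin_d h _
  · exact Model_Lin_d h _
  · exact Model_Lin_d (Model_Lin_d h _) _

theorem Model_nd_ne (h5 : 5 ≤ p) {i j : Fin 5} (h : i ≠ j) : nd p i ≠ nd p j := by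
  intro h1
  unfold nd at h1
  have hi := i.isLt
  have hj := j.isLt
  have h2 := congrArg ZMod.val h1
  rw [ZMod.val_natCast, ZMod.val_natCast, Nat.mod_eq_of_lt (by omega),
    Nat.mod_eq_of_lt (by omega)] at h2
  exact h (Fin.ext h2)

theorem Model_lag (hp : p.Prime) (h5 : 5 ≤ p) (b i j k : Fin 5) (h1 : i ≠ j) (h2 : i ≠ k)
    (h3 : j ≠ k) (A B C : ZMod p) :
    A + nd p b * B + nd p b ^ 2 * C =
      (A + nd p i * B + nd p i ^ 2 * C) * lag p b i j k +
      (A + nd p j * B + nd p j ^ 2 * C) * lag p b j i k +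
      (A + nd p k * B + nd p k ^ 2 * C) * lag p b k i j := by
  have : Fact p.Prime := ⟨hp⟩
  have e1 := sub_ne_zero.2 (Model_nd_ne h5 h1)
  have e2 := sub_ne_zero.2 (Model_nd_ne h5 h2)
  have e3 := sub_ne_zero.2 (Model_nd_ne h5 h3)
  have e4 := sub_ne_zero.2 (Model_nd_ne h5 h1.symm)
  have e5 := sub_ne_zero.2 (Model_nd_ne h5 h2.symm)
  have e6 := sub_ne_zero.2 (Model_nd_ne h5 h3.symm)
  unfold lag
  generalize nd p b = b at *
  generalize nd p i = i at *
  generalize nd p j = j at *
  generalize nd p k = k at *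
  have g1 : j - i = -(i - j) := by ring
  have g2 : k - i = -(i - k) := by ring
  have g3 : k - j = -(j - k) := by ring
  rw [g1, g2, g3]
  field_simp
  ring

end nodes

section model

variable {p l t : ℕ} (w : E4 → E4 → (Fin t → ZMod p)) (z : (ZMod l)ˣ)

/-- the track values -/
def Model_y (i : Fin t) : Pos → ZMod p := fun q => w q.1 q.2 i

/-- the data -/
def Model_data : GData p l (Fin t) (Model_M (Model_B l)) where
  u κ j := Model_inr (Model_v κ j)
  a i := Model_Z (Model_sig z) (Model_y w i)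
  e α β i k := Model_Z (Model_sig z) (fun q => Model_y w i q * Model_dd (Model_y w k) α β q)
  D κ i f := Model_T (fun q => f (Model_y w i q, Model_d κ (Model_y w i) q))
  c := Model_T (fun _ => 1)

theorem Model_Lin_y {w : E4 → E4 → (Fin t → ZMod p)} (hw : IsPt w) (κ : Bool) (i : Fin t) :
    Model_Lin κ (Model_y w i) := by
  intro q j
  refine Fin.cases ?_ (fun j => ?_) j
  · rw [Model_v_zero, add_zero]
    have : nd p 0 = 0 := by simp [nd]
    rw [this, zero_mul, add_zero]
  · have hn : nd p j.succ = (((j : ℕ) + 1 : ℕ) : ZMod p) := rfl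
    cases κ
    · have h := congrFun (hw.relx q.1 q.2 j) i
      rw [Pi.sub_apply, Pi.smul_apply, Pi.smul_apply, smul_eq_mul, smul_eq_mul] at h
      have e1 : Model_y w i (q + Model_v false j.succ) = w (q.1 + ee j) q.2 i := by
        show w (q.1 + ee j) (q.2 + 0) i = _
        rw [add_zero]
      have e2 : Model_d false (Model_y w i) q = w (q.1 + ee 0) q.2 i - w q.1 q.2 i := by
        show w (q.1 + ee 0) (q.2 + 0) i - w q.1 q.2 i = _
        rw [add_zero]
      rw [e1, e2, h, hn]
      show _ = w q.1 q.2 i + _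
      push_cast
      ring
    · have h := congrFun (hw.rely q.1 q.2 j) i
      rw [Pi.sub_apply, Pi.smul_apply, Pi.smul_apply, smul_eq_mul, smul_eq_mul] at h
      have e1 : Model_y w i (q + Model_v true j.succ) = w q.1 (q.2 + ee j) i := by
        show w (q.1 + 0) (q.2 + ee j) i = _
        rw [add_zero]
      have e2 : Model_d true (Model_y w i) q = w q.1 (q.2 + ee 0) i - w q.1 q.2 i := by
        show w (q.1 + 0) (q.2 + ee 0) i - w q.1 q.2 i = _
        rw [add_zero]
      rw [e1, e2, h, hn]
      show _ = w q.1 q.2 i + _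
      push_cast
      ring

theorem Model_chi_add [NeZero p] {ζ : ZMod l} (hζ : ζ ^ p = 1) (a b : ZMod p) :
    chi ζ (a + b) = chi ζ a * chi ζ b := zp_add hζ a b

theorem Model_chi_eq_one {ζ : ZMod l} (hp : Par p l ζ) {s : ZMod p} (h : chi ζ s = 1) :
    s = 0 := by
  have h1 : Fact p.Prime := ⟨hp.p_prime⟩
  have h2 := orderOf_eq_prime hp.pow hp.ne_one
  have h3 : p ∣ s.val := by
    have := orderOf_dvd_of_pow_eq_one (h : ζ ^ s.val = 1)
    rwa [h2] at this
  have h4 := Nat.eq_zero_of_dvd_of_lt h3 (ZMod.val_lt s)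
  exact (ZMod.val_eq_zero s).1 h4

section rel

variable [NeZero p] {z}

theorem Model_xop (hz : (z : ZMod l) ^ p = 1) (κ : Bool) (s : Pos → ZMod p) :
    xop (Model_data w z).u κ (Model_Z (Model_sig z) s) =
      Model_Z (Model_sig z) (Model_d κ s) := by
  have hc := Model_sig_pow_p z hz
  unfold xop
  show cj (Model_inr (Model_v κ 1)) _ * _ = _
  rw [Model_Z_cj, Model_Z_inv hc, Model_Z_mul hc]
  congr 1
  funext y
  unfold Model_d
  ring

theorem Model_ax (hz : (z : ZMod l) ^ p = 1) (s : Pos → ZMod p) (α β : Bool) :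
    ax (Model_data w z).u (Model_Z (Model_sig z) s) α β =
      Model_Z (Model_sig z) (Model_dd s α β) := by
  cases α <;> cases β
  · rfl
  · exact Model_xop w hz _ _
  · exact Model_xop w hz _ _
  · show xop _ false (xop _ true _) = _
    rw [Model_xop w hz, Model_xop w hz]
    rfl

theorem Model_quad {w : E4 → E4 → (Fin t → ZMod p)} (hw : IsPt w)
    {m : Model_M (Model_B l)} (hm : m ∈ (Model_data w z).gens) (κ : Bool) :
    ∃ s A B C : Pos → ZMod p, m = Model_Z (Model_sig z) s ∧
      ∀ q j, s (q + Model_v κ j) = A q + nd p j * B q + nd p j ^ 2 * C q := by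
  rcases hm with ⟨i, rfl⟩ | ⟨α, β, i, k, rfl⟩
  · refine ⟨Model_y w i, Model_y w i, Model_d κ (Model_y w i), fun _ => 0, rfl, fun q j => ?_⟩
    rw [Model_Lin_y hw κ i q j, mul_zero, add_zero]
  · refine ⟨fun q => Model_y w i q * Model_dd (Model_y w k) α β q,
      fun q => Model_y w i q * Model_dd (Model_y w k) α β q,
      fun q => Model_y w i q * Model_d κ (Model_dd (Model_y w k) α β) q +
        Model_d κ (Model_y w i) q * Model_dd (Model_y w k) α β q,
      fun q => Model_d κ (Model_y w i) q * Model_d κ (Model_dd (Model_y w k) α β) q,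
      rfl, fun q j => ?_⟩
    have h1 := Model_Lin_y hw κ i q j
    have h2 := Model_Lin_dd (Model_Lin_y hw κ k) α β q j
    show Model_y w i (q + Model_v κ j) * Model_dd (Model_y w k) α β (q + Model_v κ j) = _
    rw [h1, h2]
    ring

theorem Model_UU4 (V : Fin 5 → Pos) (n : Fin 5 → ℤ) :
    UU4 (fun j => (Model_inr (V j) : Model_M (Model_B l))) n =
      Model_inr (n 1 • V 1 + n 2 • V 2 + n 3 • V 3 + n 4 • V 4) := by
  unfold UU4
  rw [Model_inr_zpow, Model_inr_zpow, Model_inr_zpow, Model_inr_zpow, ← Model_inr_add,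
    ← Model_inr_add, ← Model_inr_add]

omit [NeZero p] in
theorem Model_UU (n : Ex) : ∃ q, UU (Model_data w z).u n = Model_inr q := by
  have h : UU (Model_data w z).u n = UU4 (fun j => Model_inr (Model_v false j)) (n false) *
      UU4 (fun j => Model_inr (Model_v true j)) (n true) := rfl
  rw [h, Model_UU4, Model_UU4, ← Model_inr_add]
  exact ⟨_, rfl⟩

omit [NeZero p] in
theorem Model_UU_toEx (q : Pos) : UU (Model_data w z).u (toEx q) = Model_inr q := by
  show UU4 (fun j => Model_inr (Model_v false j)) (toEx q false) *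
      UU4 (fun j => Model_inr (Model_v true j)) (toEx q true) = _
  rw [Model_UU4, Model_UU4, ← Model_inr_add]
  congr 1
  show (q.1 0 • (ee 0, 0) + q.1 1 • (ee 1, 0) + q.1 2 • (ee 2, 0) + q.1 3 • (ee 3, 0)) +
    (q.2 0 • (0, ee 0) + q.2 1 • (0, ee 1) + q.2 2 • (0, ee 2) + q.2 3 • (0, ee 3)) = q
  obtain ⟨q1, q2⟩ := q
  apply Prod.ext
  · funext k
    fin_cases k <;> simp [ee]
  · funext k
    fin_cases k <;> simp [ee]

theorem Model_rel {w : E4 → E4 → (Fin t → ZMod p)} (hw : IsPt w) (hp : Par p l (z : ZMod l)) :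
    GRel (z : ZMod l) (Model_data w z) where
  u_zero κ := by
    show Model_inr (Model_v κ 0) = 1
    rw [Model_v_zero, Model_inr_zero]
  u_comm κ j κ' j' := Model_inr_commute _ _
  gen_pow m hm := by
    obtain ⟨s, A, B, C, rfl, -⟩ := Model_quad hw hm false
    rw [Model_Z_pow (Model_sig_pow_p z hp.pow), ZMod.natCast_self]
    simp only [mul_zero]
    exact Model_Z_zero _
  a_lin κ j i := by
    have hc := Model_sig_pow_p z hp.pow
    show cj (Model_inr (Model_v κ j)) (Model_Z (Model_sig z) (Model_y w i)) =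
      Model_Z (Model_sig z) (Model_y w i) *
        xop (Model_data w z).u κ (Model_Z (Model_sig z) (Model_y w i)) ^ (j : ℕ)
    rw [Model_xop w hp.pow, Model_Z_cj, Model_Z_pow hc, Model_Z_mul hc]
    congr 1
    funext q
    rw [Model_Lin_y hw κ i q j]
    unfold nd
    ring
  lagr := by
    intro m hm κ b i j k h1 h2 h3 h4 h5 h6
    obtain ⟨s, A, B, C, rfl, hq⟩ := Model_quad hw hm κ
    have hc := Model_sig_pow_p z hp.pow
    show cj (Model_inr (Model_v κ b)) _ = zp (cj (Model_inr (Model_v κ i)) _) _ *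
      zp (cj (Model_inr (Model_v κ j)) _) _ * zp (cj (Model_inr (Model_v κ k)) _) _
    rw [Model_Z_cj, Model_Z_cj, Model_Z_cj, Model_Z_cj, Model_Z_zp hc, Model_Z_zp hc,
      Model_Z_zp hc, Model_Z_mul hc, Model_Z_mul hc]
    congr 1
    funext q
    rw [hq, hq, hq, hq]
    exact Model_lag hp.p_prime hp.p_ge b i j k h4 h5 h6 _ _ _
  tame := by
    intro m hm m' hm' ε
    obtain ⟨s, -, -, -, rfl, -⟩ := Model_quad hw hm false
    obtain ⟨s', -, -, -, rfl, -⟩ := Model_quad hw hm' false
    obtain ⟨q, hq⟩ := Model_UU w (z := z) (fun κ j => ((ε κ j : SignType) : ℤ))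
    rw [hq, Model_Z_cj]
    exact Model_Z_commute (Model_sig_pow_p z hp.pow) _ _
  D_add κ i f g := by
    show Model_T _ = Model_T _ * Model_T _
    rw [Model_T_mul]
    rfl
  D_coarse i f := rfl
  D_const κ i v := by
    have : NeZero l := ⟨hp.l_prime.ne_zero⟩
    show Model_T (fun _ => v) = Model_T (fun _ => 1) ^ v.val
    rw [Model_T_pow, ZMod.natCast_zmod_val]
    simp only [mul_one]
  c_pow := by
    show Model_T (fun _ => 1) ^ l = 1
    rw [Model_T_pow, ZMod.natCast_self]
    simp only [zero_mul]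
    exact Model_T_zero
  u_c κ j := by
    rw [← cj_eq_self]
    show cj (Model_inr (Model_v κ j)) (Model_T (fun _ => 1)) = Model_T (fun _ => 1)
    rw [Model_T_cj]
  a_D κ i f := by
    show cj (Model_Z (Model_sig z) (Model_y w i)) (Model_T _) = Model_T _
    rw [Model_Z_T]
  x_D κ i f := by
    show cj (xop (Model_data w z).u κ (Model_Z (Model_sig z) (Model_y w i))) (Model_T _) =
      Model_T _
    rw [Model_xop w hp.pow, Model_Z_T]
  line κ i j f := by
    show cj (Model_inr (Model_v κ j)) (Model_T (fun q => f (Model_y w i q))) =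
      Model_T (fun q => f (Model_y w i q + nd p j * Model_d κ (Model_y w i) q))
    rw [Model_T_cj]
    congr 1
    funext q
    rw [Model_Lin_y hw κ i q j]
  e_D α β i k s v := by
    have hc := Model_sig_pow_p z hp.pow
    show cj (Model_Z (Model_sig z) (fun q => Model_y w i q * Model_dd (Model_y w k) α β q))
        (Model_T (fun q => (Pi.single s v : ZMod p → ZMod l) (Model_y w i q))) =
      cj (zp (ax (Model_data w z).u (Model_Z (Model_sig z) (Model_y w k)) α β) s)
        (Model_T (fun q => (Pi.single s v : ZMod p → ZMod l) (Model_y w i q)))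
    rw [Model_ax w hp.pow, Model_Z_zp hc, Model_Z_T, Model_Z_T]
    congr 1
    funext q
    by_cases h : Model_y w i q = s
    · rw [h, mul_comm s]
    · rw [Pi.single_eq_of_ne h, mul_zero, mul_zero]

end rel

section pattern

variable {z}

theorem Model_T_list (L : List ℕ) (F : ℕ → Pos → ZMod l) :
    (L.map fun n => Model_T (F n)).prod = Model_T (fun q => (L.map fun n => F n q).sum) := by
  induction L with
  | nil =>
    simp only [List.map_nil, List.prod_nil, List.sum_nil]
    exact Model_T_zero.symm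
  | cons n L ih =>
    simp only [List.map_cons, List.prod_cons, List.sum_cons]
    rw [ih, Model_T_mul]

theorem Model_sum_range (n : ℕ) (F : ℕ → ZMod l) :
    ((List.range n).map F).sum = ∑ m ∈ Finset.range n, F m := by
  induction n with
  | zero => simp
  | succ n ih =>
    rw [List.range_succ, List.map_append, List.sum_append, ih, Finset.sum_range_succ]
    simp

theorem Model_eps (hp : Par p l (z : ZMod l)) (s : Pos → ZMod p) (v : ZMod p)
    (f : Pos → ZMod l) :
    eps (z : ZMod l) (Model_Z (Model_sig z) s) v (Model_T f) =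
      Model_T (fun q => (if s q = v then (p : ZMod l) else 0) * f q) := by
  have h1 : NeZero l := ⟨hp.l_prime.ne_zero⟩
  have h2 : NeZero p := ⟨hp.p_prime.ne_zero⟩
  have hc := Model_sig_pow_p z hp.pow
  unfold eps
  have e1 : ∀ n : ℕ, cj (Model_Z (Model_sig z) s ^ n) (Model_T f ^ coef (z : ZMod l) v n) =
      Model_T (fun q => chi (z : ZMod l) ((n : ZMod p) * (s q - v)) * f q) := by
    intro n
    rw [Model_Z_pow hc, Model_T_pow, Model_Z_T]
    congr 1
    funext q
    unfold coef
    rw [ZMod.natCast_zmod_val, ← mul_assoc, ← Model_chi_add hp.pow]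
    congr 2
    ring
  simp only [e1]
  rw [Model_T_list]
  congr 1
  funext q
  rw [Model_sum_range, ← Finset.sum_mul, hp.geom]
  simp only [sub_eq_zero]

/-- functions vanishing outside `S` -/
def Model_good (S : Pos → Prop) (x : Model_M (Model_B l)) : Prop :=
  ∃ f : Pos → ZMod l, x = Model_T f ∧ ∀ q, ¬ S q → f q = 0

theorem Model_aq (q : Pos) (i : Fin t) :
    (Model_data w z).aq q i = Model_Z (Model_sig z) (fun x => Model_y w i (x + q)) := by
  show cj (UU (Model_data w z).u (toEx q)) (Model_Z (Model_sig z) (Model_y w i)) = _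
  rw [Model_UU_toEx, Model_Z_cj]

theorem Model_good_epsL (hp : Par p l (z : ZMod l)) (q : Pos) (v : Fin t → ZMod p)
    {S : Pos → Prop} {x : Model_M (Model_B l)} (hx : Model_good S x) (L : List (Fin t)) :
    Model_good (fun ν => S ν ∧ ∀ i ∈ L, Model_y w i (ν + q) = v i)
      (L.foldr (fun i y => eps (z : ZMod l) ((Model_data w z).aq q i) (v i) y) x) := by
  induction L with
  | nil =>
    obtain ⟨f, hf, h0⟩ := hx
    exact ⟨f, hf, fun ν hν => h0 ν fun h => hν ⟨h, fun i hi => absurd hi (by simp)⟩⟩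
  | cons i L ih =>
    obtain ⟨f, hf, h0⟩ := ih
    rw [List.foldr_cons, hf, Model_aq, Model_eps hp]
    refine ⟨_, rfl, fun ν hν => ?_⟩
    by_cases h : Model_y w i (ν + q) = v i
    · rw [h0 ν, mul_zero]
      rintro ⟨h3, h4⟩
      apply hν
      refine ⟨h3, fun k hk => ?_⟩
      rcases List.mem_cons.1 hk with rfl | hk
      · exact h
      · exact h4 k hk
    · rw [if_neg h, zero_mul]

theorem Model_good_epsV (hp : Par p l (z : ZMod l)) (q : Pos) (v : Fin t → ZMod p)
    {S : Pos → Prop} {x : Model_M (Model_B l)} (hx : Model_good S x) :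
    Model_good (fun ν => S ν ∧ w (ν.1 + q.1) (ν.2 + q.2) = v)
      (epsV (z : ZMod l) (Model_data w z) q v x) := by
  obtain ⟨f, hf, h0⟩ := Model_good_epsL w hp q v hx (List.finRange t)
  refine ⟨f, hf, fun ν hν => h0 ν ?_⟩
  rintro ⟨h1, h2⟩
  exact hν ⟨h1, funext fun i => h2 i (List.mem_finRange i)⟩

theorem Model_good_cell (hp : Par p l (z : ZMod l)) (q : Pos) (B : List (Fin t → ZMod p))
    {S : Pos → Prop} {x : Model_M (Model_B l)} (hx : Model_good S x) :
    Model_good (fun ν => S ν ∧ w (ν.1 + q.1) (ν.2 + q.2) ∈ B)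
      (cell (z : ZMod l) (Model_data w z) q B x) := by
  unfold cell
  induction B with
  | nil => exact ⟨fun _ => 0, Model_T_zero.symm, fun _ _ => rfl⟩
  | cons v B ih =>
    obtain ⟨f, hf, h0⟩ := ih
    obtain ⟨g, hg, h1⟩ := Model_good_epsV w hp q v hx
    rw [List.map_cons, List.prod_cons, hf, hg, Model_T_mul]
    refine ⟨_, rfl, fun ν hν => ?_⟩
    rw [h0 ν, h1 ν, add_zero]
    · rintro ⟨h2, h3⟩
      exact hν ⟨h2, List.mem_cons.2 (Or.inl h3)⟩
    · rintro ⟨h2, h3⟩
      exact hν ⟨h2, List.mem_cons.2 (Or.inr h3)⟩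

theorem Model_good_pat (hp : Par p l (z : ZMod l)) (L : List (Cond p t)) :
    Model_good (fun ν => ∀ c ∈ L, Sat w ν c) (patEl (z : ZMod l) (Model_data w z) L) := by
  unfold patEl
  induction L with
  | nil => exact ⟨fun _ => 1, rfl, fun ν hν => absurd (fun c hc => absurd hc (by simp)) hν⟩
  | cons c L ih =>
    rw [List.foldr_cons]
    obtain ⟨f, hf, h0⟩ := Model_good_cell w hp c.1 c.2 ih
    refine ⟨f, hf, fun ν hν => h0 ν ?_⟩
    rintro ⟨h1, h2⟩
    apply hν
    intro c' hc'
    rcases List.mem_cons.1 hc' with rfl | hc'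
    · exact h2
    · exact h1 c' hc'

theorem Model_comm_T {z : (ZMod l)ˣ} (s : Pos → ZMod p) (f : Pos → ZMod l) :
    ⁅Model_Z (Model_sig z) s, Model_T f⁆ =
      Model_T (fun q => (chi (z : ZMod l) (s q) - 1) * f q) := by
  rw [commutatorElement_def]
  show cj _ _ * _ = _
  rw [Model_Z_T, Model_T_inv, Model_T_mul]
  congr 1
  funext q
  ring

end pattern

end model

end

theorem model_exists {p l t : ℕ} {ζ : ZMod l} (hp : Par p l ζ)
    (w : E4 → E4 → (Fin t → ZMod p)) (hw : IsPt w)
    (hnc : ∃ n m : E4, w (n + ee 0) m ≠ w n m) :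
    ∃ (M : Type) (_ : Group M) (d : GData p l (Fin t) M), GRel ζ d ∧
      (∀ L : List (Cond p t), Avoids w L → patEl ζ d L = 1) ∧
      ∃ i, ⁅⁅d.u false 1, d.a i⁆, ⁅⁅d.u false 1, d.a i⁆, d.c⁆⁆ ≠ 1 := by
  have hp1 : NeZero p := ⟨hp.p_prime.ne_zero⟩
  have hl1 : Fact l.Prime := ⟨hp.l_prime⟩
  obtain ⟨z, rfl⟩ : ∃ z : (ZMod l)ˣ, (z : ZMod l) = ζ :=
    ⟨Units.ofPowEqOne ζ p hp.pow hp.p_prime.ne_zero, rfl⟩
  refine ⟨Model_M (Model_B l), inferInstance, Model_data w z, Model_rel hw hp, ?_, ?_⟩
  · intro L hL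
    obtain ⟨f, hf, h0⟩ := Model_good_pat w hp L
    rw [hf]
    have : f = fun _ => 0 := by
      funext ν
      apply h0
      intro h
      obtain ⟨c, hc, hn⟩ := hL ν
      exact hn (h c hc)
    rw [this]
    exact Model_T_zero
  · obtain ⟨n, m, hnm⟩ := hnc
    obtain ⟨i, hi⟩ : ∃ i, w (n + ee 0) m i ≠ w n m i := by
      by_contra h
      push Not at h
      exact hnm (funext h)
    refine ⟨i, fun h => ?_⟩
    have e1 : ⁅(Model_data w z).u false 1, (Model_data w z).a i⁆ =
        Model_Z (Model_sig z) (Model_d false (Model_y w i)) :=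
      Model_xop w hp.pow false (Model_y w i)
    rw [e1] at h
    change ⁅_, ⁅_, Model_T (fun _ => 1)⁆⁆ = (1 : Model_M (Model_B l)) at h
    rw [Model_comm_T, Model_comm_T] at h
    have h1 := Model_T_eq_one h (n, m)
    have h2 : chi (z : ZMod l) (Model_d false (Model_y w i) (n, m)) - 1 = 0 := by
      rcases mul_eq_zero.1 h1 with h3 | h3
      · exact h3
      · rcases mul_eq_zero.1 h3 with h4 | h4
        · exact h4
        · exact absurd h4 one_ne_zero
    have h3 := Model_chi_eq_one hp (sub_eq_zero.1 h2)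
    have h4 : Model_d false (Model_y w i) (n, m) = w (n + ee 0) m i - w n m i := by
      show w (n + ee 0) (m + 0) i - w n m i = _
      rw [add_zero]
    rw [h4, sub_eq_zero] at h3
    exact hi h3

end Pool.Agent.MG
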