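import Pool.Agent.MG.Defs

set_option autoImplicit false

namespace Pool.Agent.MG

theorem par_exists (p : ℕ) (hp : p.Prime) (hp5 : 5 ≤ p) : ∃ (l : ℕ) (ζ : ZMod l), Par p l ζ := by
  obtain ⟨l, hl, hlp, hmod⟩ := Nat.exists_prime_gt_modEq_one (k := p) p hp.ne_zero
  have : Fact l.Prime := ⟨hl⟩
  have : Fact p.Prime := ⟨hp⟩
  have hdvd : p ∣ Fintype.card (ZMod l)ˣ := by
    rw [ZMod.card_units]
    exact (Nat.modEq_iff_dvd' hl.one_le).1 hmod.symm
  obtain ⟨u, hu⟩ := exists_prime_orderOf_dvd_card p hdvd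
  refine ⟨l, (u : ZMod l), hp, hl, hp5, ?_, ?_⟩
  · rw [← Units.val_pow_eq_pow_val, ← hu, pow_orderOf_eq_one, Units.val_one]
  · intro h
    rw [Units.val_eq_one] at h
    rw [h, orderOf_one] at hu
    omega

end Pool.Agent.MG
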