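import Pool.Agent.MG.PresG
import Pool.Agent.MG.Char
import Pool.Agent.MG.Model
import Pool.Agent.MG.FPex
import Pool.Agent.MG.ParEx

/-!
MG Final: the group side.
-/

set_option autoImplicit false

namespace Pool.Agent.MG

open Pool.Agent.H69.Metab
open scoped commutatorElement

theorem group_main {p : ℕ} [Fact p.Prime] (hp5 : 5 ≤ p) {t : ℕ} (S : Pool.Agent.MB.Win p t)
    (hnc : ∀ w, S.Legal w → w (0 + Pool.Agent.MB.e 0) 0 ≠ w 0 0) :
    ∃ c : ℕ → Pres, Computable c ∧ ∀ n, (∀ r ∈ (c n).2, ∀ x ∈ r, x.1 < (c n).1) ∧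
      Group.IsSolvable (Grp (c n)) ∧ derivedSeries (Grp (c n)) 3 = ⊥ ∧
      (IsMetabelian (Grp (c n)) ↔ ¬ ∃ w, S.Legal w ∧ S.Extra (n + 1) w) := by
  obtain ⟨l, ζ, hp⟩ := par_exists p Fact.out hp5
  obtain ⟨FP, hFPn, hFP⟩ := fp_exists S
  obtain ⟨B, hBn, hB⟩ := extra_exists S
  obtain ⟨c, hc, hck⟩ := presG hp FP B
  refine ⟨fun n => c (n + 1), hc.comp Computable.succ, fun n => ?_⟩
  obtain ⟨hval, d, R, hgen, hfp, her, huniv⟩ := hck (n + 1)
  refine ⟨hval, ⟨⟨3, solv hp R hgen⟩⟩, solv hp R hgen, ?_, ?_⟩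
  · intro hmet
    rintro ⟨w, hL, hE⟩
    have hL' := (hFP w).mp hL
    have hE' := (hB (n + 1) w).mp hE
    obtain ⟨M, instM, d', R', hpat, i, hi⟩ := model_exists hp w hL'.1
      ⟨0, 0, hnc w hL⟩
    obtain ⟨π, hπu, hπa, hπc⟩ := huniv M instM d' R' (fun L hL => hpat L (hL'.2 L hL))
      (hpat _ hE')
    apply hi
    have h1 : ⁅⁅d.u false 1, d.a i⁆, ⁅⁅d.u false 1, d.a i⁆, d.c⁆⁆ ∈ derivedSeries (Grp (c (n + 1))) 2 := by
      rw [derivedSeries_succ]
      have h2 : ⁅d.u false 1, d.a i⁆ ∈ derivedSeries (Grp (c (n + 1))) 1 := by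
        rw [derivedSeries_succ, derivedSeries_zero]
        exact Subgroup.commutator_mem_commutator (Subgroup.mem_top _) (Subgroup.mem_top _)
      have h3 : ⁅⁅d.u false 1, d.a i⁆, d.c⁆ ∈ derivedSeries (Grp (c (n + 1))) 1 := by
        rw [derivedSeries_succ, derivedSeries_zero]
        exact Subgroup.commutator_mem_commutator (Subgroup.mem_top _) (Subgroup.mem_top _)
      exact Subgroup.commutator_mem_commutator h2 h3
    rw [IsMetabelian] at hmet
    rw [hmet, Subgroup.mem_bot] at h1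
    have h4 := congrArg π h1
    simp only [map_one, map_commutatorElement, hπu, hπa, hπc] at h4
    exact h4
  · intro hno
    apply metab hp R hgen
    by_contra hc1
    obtain ⟨w, hw, hav⟩ := char_exists hp R R.P_comm R.P_pow (N_comm hp R) hc1
    apply hno
    refine ⟨w, (hFP w).mpr ⟨hw, fun L hL => hav L (hFPn L hL) (hfp L hL)⟩,
      (hB (n + 1) w).mpr (hav _ ?_ her)⟩
    intro x hx
    rw [LE, List.mem_cons] at hx
    rcases hx with rfl | hx
    · exact hBn 3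
    · rcases (mem_LL B _ _).mp hx with rfl | rfl | ⟨j, _, rfl⟩
      · exact hBn 0
      · exact hBn 2
      · exact hBn 1

end Pool.Agent.MG
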