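import Pool.Agent.MG.UBasic

/-!
MG Fine.  A subgroup `V` of `G` containing the functions `D κ i` supported on one line `q.1 + j q.2 = s` and stable under conjugation by
`X = xop (d.u) κ (d.a i)` contains the functions supported at single points of this line.

PROOF (compare the proved /team-store/h9_NL_Fine.lean, lemma fine_base; here `p` is general and the values are in `ZMod l`, written additively).
Let `L w := D κ i (fun q => if q.1 + nd p j * q.2 = s then w else 0) ∈ V` for all `w : ZMod l`.  By `x_D` iterated, `cj (X ^ m) (L w) = D κ i (fun q => if … then ζ^(m * q.2.val) * w else 0)`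
(`chi ζ s = ζ ^ s.val`) is in `V`.  For `t : ZMod p` the sum over `m < p` of these functions with `w := ζ^(m * (p - t.val)) * w₀` is, at `q` on the line,
`w₀ * ∑_{m<p} ζ^(m (q.2.val + p - t.val))`, which is `p * w₀` if `q.2 = t` and `0` otherwise (geometric sum in the field `ZMod l`, as `ζ^k ≠ 1` when `p ∤ k`: `ζ` has prime order `p`).
So `D κ i (fun q => if q = (s - nd p j * t, t) then p * w₀ else 0) ∈ V` (`GRel.D_sum`), and `p` is invertible in `ZMod l` (`p ≠ l`, since in `ZMod p`, `x^p = x`; so `ζ^p = 1` would give `ζ = 1`).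
-/

set_option autoImplicit false

namespace Pool.Agent.MG

variable {p l : ℕ} {ζ : ZMod l} {ι G : Type} [Group G] {d : GData p l ι G}

private theorem fine_chi_add (hp : Par p l ζ) (s t : ZMod p) :
    chi ζ (s + t) = chi ζ s * chi ζ t := by
  have : Fact p.Prime := ⟨hp.p_prime⟩
  exact zp_add hp.pow s t

private theorem fine_chi_mul (hp : Par p l ζ) (m : ℕ) (s : ZMod p) :
    chi ζ ((m : ZMod p) * s) = chi ζ s ^ m := by
  have : Fact p.Prime := ⟨hp.p_prime⟩
  induction m with
  | zero =>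
    rw [Nat.cast_zero, zero_mul, pow_zero]
    exact zp_zero ζ
  | succ m ih => rw [Nat.cast_succ, add_mul, one_mul, fine_chi_add hp, ih, pow_succ]

/-- `p` is invertible in `ZMod l` -/
theorem Par.p_unit (hp : Par p l ζ) : ((p : ℕ) : ZMod l) ≠ 0 := by
  intro h
  have h1 : l ∣ p := (ZMod.natCast_eq_zero_iff _ _).1 h
  have h2 : l = p := (Nat.prime_dvd_prime_iff_eq hp.l_prime hp.p_prime).1 h1
  subst h2
  have : Fact l.Prime := ⟨hp.l_prime⟩
  apply hp.ne_one
  have h3 := hp.pow
  rwa [ZMod.pow_card] at h3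

/-- orthogonality -/
theorem Par.geom (hp : Par p l ζ) (s : ZMod p) :
    ∑ m ∈ Finset.range p, chi ζ ((m : ZMod p) * s) = if s = 0 then ((p : ℕ) : ZMod l) else 0 := by
  have hF : Fact p.Prime := ⟨hp.p_prime⟩
  have hL : Fact l.Prime := ⟨hp.l_prime⟩
  have e : ∀ m ∈ Finset.range p, chi ζ ((m : ZMod p) * s) = chi ζ s ^ m :=
    fun m _ => fine_chi_mul hp m s
  rw [Finset.sum_congr rfl e]
  split_ifs with hs
  · subst hs
    have h1 : chi ζ (0 : ZMod p) = 1 := zp_zero ζ
    rw [h1]
    simp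
  · have hne : chi ζ s - 1 ≠ 0 := by
      intro h
      apply hp.ne_one
      have h1 : ζ ^ s.val = 1 := sub_eq_zero.1 h
      have hlt : s.val < p := ZMod.val_lt s
      have hpos : s.val ≠ 0 := fun h0 => hs ((ZMod.val_eq_zero s).1 h0)
      have hco : Nat.gcd p s.val = 1 := by
        rw [← Nat.coprime_iff_gcd_eq_one, hp.p_prime.coprime_iff_not_dvd]
        intro hd
        exact absurd (Nat.le_of_dvd (Nat.pos_of_ne_zero hpos) hd) (not_le.2 hlt)
      have h2 : ζ ^ Nat.gcd p s.val = 1 := pow_gcd_eq_one.2 ⟨hp.pow, h1⟩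
      rwa [hco, pow_one] at h2
    have h1 := geom_sum_mul (chi ζ s) p
    have h2 : chi ζ s ^ p = 1 := zp_pow_p hp.pow s
    rw [h2, sub_self] at h1
    exact (mul_eq_zero.1 h1).resolve_right hne

/-- the projection to one value, in the form used below -/
private theorem fine_proj (hp : Par p l ζ) (w : ZMod l) (s t : ZMod p) :
    ∑ m ∈ Finset.range p, chi ζ ((m : ZMod p) * s) *
      (chi ζ (-((m : ZMod p) * t)) * (((p : ℕ) : ZMod l)⁻¹ * w)) = if s = t then w else 0 := by
  have hL : Fact l.Prime := ⟨hp.l_prime⟩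
  have e : ∀ m ∈ Finset.range p, chi ζ ((m : ZMod p) * s) *
      (chi ζ (-((m : ZMod p) * t)) * (((p : ℕ) : ZMod l)⁻¹ * w)) =
      chi ζ ((m : ZMod p) * (s - t)) * (((p : ℕ) : ZMod l)⁻¹ * w) := by
    intro m _
    rw [← mul_assoc, ← fine_chi_add hp]
    congr 2
    ring
  rw [Finset.sum_congr rfl e, ← Finset.sum_mul, hp.geom]
  by_cases h : s = t
  · rw [if_pos (sub_eq_zero.2 h), if_pos h, ← mul_assoc, mul_inv_cancel₀ hp.p_unit, one_mul]
  · rw [if_neg (sub_ne_zero.2 h), if_neg h, zero_mul]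

private theorem fine_stab {V : Subgroup G} {g : G} (hX : ∀ x ∈ V, cj g x ∈ V) (m : ℕ) :
    ∀ x ∈ V, cj (g ^ m) x ∈ V := by
  induction m with
  | zero =>
    intro x hx
    rw [pow_zero, one_cj]
    exact hx
  | succ m ih =>
    intro x hx
    rw [pow_succ', ← cj_cj]
    exact hX _ (ih x hx)

private theorem fine_X (hp : Par p l ζ) (R : GRel ζ d) (κ : Bool) (i : ι) (m : ℕ)
    (f : ZMod p × ZMod p → ZMod l) :
    cj (xop d.u κ (d.a i) ^ m) (d.D κ i f) =
      d.D κ i (fun q => chi ζ ((m : ZMod p) * q.2) * f q) := by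
  induction m with
  | zero =>
    rw [pow_zero, one_cj]
    congr 1
    funext q
    rw [fine_chi_mul hp, pow_zero, one_mul]
  | succ m ih =>
    rw [pow_succ', ← cj_cj, ih, R.x_D]
    congr 1
    funext q
    rw [fine_chi_mul hp, fine_chi_mul hp, pow_succ, ← mul_assoc, mul_comm (chi ζ q.2)]

private theorem fine_a (hp : Par p l ζ) (R : GRel ζ d) (i : ι) (m : ℕ) (f : ZMod p → ZMod l) :
    cj (d.a i ^ m) (d.D1 i f) = d.D1 i (fun s => chi ζ ((m : ZMod p) * s) * f s) := by
  induction m with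
  | zero =>
    rw [pow_zero, one_cj]
    congr 1
    funext q
    rw [fine_chi_mul hp, pow_zero, one_mul]
  | succ m ih =>
    rw [pow_succ', ← cj_cj, ih]
    unfold GData.D1
    rw [R.a_D]
    congr 1
    funext q
    change chi ζ q.1 * (chi ζ ((m : ZMod p) * q.1) * f q.1) =
      chi ζ (((m + 1 : ℕ) : ZMod p) * q.1) * f q.1
    rw [fine_chi_mul hp, fine_chi_mul hp, pow_succ, ← mul_assoc, mul_comm (chi ζ q.1)]

theorem fine (hp : Par p l ζ) (R : GRel ζ d) (κ : Bool) (i : ι) (j : Fin 5) (s : ZMod p) (V : Subgroup G)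
    (h1 : ∀ w : ZMod l, d.D κ i (fun q => if q.1 + nd p j * q.2 = s then w else 0) ∈ V)
    (hX : ∀ x ∈ V, cj (xop d.u κ (d.a i)) x ∈ V) (t : ZMod p) (w : ZMod l) :
    d.D κ i (Pi.single ((s - nd p j * t, t) : ZMod p × ZMod p) w) ∈ V := by
  have key := R.D_sum κ i (Finset.range p) (fun m q => chi ζ ((m : ZMod p) * q.2) *
    (if q.1 + nd p j * q.2 = s then
      chi ζ (-((m : ZMod p) * t)) * (((p : ℕ) : ZMod l)⁻¹ * w) else 0)) V (by
    intro m _
    have h2 := fine_stab hX m _ (h1 (chi ζ (-((m : ZMod p) * t)) * (((p : ℕ) : ZMod l)⁻¹ * w)))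
    rw [fine_X hp R] at h2
    exact h2)
  have e : (∑ m ∈ Finset.range p, fun q : ZMod p × ZMod p => chi ζ ((m : ZMod p) * q.2) *
      (if q.1 + nd p j * q.2 = s then
        chi ζ (-((m : ZMod p) * t)) * (((p : ℕ) : ZMod l)⁻¹ * w) else 0)) =
      Pi.single ((s - nd p j * t, t) : ZMod p × ZMod p) w := by
    funext q
    rw [Finset.sum_apply]
    by_cases hq : q.1 + nd p j * q.2 = s
    · have e1 : ∀ m ∈ Finset.range p, chi ζ ((m : ZMod p) * q.2) *
          (if q.1 + nd p j * q.2 = s then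
            chi ζ (-((m : ZMod p) * t)) * (((p : ℕ) : ZMod l)⁻¹ * w) else 0) =
          chi ζ ((m : ZMod p) * q.2) *
            (chi ζ (-((m : ZMod p) * t)) * (((p : ℕ) : ZMod l)⁻¹ * w)) := by
        intro m _
        rw [if_pos hq]
      rw [Finset.sum_congr rfl e1, fine_proj hp]
      by_cases ht : q.2 = t
      · have hpt : q = (s - nd p j * t, t) := by
          refine Prod.ext ?_ ht
          rw [← hq, ht]
          ring
        rw [if_pos ht, hpt, Pi.single_eq_same]
      · rw [if_neg ht, Pi.single_eq_of_ne]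
        intro h
        exact ht (by rw [h])
    · have e1 : ∀ m ∈ Finset.range p, chi ζ ((m : ZMod p) * q.2) *
          (if q.1 + nd p j * q.2 = s then
            chi ζ (-((m : ZMod p) * t)) * (((p : ℕ) : ZMod l)⁻¹ * w) else 0) = 0 := by
        intro m _
        rw [if_neg hq, mul_zero]
      rw [Finset.sum_congr rfl e1, Finset.sum_const_zero, Pi.single_eq_of_ne]
      intro h
      apply hq
      rw [h]
      ring
  rw [e] at key
  exact key

/-- the coarse version: `V` contains the constants `c ^ w` and is stable under conjugation by `a^{U n}`, then it contains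
all `Dq n i f` -/
theorem coarse (hp : Par p l ζ) (R : GRel ζ d) (n : Ex) (i : ι) (V : Subgroup G)
    (h1 : d.c ∈ V) (hX : ∀ x ∈ V, cj (cj (d.U n) (d.a i)) x ∈ V) (f : ZMod p → ZMod l) :
    d.Dq n i f ∈ V := by
  classical
  have : Fact p.Prime := ⟨hp.p_prime⟩
  let V' : Subgroup G := V.comap (cjHom (d.U n))
  have hV' : ∀ x, x ∈ V' ↔ cj (d.U n) x ∈ V := fun x => Iff.rfl
  have hc : d.c ∈ V' := by
    rw [hV', cj_eq_self.2 (R.U_c n)]
    exact h1
  have ha : ∀ x ∈ V', cj (d.a i) x ∈ V' := by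
    intro x hx
    rw [hV'] at hx ⊢
    have h2 := hX _ hx
    have h3 : cj (cj (d.U n) (d.a i)) (cj (d.U n) x) = cj (d.U n) (cj (d.a i) x) := by
      simp [cj, mul_assoc]
    rwa [h3] at h2
  have hsum : ∀ {J : Type} (s : Finset J) (g : J → ZMod p → ZMod l),
      (∀ j ∈ s, d.D1 i (g j) ∈ V') → d.D1 i (∑ j ∈ s, g j) ∈ V' := by
    intro J s g hg
    have h2 := R.D_sum false i s (fun j q => g j q.1) V' hg
    have h3 : (∑ j ∈ s, fun q : ZMod p × ZMod p => g j q.1) = fun q => (∑ j ∈ s, g j) q.1 := by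
      funext q
      rw [Finset.sum_apply, Finset.sum_apply]
    rw [h3] at h2
    exact h2
  have hconst : ∀ w : ZMod l, d.D1 i (fun _ => w) ∈ V' := by
    intro w
    have h2 : d.D1 i (fun _ => w) = d.c ^ w.val := R.D_const false i w
    rw [h2]
    exact V'.pow_mem hc _
  have hsingle : ∀ (t : ZMod p) (w : ZMod l), d.D1 i (Pi.single t w) ∈ V' := by
    intro t w
    have key := hsum (Finset.range p) (fun m q => chi ζ ((m : ZMod p) * q) *
      (chi ζ (-((m : ZMod p) * t)) * (((p : ℕ) : ZMod l)⁻¹ * w))) (by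
      intro m _
      have h2 := fine_stab ha m _
        (hconst (chi ζ (-((m : ZMod p) * t)) * (((p : ℕ) : ZMod l)⁻¹ * w)))
      rw [fine_a hp R] at h2
      exact h2)
    have e : (∑ m ∈ Finset.range p, fun q : ZMod p => chi ζ ((m : ZMod p) * q) *
        (chi ζ (-((m : ZMod p) * t)) * (((p : ℕ) : ZMod l)⁻¹ * w))) = Pi.single t w := by
      funext q
      rw [Finset.sum_apply, fine_proj hp]
      by_cases ht : q = t
      · rw [if_pos ht, ht, Pi.single_eq_same]
      · rw [if_neg ht, Pi.single_eq_of_ne ht]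
    rw [e] at key
    exact key
  have hf : (∑ t, Pi.single t (f t) : ZMod p → ZMod l) = f := Finset.univ_sum_single f
  have h2 := hsum Finset.univ (fun t => Pi.single t (f t)) fun t _ => hsingle t (f t)
  rw [hf] at h2
  exact h2

/-- all of `D κ i` -/
theorem fine_all (hp : Par p l ζ) (R : GRel ζ d) (κ : Bool) (i : ι) (V : Subgroup G)
    (h1 : d.c ∈ V) (hX : ∀ b ∈ d.A, ∀ x ∈ V, cj b x ∈ V) (f : ZMod p × ZMod p → ZMod l) :
    d.D κ i f ∈ V := by
  classical
  have : Fact p.Prime := ⟨hp.p_prime⟩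
  have hco : ∀ g : ZMod p → ZMod l, d.D κ i (fun q => g q.1) ∈ V := by
    intro g
    have h2 := coarse hp R 0 i V h1 (hX _ (GRel.cj_a_mem 0 i)) g
    have h3 : d.Dq 0 i g = d.D1 i g := by
      unfold GData.Dq
      rw [GRel.U_zero, one_cj]
    rw [R.D_fst κ i g, ← h3]
    exact h2
  have hn : nd p 0 = 0 := by simp [nd]
  have hsingle : ∀ (q : ZMod p × ZMod p) (w : ZMod l), d.D κ i (Pi.single q w) ∈ V := by
    intro q w
    have h2 := fine hp R κ i 0 q.1 V (by
      intro w
      have h3 := hco (Pi.single q.1 w)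
      have h4 : (fun r : ZMod p × ZMod p => if r.1 + nd p 0 * r.2 = q.1 then w else 0) =
          fun r => (Pi.single q.1 w : ZMod p → ZMod l) r.1 := by
        funext r
        rw [hn, zero_mul, add_zero]
        by_cases h5 : r.1 = q.1
        · rw [if_pos h5, h5, Pi.single_eq_same]
        · rw [if_neg h5, Pi.single_eq_of_ne h5]
      rw [h4]
      exact h3) (hX _ (R.xop_A κ _ (GRel.a_mem_A i))) q.2 w
    have h6 : ((q.1 - nd p 0 * q.2, q.2) : ZMod p × ZMod p) = q := by
      rw [hn, zero_mul, sub_zero]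
    rw [h6] at h2
    exact h2
  have hf : (∑ t, Pi.single t (f t) : ZMod p × ZMod p → ZMod l) = f := Finset.univ_sum_single f
  have h2 := R.D_sum κ i Finset.univ (fun t => Pi.single t (f t)) V fun t _ => hsingle t (f t)
  rw [hf] at h2
  exact h2

end Pool.Agent.MG
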