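import Pool.Agent.MG.UBasic
import Pool.Agent.MG.Cases

/-!
MG Tame.  The normal closure `d.P` of the module generators under the units is abelian of exponent `p`.

PROOF (adapt the proved one-variable file /team-store/h9_NL_Tame.lean, same structure).  For `m, m' ∈ gens` and exponent vectors `n : Ex`: `m` commutes with `cj (U n) m'`.
`U` does not depend on the entries at `0` (`U_congr`), so we may normalise `n κ` to have sum 0 for both `κ`.  Strong induction on
`|n|² = ∑_κ ∑_j (n κ j)^2`.  Apply `tame_cases` to `n false` and to `n true`.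
* if for some `κ` case 1 holds (`n κ b` exceeds three others `n κ i, n κ j, n κ k` by ≥ 2): by `lagr` for `m'` and `κ`,
  `cj (U n) m' = cj (U (n - sg κ b)) (cj (u κ b) m')` is a product of `zp`'s of `cj (U (n - sg κ b + sg κ i)) m'` and the same with `j, k`: the sums stay 0, the norm is smaller.
* if for some `κ` case 2 holds: rewrite `m = cj (U (- sg κ b)) (cj (u κ b) m)` by `lagr`; `cj (U (sg κ i - sg κ b)) m` commutes with `cj (U n) m'` iff `m` commutes with
  `cj (U (n + sg κ b - sg κ i)) m'`, of smaller norm.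
* otherwise all `n κ j ∈ {-1,0,1}`: the relation `tame`.
Then `P_comm` and `P_pow` as in the one-variable file (`gen_pow`).
-/

set_option autoImplicit false

namespace Pool.Agent.MG

variable {p l : ℕ} {ζ : ZMod l} {ι G : Type} [Group G] {d : GData p l ι G}

namespace GRel

theorem tame_U_sub_sg (R : GRel ζ d) (n : Ex) (κ : Bool) (b : Fin 5) :
    d.U n = d.U (n - sg κ b) * d.u κ b := by
  rw [← R.U_single, ← R.U_add, sub_add_cancel]

theorem tame_lagr (R : GRel ζ d) (m : G) (hm : m ∈ d.gens) (n : Ex) (κ : Bool)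
    (b i j k : Fin 5) (hbi : b ≠ i) (hbj : b ≠ j) (hbk : b ≠ k) (hij : i ≠ j) (hik : i ≠ k)
    (hjk : j ≠ k) :
    cj (d.U n) m =
      zp (cj (d.U (n - sg κ b + sg κ i)) m) (lag p b i j k) *
      zp (cj (d.U (n - sg κ b + sg κ j)) m) (lag p b j i k) *
      zp (cj (d.U (n - sg κ b + sg κ k)) m) (lag p b k i j) := by
  rw [tame_U_sub_sg R n κ b, ← cj_cj, R.lagr m hm κ b i j k hbi hbj hbk hij hik hjk,
    cj_mul, cj_mul, cj_zp, cj_zp, cj_zp, cj_cj, cj_cj, cj_cj]
  simp only [R.U_add, R.U_single]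

theorem tame_shift (R : GRel ζ d) (m m' : G) (r n : Ex) :
    Commute (cj (d.U r) m) (cj (d.U n) m') ↔ Commute m (cj (d.U (n - r)) m') := by
  have h : cj (d.U n) m' = cj (d.U r) (cj (d.U (n - r)) m') := by
    rw [cj_cj, ← R.U_add, add_sub_cancel]
  rw [h, cj_commute]

theorem tame_app (n : Ex) (κ : Bool) (b i : Fin 5) :
    (n - sg κ b + sg κ i) κ = n κ - Pi.single b 1 + Pi.single i 1 := by
  unfold sg
  rw [Pi.add_apply, Pi.sub_apply, Pi.single_eq_same, Pi.single_eq_same]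

theorem tame_app' (n : Ex) (κ κ' : Bool) (h : κ' ≠ κ) (b i : Fin 5) :
    (n - sg κ b + sg κ i) κ' = n κ' := by
  unfold sg
  rw [Pi.add_apply, Pi.sub_apply, Pi.single_eq_of_ne h, Pi.single_eq_of_ne h, sub_zero, add_zero]

theorem tame_sum1 (n : Fin 5 → ℤ) (b i : Fin 5) :
    ∑ j, (n - Pi.single b 1 + Pi.single i 1 : Fin 5 → ℤ) j = ∑ j, n j := by
  simp [Finset.sum_add_distrib, Finset.sum_sub_distrib, Pi.single_apply]

theorem tame_sum (n : Ex) (κ : Bool) (b i : Fin 5) (κ' : Bool) :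
    ∑ j, (n - sg κ b + sg κ i) κ' j = ∑ j, n κ' j := by
  by_cases h : κ' = κ
  · subst h
    rw [tame_app, tame_sum1]
  · rw [tame_app' n κ κ' h]

theorem tame_norm1 (n : Fin 5 → ℤ) (b i : Fin 5) (h : b ≠ i) :
    ∑ j, ((n - Pi.single b 1 + Pi.single i 1 : Fin 5 → ℤ) j) ^ 2 =
      ∑ j, (n j) ^ 2 - 2 * (n b - n i - 1) := by
  have h1 : ∀ j, ((n - Pi.single b 1 + Pi.single i 1 : Fin 5 → ℤ) j) ^ 2 =
      (n j) ^ 2 - (if j = b then 2 * n j - 1 else 0) + (if j = i then 2 * n j + 1 else 0) := by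
    intro j
    simp only [Pi.add_apply, Pi.sub_apply, Pi.single_apply]
    by_cases hb : j = b
    · subst hb
      simp only [if_true, if_neg h]; ring
    · by_cases hi : j = i
      · subst hi
        simp only [if_true, if_neg hb]; ring
      · simp only [if_neg hb, if_neg hi]; ring
  rw [Finset.sum_congr rfl (fun j _ => h1 j), Finset.sum_add_distrib, Finset.sum_sub_distrib]
  simp only [Finset.sum_ite_eq', Finset.mem_univ, if_true]
  ring

theorem tame_norm (n : Ex) (κ : Bool) (b i : Fin 5) (h : b ≠ i) :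
    ∑ κ', ∑ j, ((n - sg κ b + sg κ i) κ' j) ^ 2 =
      ∑ κ', ∑ j, (n κ' j) ^ 2 - 2 * (n κ b - n κ i - 1) := by
  rw [Fintype.sum_bool, Fintype.sum_bool]
  cases κ
  · rw [tame_app, tame_app' n false true (by decide), tame_norm1 _ b i h]
    ring
  · rw [tame_app, tame_app' n true false (by decide), tame_norm1 _ b i h]
    ring

theorem tame_main (R : GRel ζ d) (N : ℕ) : ∀ n : Ex, (∀ κ, ∑ i, n κ i = 0) →
    ∑ κ, ∑ i, (n κ i) ^ 2 < (N : ℤ) → ∀ m ∈ d.gens, ∀ m' ∈ d.gens,
    Commute m (cj (d.U n) m') := by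
  induction N with
  | zero =>
    intro n _ h2
    exfalso
    have : (0 : ℤ) ≤ ∑ κ, ∑ i, (n κ i) ^ 2 :=
      Finset.sum_nonneg (fun κ _ => Finset.sum_nonneg (fun i _ => sq_nonneg _))
    simp only [Nat.cast_zero] at h2
    omega
  | succ N ih =>
    intro n hn h2 m hm m' hm'
    push_cast at h2
    by_cases hc1 : ∃ κ, ∃ b i j k : Fin 5, b ≠ i ∧ b ≠ j ∧ b ≠ k ∧ i ≠ j ∧ i ≠ k ∧ j ≠ k ∧
      n κ i + 2 ≤ n κ b ∧ n κ j + 2 ≤ n κ b ∧ n κ k + 2 ≤ n κ b
    · obtain ⟨κ, b, i, j, k, hbi, hbj, hbk, hij, hik, hjk, h1, h3, h4⟩ := hc1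
      rw [tame_lagr R m' hm' n κ b i j k hbi hbj hbk hij hik hjk]
      have key : ∀ t : Fin 5, b ≠ t → n κ t + 2 ≤ n κ b →
          Commute m (cj (d.U (n - sg κ b + sg κ t)) m') := by
        intro t ht ht2
        refine ih _ ?_ ?_ m hm m' hm'
        · intro κ'
          rw [tame_sum, hn]
        · rw [tame_norm n κ b t ht]; linarith
      exact ((Commute.zp_right (key i hbi h1) _).mul_right
        (Commute.zp_right (key j hbj h3) _)).mul_right (Commute.zp_right (key k hbk h4) _)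
    by_cases hc2 : ∃ κ, ∃ b i j k : Fin 5, b ≠ i ∧ b ≠ j ∧ b ≠ k ∧ i ≠ j ∧ i ≠ k ∧ j ≠ k ∧
      n κ b + 2 ≤ n κ i ∧ n κ b + 2 ≤ n κ j ∧ n κ b + 2 ≤ n κ k
    · obtain ⟨κ, b, i, j, k, hbi, hbj, hbk, hij, hik, hjk, h1, h3, h4⟩ := hc2
      have h0 := tame_lagr R m hm 0 κ b i j k hbi hbj hbk hij hik hjk
      rw [U_zero, one_cj] at h0
      rw [h0]
      have key : ∀ t : Fin 5, b ≠ t → n κ b + 2 ≤ n κ t →
          Commute (cj (d.U (0 - sg κ b + sg κ t)) m) (cj (d.U n) m') := by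
        intro t ht ht2
        rw [tame_shift R]
        have he : n - (0 - sg κ b + sg κ t) = n - sg κ t + sg κ b := by
          abel
        rw [he]
        refine ih _ ?_ ?_ m hm m' hm'
        · intro κ'
          rw [tame_sum, hn]
        · rw [tame_norm n κ t b ht.symm]; linarith
      exact ((Commute.zp_left (key i hbi h1) _).mul_left
        (Commute.zp_left (key j hbj h3) _)).mul_left (Commute.zp_left (key k hbk h4) _)
    · have h : ∀ κ i, n κ i = -1 ∨ n κ i = 0 ∨ n κ i = 1 := by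
        intro κ
        rcases tame_cases (n κ) (hn κ) with h' | h' | h'
        · exact absurd ⟨κ, h'⟩ hc1
        · exact absurd ⟨κ, h'⟩ hc2
        · exact h'
      have h5 : ∃ ε : Bool → Fin 5 → SignType, ∀ κ i, ((ε κ i : SignType) : ℤ) = n κ i := by
        refine ⟨fun κ i => SignType.sign (n κ i), fun κ i => ?_⟩
        rcases h κ i with h | h | h <;> simp [h]
      obtain ⟨ε, hε⟩ := h5
      have h6 := R.tame m hm m' hm' ε
      have h7 : (fun κ j => ((ε κ j : SignType) : ℤ)) = n := funext fun κ => funext (hε κ)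
      rw [h7] at h6
      exact h6

theorem tame_all (R : GRel ζ d) (n n' : Ex) (m m' : G) (hm : m ∈ d.gens)
    (hm' : m' ∈ d.gens) : Commute (cj (d.U n) m) (cj (d.U n') m') := by
  rw [tame_shift R]
  set r : Ex := n' - n with hr
  let r' : Ex := fun κ => r κ - Pi.single 0 (∑ i, r κ i)
  have h : d.U r = d.U r' := by
    apply U_congr
    intro κ j hj
    show r κ j = (r κ - Pi.single 0 (∑ i, r κ i) : Fin 5 → ℤ) j
    simp [Pi.single_eq_of_ne hj]
  rw [h]
  have hs : ∀ κ, ∑ i, r' κ i = 0 := by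
    intro κ
    show ∑ i, (r κ - Pi.single 0 (∑ i, r κ i) : Fin 5 → ℤ) i = 0
    simp [Finset.sum_sub_distrib, Pi.single_apply]
  have hpos : (0 : ℤ) ≤ ∑ κ, ∑ i, (r' κ i) ^ 2 :=
    Finset.sum_nonneg (fun κ _ => Finset.sum_nonneg (fun i _ => sq_nonneg _))
  refine tame_main R ((∑ κ, ∑ i, (r' κ i) ^ 2).toNat + 1) _ hs ?_ m hm m' hm'
  push_cast
  rw [Int.toNat_of_nonneg hpos]
  omega

theorem P_comm (R : GRel ζ d) : ∀ x ∈ d.P, ∀ y ∈ d.P, Commute x y := by
  intro x hx y hy
  have h1 : d.P ≤ Subgroup.centralizer {x | ∃ n, ∃ m ∈ d.gens, x = cj (d.U n) m} := by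
    refine (Subgroup.closure_le _).mpr ?_
    rintro x ⟨n, m, hm, rfl⟩
    rw [SetLike.mem_coe, Subgroup.mem_centralizer_iff]
    rintro y ⟨n', m', hm', rfl⟩
    exact tame_all R n' n m' m hm' hm
  have h2 : d.P ≤ Subgroup.centralizer (d.P : Set G) := by
    refine (Subgroup.closure_le _).mpr ?_
    intro z hz
    rw [SetLike.mem_coe, Subgroup.mem_centralizer_iff]
    intro w hw
    have := h1 hw
    rw [Subgroup.mem_centralizer_iff] at this
    exact (this z hz).symm
  have h3 := h2 hx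
  rw [Subgroup.mem_centralizer_iff] at h3
  exact (h3 y hy).symm

theorem P_pow (R : GRel ζ d) : ∀ x ∈ d.P, x ^ p = 1 := by
  intro x hx
  refine Subgroup.closure_induction (p := fun y _ => y ^ p = 1) ?_ ?_ ?_ ?_ hx
  · rintro y ⟨n, m, hm, rfl⟩
    rw [← cj_pow, R.gen_pow m hm, cj_one]
  · exact one_pow p
  · intro y z hy hz h1 h2
    have hc : Commute y z := P_comm R y hy z hz
    rw [hc.mul_pow, h1, h2, one_mul]
  · intro y hy h1
    rw [inv_pow, h1, inv_one]

end GRel

end Pool.Agent.MG
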