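import Pool.Agent.MG.Fine
import Pool.Agent.MG.Tame

/-!
MG Good.  For every track `i` and every `b ∈ A` there is `φ ∈ P` acting on `D1 i (single s w)` as `b ^ s`, for all `s, w`.

PROOF (the one-variable, one-track version is NL Good; here: two variables `κ`, and a fixed track `i`).
`P` is abelian of exponent `p` (`P_comm`, `P_pow`); `A ≤ P`; both are invariant under `cj (U n)`, `xop`.

Fix `i`.  For `κ`, a point `q = (s0, s1)`, `ψ, b ∈ P` write `[ψ ~ b at (κ, q)]` for `∀ w, cj ψ (D κ i (Pi.single q w)) = cj b (D κ i (Pi.single q w))`.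
As `P` is abelian this is multiplicative: `ψ ~ b`, `ψ' ~ b'` imply `ψψ' ~ bb'`, `ψ⁻¹ ~ b⁻¹`, `zp ψ n ~ zp b n`.
`b ∈ A` is GOOD with witness `φ ∈ P` if `∀ s w, cj φ (D1 i (Pi.single s w)) = cj (zp b s) (D1 i (Pi.single s w))`.

(1) `ax d.u (d.a k) α β` is good with witness `e α β i k` (relation `e_D`), for all `k, α, β`.
(2) good elements form a subgroup (products and inverses of witnesses).
(3) If `b` is good with witness `φ`, then for every `κ, j` and every point `q = (s0, s1)`: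
    `cj (u κ j) φ ~ zp (cj (u κ j) b) (s0 + nd p j * s1)` at `(κ, q)`.
    (Conjugate goodness by `u κ j`: by `line` and `D_fst`, `cj (u κ j) (D1 i (single s w)) = D κ i (fun q => if q.1 + nd p j * q.2 = s then w else 0)`, on which `cj (u κ j) φ` acts as
    `zp (cj (u κ j) b) s`; the set `V = {z | cj φ' z = cj c z}` (`φ' = cj (u κ j) φ`, `c = zp (cj (u κ j) b) s`) is a subgroup stable under conjugation by elements of `A ≤ P`
    (everything in the abelian group `P`); apply `fine` with `s = s0 + nd p j * s1`, `t = s1`.)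
(4) For `b ∈ A`: `cj (u κ j) b = b * (xop κ b)^j` (for `b = cj (U n) (a k)` by `a_lin` conjugated by `U n`, then multiplicative in `b`: closure induction).
    For `φ ∈ P` put `σφ := zp (cj (u κ 1) φ) 2 * (cj (u κ 2) φ)^{-1/2} * φ^{-3/2}` and `πφ := (cj (u κ 1) φ)^{-1} * (cj (u κ 2) φ)^{1/2} * φ^{1/2}` (exponents in `ZMod p` via `zp`:
    for a quadratic polynomial `F(t) = F0 + σ t + π t²` one has `σ = 2 F(1) - F(2)/2 - 3 F(0)/2`, `π = F(2)/2 - F(1) + F(0)/2`).  Then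
    `cj (u κ j) φ = φ * zp (σφ) (nd j) * zp (πφ) (nd j ^ 2)` for all `j : Fin 5` (for `φ = cj (U n) m`, `m ∈ gens`: `j = 0, 1, 2` are identities, `j = 3, 4` by `lagr` with nodes `0, 1, 2`,
    whose coefficients are those of the interpolation; multiplicative in `φ`).
(5) With (3) for `j = 0, 1, 2` and (4), additively at `q = (s0, s1)` of `κ`: `φ ~ s0 b`, `u_1 φ ~ (s0+s1)(b + xb)`, `u_2 φ ~ (s0 + 2 s1)(b + 2 xb)`, so
    `σφ ~ s1 b + s0 xb` and `πφ ~ s1 xb` (with `xb = xop κ b`).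
(6) If `b` and `xb` are good with witnesses `φ, φ'` then `x(xb)` is good: `ψ := σφ' - πφ ~ (s1 xb + s0 x(xb)) - s1 xb = s0 x(xb)` at every point `q = (s0, s1)` of `κ`; and
    `D1 i (single s w) = D κ i (fun q => if q.1 = s then w else 0)` is the product over `t` of `D κ i (Pi.single (s, t) w)` (`D_sum` for the subgroup `{z | cj ψ z = cj c z}`), so `ψ` is a witness for `x(xb)`.
(7) If `b` and `xb` are good with witnesses `φ, φ'`, then `cj (u κ j)⁻¹ b` is good: `χ := φ + j (σφ - φ') ~ s0 b + j (s1 b + s0 xb - s0 xb) = (s0 + j s1) b` at `q`.  So `χ` acts on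
    `cj (u κ j) (D1 i (single s w)) = D κ i (fun q => if q.1 + j q.2 = s then w else 0)` (sum over the points of the line) as `zp b s`;
    conjugating by `(u κ j)⁻¹`, `cj (u κ j)⁻¹ χ` is a witness for `cj (u κ j)⁻¹ b`.
(8) Write `x = xop false`, `y = xop true` on `A` (they commute and are multiplicative, `A` abelian).  Let `𝒢 := {b ∈ A | b, xb, yb, x(yb) good}`: a subgroup, containing all `a k` by (1), stable under
    `x, y` ((6): e.g. for `x`: `xb`, `x(xb)` from `(b, xb)`; `y(xb) = x(yb)`; `x(x(yb))` from `(yb, x(yb))`), hence under `b ↦ cj (u κ j) b = b * (xop κ b)^j`, and under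
    `b ↦ cj (u κ j)⁻¹ b` ((7), `xop` commutes with `cj (u κ j)⁻¹`; e.g. for `κ = false`: the four elements are `cj (u κ j)⁻¹` of `b, xb, yb, x(yb)`, good by (7) applied to the pairs
    `(b, xb), (xb, x(xb)), (yb, x(yb)), (x(yb), x(x(yb)))`).  So `𝒢` contains all `cj (U n) (a k)`, i.e. `𝒢 = A`.
-/

set_option autoImplicit false

namespace Pool.Agent.MG

variable {p l : ℕ} {ζ : ZMod l} {ι G : Type} [Group G] {d : GData p l ι G}

/-- the linear algebra over `ZMod p` -/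
theorem Good_abs [Fact p.Prime] (h5 : 5 ≤ p) {M : Type} [AddCommGroup M] [Module (ZMod p) M]
    (U : Bool → Fin 5 → M ≃+ M)
    (hU0 : ∀ κ x, U κ 0 x = x)
    (hcomm : ∀ κ i κ' j x, U κ i (U κ' j x) = U κ' j (U κ i x))
    (N : Bool → ZMod p × ZMod p → AddSubgroup M) (N1 : ZMod p → AddSubgroup M)
    (hN : ∀ κ (j : Fin 5) (s : ZMod p) (x : M),
      x ∈ N1 s ↔ (∀ t, U κ j x ∈ N κ (s - nd p j * t, t)))
    (a0 : ι → M) (e0 : Bool → Bool → ι → M)
    (ha : ∀ κ (j : Fin 5) k, U κ j (a0 k) = a0 k + nd p j • (U κ 1 (a0 k) - a0 k))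
    (h00 : ∀ k s, e0 false false k - s • a0 k ∈ N1 s)
    (h10 : ∀ k s, e0 true false k - s • (U false 1 (a0 k) - a0 k) ∈ N1 s)
    (h01 : ∀ k s, e0 false true k - s • (U true 1 (a0 k) - a0 k) ∈ N1 s)
    (h11 : ∀ k s, e0 true true k - s • (U false 1 (U true 1 (a0 k) - a0 k) -
      (U true 1 (a0 k) - a0 k)) ∈ N1 s) :
    ∃ H : AddSubgroup M, (∀ k, a0 k ∈ H) ∧
      (∀ κ j, ∀ x ∈ H, U κ j x ∈ H ∧ (U κ j).symm x ∈ H) ∧
      ∀ b ∈ H, ∃ φ, ∀ s : ZMod p, φ - s • b ∈ N1 s := by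
  have h2ne : (2 : ZMod p) ≠ 0 := by
    intro h
    have h1 : ((2 : ℕ) : ZMod p) = 0 := by exact_mod_cast h
    rw [ZMod.natCast_eq_zero_iff] at h1
    have := Nat.le_of_dvd (by norm_num) h1
    omega
  obtain ⟨c, hc⟩ : ∃ c : ZMod p, 2 * c = 1 := ⟨(2 : ZMod p)⁻¹, mul_inv_cancel₀ h2ne⟩
  have nd0 : nd p 0 = 0 := by simp [nd]
  have hN0 : ∀ κ (q : ZMod p × ZMod p) x, x ∈ N1 q.1 → x ∈ N κ q := by
    intro κ q x hx
    have h1 := (hN κ 0 q.1 x).1 hx q.2
    rw [hU0, nd0, zero_mul, sub_zero] at h1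
    exact h1
  have nd1 : nd p 1 = 1 := by simp [nd]
  have nd2 : nd p 2 = 2 := by simp [nd]
  have hsmul : ∀ κ j (r : ZMod p) x, U κ j (r • x) = r • U κ j x := fun κ j r x =>
    ZMod.map_smul (U κ j) r x
  -- the operators `X κ`
  obtain ⟨X, hX⟩ : ∃ X : Bool → M → M, ∀ κ b, X κ b = U κ 1 b - b := ⟨_, fun _ _ => rfl⟩
  have Xadd : ∀ κ b b', X κ (b + b') = X κ b + X κ b' := by
    intro κ b b'
    rw [hX, hX, hX, map_add]
    abel
  have Xneg : ∀ κ b, X κ (-b) = -X κ b := by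
    intro κ b
    rw [hX, hX, map_neg]
    abel
  have Xzero : ∀ κ, X κ 0 = 0 := by
    intro κ
    rw [hX, map_zero, sub_zero]
  have Xcomm : ∀ κ κ' b, X κ (X κ' b) = X κ' (X κ b) := by
    intro κ κ' b
    simp only [hX, map_sub]
    rw [hcomm κ 1 κ' 1]
    abel
  have XU : ∀ κ κ' j b, X κ (U κ' j b) = U κ' j (X κ b) := by
    intro κ κ' j b
    simp only [hX, map_sub]
    rw [hcomm κ 1 κ' j]
  have XV : ∀ κ κ' j b, X κ ((U κ' j).symm b) = (U κ' j).symm (X κ b) := by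
    intro κ κ' j b
    apply (U κ' j).injective
    rw [← XU, AddEquiv.apply_symm_apply, AddEquiv.apply_symm_apply]
  -- linear elements
  obtain ⟨Q1, hQ1⟩ : ∃ Q1 : M → Prop, ∀ b, Q1 b ↔ ∀ κ (j : Fin 5), U κ j b = b +
      nd p j • X κ b := ⟨_, fun _ => Iff.rfl⟩
  have Q1add : ∀ φ ψ, Q1 φ → Q1 ψ → Q1 (φ + ψ) := by
    intro φ ψ h1 h2
    rw [hQ1] at h1 h2 ⊢
    intro κ j
    rw [map_add, h1, h2, Xadd]
    module
  have Q1neg : ∀ φ, Q1 φ → Q1 (-φ) := by
    intro φ h1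
    rw [hQ1] at h1 ⊢
    intro κ j
    rw [map_neg, h1, Xneg]
    module
  have Q1U : ∀ κ i φ, Q1 φ → Q1 (U κ i φ) := by
    intro κ i φ h1
    rw [hQ1] at h1 ⊢
    intro κ' j
    rw [hcomm, h1, XU, map_add, hsmul]
  have Q1V : ∀ κ i φ, Q1 φ → Q1 ((U κ i).symm φ) := by
    intro κ i φ h1
    rw [hQ1] at h1 ⊢
    intro κ' j
    apply (U κ i).injective
    rw [hcomm, map_add, hsmul, ← XU]
    simp only [AddEquiv.apply_symm_apply]
    exact h1 κ' j
  have Q1x : ∀ κ b, Q1 b → Q1 (X κ b) := by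
    intro κ b hb
    rw [hX, sub_eq_add_neg]
    exact Q1add _ _ (Q1U κ 1 b hb) (Q1neg b hb)
  -- good elements
  obtain ⟨Gd, hGd⟩ : ∃ Gd : M → Prop, ∀ b, Gd b ↔ ∃ φ, ∀ s : ZMod p, φ - s • b ∈ N1 s :=
    ⟨_, fun _ => Iff.rfl⟩
  have Gadd : ∀ b b', Gd b → Gd b' → Gd (b + b') := by
    intro b b' h1 h2
    rw [hGd] at h1 h2 ⊢
    obtain ⟨φ, h3⟩ := h1
    obtain ⟨ψ, h4⟩ := h2
    refine ⟨φ + ψ, fun s => ?_⟩
    have h7 := (N1 s).add_mem (h3 s) (h4 s)
    have h8 : φ + ψ - s • (b + b') = φ - s • b + (ψ - s • b') := by module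
    rw [h8]
    exact h7
  have Gsmul : ∀ (r : ZMod p) b, Gd b → Gd (r • b) := by
    intro r b h1
    rw [hGd] at h1 ⊢
    obtain ⟨φ, h3⟩ := h1
    refine ⟨r • φ, fun s => ?_⟩
    have h7 := ZMod.smul_mem (h3 s) r
    have h8 : r • φ - s • r • b = r • (φ - s • b) := by module
    rw [h8]
    exact h7
  have Gneg : ∀ b, Gd b → Gd (-b) := by
    intro b h1
    have h2 := Gsmul (-1) b h1
    rwa [neg_one_smul] at h2
  have Gzero : Gd 0 := by
    rw [hGd]
    refine ⟨0, fun s => ?_⟩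
    rw [smul_zero, sub_zero]
    exact (N1 s).zero_mem
  -- (3)
  have h3 : ∀ κ b φ, (∀ s : ZMod p, φ - s • b ∈ N1 s) → ∀ (j : Fin 5) (q : ZMod p × ZMod p),
      U κ j φ - (q.1 + nd p j * q.2) • U κ j b ∈ N κ q := by
    intro κ b φ h j q
    have h1 := (hN κ j (q.1 + nd p j * q.2) _).1 (h (q.1 + nd p j * q.2)) q.2
    rw [map_sub, hsmul, add_sub_cancel_right] at h1
    exact h1
  have h30 : ∀ κ b φ, (∀ s : ZMod p, φ - s • b ∈ N1 s) → ∀ (q : ZMod p × ZMod p),
      φ - q.1 • b ∈ N κ q := fun κ b φ h q => hN0 κ q _ (h q.1)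
  -- (5)
  obtain ⟨sg', hsg⟩ : ∃ sg' : Bool → M → M, ∀ κ φ, sg' κ φ =
      (2 : ZMod p) • U κ 1 φ - c • U κ 2 φ - (3 * c) • φ := ⟨_, fun _ _ => rfl⟩
  obtain ⟨pg, hpg⟩ : ∃ pg : Bool → M → M, ∀ κ φ, pg κ φ =
      c • U κ 2 φ - U κ 1 φ + c • φ := ⟨_, fun _ _ => rfl⟩
  have h5σ : ∀ κ b φ, Q1 b → (∀ s : ZMod p, φ - s • b ∈ N1 s) → ∀ q : ZMod p × ZMod p,
      sg' κ φ - (q.2 • b + q.1 • X κ b) ∈ N κ q := by
    intro κ b φ hb h q
    have e0 := h30 κ b φ h q
    have e1 := h3 κ b φ h 1 q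
    have e2 := h3 κ b φ h 2 q
    rw [(hQ1 b).1 hb κ 1, nd1] at e1
    rw [(hQ1 b).1 hb κ 2, nd2] at e2
    have h7 := (N κ q).sub_mem ((N κ q).sub_mem (ZMod.smul_mem e1 (2 : ZMod p))
      (ZMod.smul_mem e2 c)) (ZMod.smul_mem e0 (3 * c))
    have h8 : sg' κ φ - (q.2 • b + q.1 • X κ b) =
        (2 : ZMod p) • (U κ 1 φ - (q.1 + 1 * q.2) • (b + (1 : ZMod p) • X κ b)) -
        c • (U κ 2 φ - (q.1 + 2 * q.2) • (b + (2 : ZMod p) • X κ b)) -
        (3 * c) • (φ - q.1 • b) := by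
      rw [hsg]
      generalize q.1 = x
      generalize q.2 = y
      match_scalars
      · ring
      · ring
      · ring
      · linear_combination (-(2 * x + y)) * hc
      · linear_combination (-(x + 2 * y)) * hc
    rw [h8]
    exact h7
  have h5π : ∀ κ b φ, Q1 b → (∀ s : ZMod p, φ - s • b ∈ N1 s) → ∀ q : ZMod p × ZMod p,
      pg κ φ - q.2 • X κ b ∈ N κ q := by
    intro κ b φ hb h q
    have e0 := h30 κ b φ h q
    have e1 := h3 κ b φ h 1 q
    have e2 := h3 κ b φ h 2 q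
    rw [(hQ1 b).1 hb κ 1, nd1] at e1
    rw [(hQ1 b).1 hb κ 2, nd2] at e2
    have h7 := (N κ q).add_mem ((N κ q).sub_mem (ZMod.smul_mem e2 c) e1) (ZMod.smul_mem e0 c)
    have h8 : pg κ φ - q.2 • X κ b =
        c • (U κ 2 φ - (q.1 + 2 * q.2) • (b + (2 : ZMod p) • X κ b)) -
        (U κ 1 φ - (q.1 + 1 * q.2) • (b + (1 : ZMod p) • X κ b)) +
        c • (φ - q.1 • b) := by
      rw [hpg]
      generalize q.1 = x
      generalize q.2 = y
      match_scalars
      · ring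
      · ring
      · ring
      · linear_combination (x + 2 * y) * hc
      · linear_combination (x + y) * hc
    rw [h8]
    exact h7
  -- a criterion for goodness
  have hcrit : ∀ κ b ψ, (∀ q : ZMod p × ZMod p, ψ - q.1 • b ∈ N κ q) →
      ∀ s : ZMod p, ψ - s • b ∈ N1 s := by
    intro κ b ψ h s
    rw [hN κ 0]
    intro t
    rw [hU0, nd0, zero_mul, sub_zero]
    exact h (s, t)
  -- (6)
  have h6 : ∀ κ b, Q1 b → Gd b → Gd (X κ b) → Gd (X κ (X κ b)) := by
    intro κ b hb h1 h2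
    rw [hGd] at h1 h2 ⊢
    obtain ⟨φ, h4⟩ := h1
    obtain ⟨ψ, h5⟩ := h2
    refine ⟨sg' κ ψ - pg κ φ, hcrit κ _ _ ?_⟩
    intro q
    have e1 := h5σ κ _ ψ (Q1x κ b hb) h5 q
    have e2 := h5π κ _ φ hb h4 q
    have h7 := (N κ q).sub_mem e1 e2
    have h8 : ∀ A B C D : M, A - B - C = (A - (D + C)) - (B - D) := by
      intro A B C D
      abel
    rw [h8 _ _ _ (q.2 • X κ b)]
    exact h7
  -- (7)
  have h7 : ∀ κ j b, Q1 b → Gd b → Gd (X κ b) → Gd ((U κ j).symm b) := by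
    intro κ j b hb h1 h2
    rw [hGd] at h1 h2 ⊢
    obtain ⟨φ, h4⟩ := h1
    obtain ⟨ψ, h5⟩ := h2
    obtain ⟨χ, hχ⟩ : ∃ χ, χ = φ + nd p j • (sg' κ φ - ψ) := ⟨_, rfl⟩
    refine ⟨(U κ j).symm χ, ?_⟩
    have e0 : ∀ q : ZMod p × ZMod p, χ - (q.1 + nd p j * q.2) • b ∈ N κ q := by
      intro q
      have e1 := h5σ κ _ φ hb h4 q
      have e2 := (N κ q).add_mem (h30 κ b φ h4 q)
        (ZMod.smul_mem ((N κ q).sub_mem e1 (h30 κ _ ψ h5 q)) (nd p j))
      have h8 : χ - (q.1 + nd p j * q.2) • b = φ - q.1 • b +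
          nd p j • (sg' κ φ - (q.2 • b + q.1 • X κ b) - (ψ - q.1 • X κ b)) := by
        rw [hχ]
        module
      rw [h8]
      exact e2
    intro s
    rw [hN κ j]
    intro t
    rw [map_sub, hsmul, AddEquiv.apply_symm_apply, AddEquiv.apply_symm_apply]
    have e2 := e0 (s - nd p j * t, t)
    simp only [sub_add_cancel] at e2
    exact e2
  refine ⟨{ carrier := {b | Q1 b ∧ Gd b ∧ (∀ κ, Gd (X κ b)) ∧ Gd (X false (X true b))}
            zero_mem' := ?_
            add_mem' := ?_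
            neg_mem' := ?_ }, ?_, ?_, ?_⟩
  · rintro b b' ⟨h8, h9, h10, h11⟩ ⟨h8', h9', h10', h11'⟩
    refine ⟨Q1add _ _ h8 h8', Gadd _ _ h9 h9', ?_, ?_⟩
    · intro κ
      rw [Xadd]
      exact Gadd _ _ (h10 κ) (h10' κ)
    · rw [Xadd, Xadd]
      exact Gadd _ _ h11 h11'
  · refine ⟨(hQ1 0).2 (fun κ j => by simp [Xzero]), Gzero, ?_, ?_⟩
    · intro κ
      rw [Xzero]
      exact Gzero
    · rw [Xzero, Xzero]
      exact Gzero
  · rintro b ⟨h8, h9, h10, h11⟩
    refine ⟨Q1neg _ h8, Gneg _ h9, ?_, ?_⟩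
    · intro κ
      rw [Xneg]
      exact Gneg _ (h10 κ)
    · rw [Xneg, Xneg]
      exact Gneg _ h11
  · intro k
    refine ⟨(hQ1 _).2 (fun κ j => by rw [hX]; exact ha κ j k), (hGd _).2 ⟨_, h00 k⟩, ?_, ?_⟩
    · intro κ
      rw [hX, hGd]
      cases κ
      · exact ⟨_, h10 k⟩
      · exact ⟨_, h01 k⟩
    · rw [hX true, hX false, hGd]
      exact ⟨_, h11 k⟩
  · intro κ j b hb
    obtain ⟨h8, h9, h10, h11⟩ := hb
    obtain ⟨κ', hκ⟩ : ∃ κ' : Bool, κ' = !κ := ⟨_, rfl⟩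
    have h12 : Gd (X κ (X κ' b)) := by
      cases κ
      · rw [hκ]
        exact h11
      · rw [hκ, Xcomm]
        exact h11
    have hall : ∀ b', (Gd (X κ b') ∧ Gd (X κ' b') ∧ Gd (X κ (X κ' b'))) →
        (∀ κ, Gd (X κ b')) ∧ Gd (X false (X true b')) := by
      rintro b' ⟨k1, k2, k3⟩
      cases κ
      · rw [hκ] at k2 k3
        refine ⟨fun κ => ?_, k3⟩
        cases κ
        · exact k1
        · exact k2
      · rw [hκ] at k2 k3
        rw [Xcomm] at k3
        refine ⟨fun κ => ?_, k3⟩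
        cases κ
        · exact k2
        · exact k1
    have g1 := h6 κ b h8 h9 (h10 κ)
    have g2 := h6 κ (X κ' b) (Q1x κ' b h8) (h10 κ') h12
    refine ⟨⟨Q1U _ _ _ h8, ?_, hall _ ⟨?_, ?_, ?_⟩⟩, ⟨Q1V _ _ _ h8, h7 κ j b h8 h9 (h10 κ),
      hall _ ⟨?_, ?_, ?_⟩⟩⟩
    · rw [(hQ1 b).1 h8 κ j]
      exact Gadd _ _ h9 (Gsmul _ _ (h10 κ))
    · rw [XU, (hQ1 _).1 (Q1x κ b h8) κ j]
      exact Gadd _ _ (h10 κ) (Gsmul _ _ g1)
    · rw [XU, (hQ1 _).1 (Q1x κ' b h8) κ j]
      exact Gadd _ _ (h10 κ') (Gsmul _ _ h12)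
    · rw [XU, XU, (hQ1 _).1 (Q1x κ _ (Q1x κ' b h8)) κ j]
      exact Gadd _ _ h12 (Gsmul _ _ g2)
    · rw [XV]
      exact h7 κ j _ (Q1x κ b h8) (h10 κ) g1
    · rw [XV]
      exact h7 κ j _ (Q1x κ' b h8) (h10 κ') h12
    · rw [XV, XV]
      exact h7 κ j _ (Q1x κ _ (Q1x κ' b h8)) h12 g2
  · rintro b ⟨-, h9, -, -⟩
    exact (hGd b).1 h9

theorem Good_cj_iff (x y z : G) : cj x z = cj y z ↔ Commute (y⁻¹ * x) z := by
  rw [← cj_eq_self, ← cj_cj]
  constructor
  · intro h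
    rw [h, cj_inv_cj]
  · intro h
    rw [← cj_inj y⁻¹, h, cj_inv_cj]

/-- the function with value `w` on the line `q.1 + nd p j * q.2 = s` -/
theorem Good_line_sum [NeZero p] (j : Fin 5) (s : ZMod p) (w : ZMod l) :
    (fun q : ZMod p × ZMod p => (Pi.single s w : ZMod p → ZMod l) (q.1 + nd p j * q.2)) =
      ∑ t : ZMod p, (Pi.single ((s - nd p j * t, t) : ZMod p × ZMod p) w :
        ZMod p × ZMod p → ZMod l) := by
  funext q
  rw [Finset.sum_apply]
  obtain ⟨x, y⟩ := q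
  rw [Finset.sum_eq_single y]
  · rw [Pi.single_apply, Pi.single_apply]
    by_cases h : x + nd p j * y = s
    · rw [if_pos h, if_pos]
      rw [← h, add_sub_cancel_right]
    · rw [if_neg h, if_neg]
      intro h1
      rw [Prod.mk.injEq] at h1
      exact h (by rw [h1.1]; ring)
  · intro t _ ht
    rw [Pi.single_apply, if_neg]
    intro h1
    rw [Prod.mk.injEq] at h1
    exact ht h1.2.symm
  · intro h
    exact absurd (Finset.mem_univ y) h

/-- the centralizer of one element -/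
theorem Good_B (R : GRel ζ d) [NeZero p] (κ : Bool) (i : ι) (j : Fin 5) (s : ZMod p) (c : G)
    (h : ∀ (t : ZMod p) (w : ZMod l),
      Commute c (d.D κ i (Pi.single ((s - nd p j * t, t) : ZMod p × ZMod p) w))) (w : ZMod l) :
    Commute c (d.D κ i (fun q => (Pi.single s w : ZMod p → ZMod l) (q.1 + nd p j * q.2))) := by
  rw [Good_line_sum]
  have h1 := R.D_sum κ i (Finset.univ : Finset (ZMod p))
    (fun t => (Pi.single ((s - nd p j * t, t) : ZMod p × ZMod p) w :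
      ZMod p × ZMod p → ZMod l)) (Subgroup.centralizer {c}) (by
      intro t _
      rw [Subgroup.mem_centralizer_singleton_iff]
      exact (h t w).symm.eq)
  rw [Subgroup.mem_centralizer_singleton_iff] at h1
  exact Commute.symm h1

/-- `P` as a commutative group -/
@[reducible] def Good_comm (R : GRel ζ d) : CommGroup d.P :=
  { (inferInstance : Group d.P) with
    mul_comm := fun x y => Subtype.ext (R.P_comm x.1 x.2 y.1 y.2).eq }

theorem good (hp : Par p l ζ) (R : GRel ζ d) (i : ι) :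
    ∀ b ∈ d.A, ∃ φ ∈ d.P, ∀ (s : ZMod p) (w : ZMod l),
      cj φ (d.D1 i (Pi.single s w)) = cj (zp b s) (d.D1 i (Pi.single s w)) := by
  classical
  have : Fact p.Prime := ⟨hp.p_prime⟩
  have : NeZero p := ⟨hp.p_prime.ne_zero⟩
  let instC : CommGroup d.P := Good_comm R
  let instM : Module (ZMod p) (Additive d.P) :=
    AddCommGroup.zmodModule (n := p) (G := Additive d.P) (by
      intro x
      apply Additive.toMul.injective
      apply Subtype.ext
      exact R.P_pow _ (Additive.toMul x).2)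
  obtain ⟨toG, htoG⟩ : ∃ toG : Additive d.P → G, ∀ x, toG x = ((Additive.toMul x : d.P) : G) :=
    ⟨_, fun _ => rfl⟩
  have tinj : ∀ x y, toG x = toG y → x = y := by
    intro x y h
    rw [htoG, htoG] at h
    exact Additive.toMul.injective (Subtype.ext h)
  have tadd : ∀ x y, toG (x + y) = toG x * toG y := by
    intro x y
    rw [htoG, htoG, htoG]
    rfl
  have tneg : ∀ x, toG (-x) = (toG x)⁻¹ := by
    intro x
    rw [htoG, htoG]
    rfl
  have tzero : toG 0 = 1 := by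
    rw [htoG]
    rfl
  have tsub : ∀ x y, toG (x - y) = (toG y)⁻¹ * toG x := by
    intro x y
    rw [sub_eq_neg_add, tadd, tneg]
  have tnsmul : ∀ (n : ℕ) x, toG (n • x) = toG x ^ n := by
    intro n x
    rw [htoG, htoG]
    rfl
  have tsmul : ∀ (c : ZMod p) x, toG (c • x) = zp (toG x) c := by
    intro c x
    unfold zp
    rw [← tnsmul, ← Nat.cast_smul_eq_nsmul (ZMod p), ZMod.natCast_zmod_val]
  have tmem : ∀ x, toG x ∈ d.P := by
    intro x
    rw [htoG]
    exact (Additive.toMul x).2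
  have texists : ∀ g ∈ d.P, ∃ x, toG x = g := by
    intro g hg
    exact ⟨Additive.ofMul ⟨g, hg⟩, by rw [htoG]; rfl⟩
  have tof : ∀ (g : G) (hg : g ∈ d.P), toG (Additive.ofMul (⟨g, hg⟩ : d.P)) = g := by
    intro g hg
    rw [htoG]
    rfl
  obtain ⟨U, hU⟩ : ∃ U : Bool → Fin 5 → (Additive d.P ≃+ Additive d.P),
      ∀ κ j x, toG (U κ j x) = cj (d.u κ j) (toG x) := by
    refine ⟨fun κ j =>
      { toFun := fun x => Additive.ofMul ⟨cj (d.u κ j) (toG x), R.cj_u_P κ j _ (tmem x)⟩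
        invFun := fun x => Additive.ofMul ⟨cj (d.u κ j)⁻¹ (toG x), R.cj_u_inv_P κ j _ (tmem x)⟩
        left_inv := ?_
        right_inv := ?_
        map_add' := ?_ }, ?_⟩
    · intro x
      apply tinj
      rw [tof]
      change cj (d.u κ j)⁻¹ (toG (Additive.ofMul (⟨cj (d.u κ j) (toG x), _⟩ : d.P))) = toG x
      rw [tof, cj_inv_cj]
    · intro x
      apply tinj
      rw [tof]
      change cj (d.u κ j) (toG (Additive.ofMul (⟨cj (d.u κ j)⁻¹ (toG x), _⟩ : d.P))) = toG x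
      rw [tof, cj_cj_inv]
    · intro x y
      apply tinj
      rw [tof, tadd x y, tadd, tof, tof, cj_mul]
    · intro κ j x
      rw [htoG]
      rfl
  obtain ⟨N, hN⟩ : ∃ N : Bool → ZMod p × ZMod p → AddSubgroup (Additive d.P), ∀ κ q x,
      x ∈ N κ q ↔ ∀ w : ZMod l, Commute (toG x) (d.D κ i (Pi.single q w)) := by
    refine ⟨fun κ q =>
      { carrier := {x | ∀ w : ZMod l, Commute (toG x) (d.D κ i (Pi.single q w))}
        zero_mem' := ?_
        add_mem' := ?_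
        neg_mem' := ?_ }, ?_⟩
    · intro x y hx hy g
      rw [tadd]
      exact (hx g).mul_left (hy g)
    · intro g
      rw [tzero]
      exact Commute.one_left _
    · intro x hx g
      rw [tneg]
      exact (hx g).inv_left
    · intro κ p x
      exact Iff.rfl
  obtain ⟨N1, hN1⟩ : ∃ N1 : ZMod p → AddSubgroup (Additive d.P), ∀ s x,
      x ∈ N1 s ↔ ∀ w : ZMod l, Commute (toG x) (d.D1 i (Pi.single s w)) := by
    refine ⟨fun s =>
      { carrier := {x | ∀ w : ZMod l, Commute (toG x) (d.D1 i (Pi.single s w))}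
        zero_mem' := ?_
        add_mem' := ?_
        neg_mem' := ?_ }, ?_⟩
    · intro x y hx hy g
      rw [tadd]
      exact (hx g).mul_left (hy g)
    · intro g
      rw [tzero]
      exact Commute.one_left _
    · intro x hx g
      rw [tneg]
      exact (hx g).inv_left
    · intro p x
      exact Iff.rfl
  have hXP : ∀ κ, xop d.u κ (d.a i) ∈ d.P := fun κ =>
    R.xop_P κ _ (GRel.A_le_P (GRel.a_mem_A i))
  have hA : ∀ κ (j : Fin 5) (s : ZMod p) (c : G), c ∈ d.P →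
      (∀ w : ZMod l, Commute c
        (d.D κ i (fun q => (Pi.single s w : ZMod p → ZMod l) (q.1 + nd p j * q.2)))) →
      ∀ (t : ZMod p) (w : ZMod l),
        Commute c (d.D κ i (Pi.single ((s - nd p j * t, t) : ZMod p × ZMod p) w)) := by
    intro κ j s c hc h t w
    have h1 := fine hp R κ i j s (Subgroup.centralizer {c}) (by
      intro w
      rw [Subgroup.mem_centralizer_singleton_iff]
      have h2 := h w
      simp only [Pi.single_apply] at h2
      exact h2.symm.eq) (by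
      intro x hx
      rw [Subgroup.mem_centralizer_singleton_iff] at hx ⊢
      have h2 : Commute c (cj (xop d.u κ (d.a i)) x) := by
        have h3 : Commute x c := hx
        have h4 := R.P_comm c hc _ (hXP κ)
        exact (h4.mul_right h3.symm).mul_right h4.inv_right
      exact h2.symm.eq) t w
    rw [Subgroup.mem_centralizer_singleton_iff] at h1
    exact Commute.symm h1
  have hline : ∀ κ (j : Fin 5) (s : ZMod p) (w : ZMod l),
      cj (d.u κ j) (d.D1 i (Pi.single s w)) =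
        d.D κ i (fun q => (Pi.single s w : ZMod p → ZMod l) (q.1 + nd p j * q.2)) := by
    intro κ j s w
    rw [← R.D_fst κ i]
    exact R.line κ i j _
  choose a0 ha0 using fun k => texists (d.a k) (GRel.A_le_P (GRel.a_mem_A k))
  choose e0 he0 using fun α β k => texists (d.e α β i k)
    (GRel.gen_mem_P _ (GRel.e_mem_gens α β i k))
  have hX : ∀ κ x, toG (U κ 1 x - x) = xop d.u κ (toG x) := by
    intro κ x
    rw [sub_eq_add_neg, tadd, tneg, hU]
    rfl
  have hzpow : ∀ (g : G) (j : Fin 5), g ^ p = 1 → g ^ (j : ℕ) = zp g (nd p j) := by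
    intro g j hg
    exact pow_eq_zp hg _
  obtain ⟨H, hH1, hH2, hH3⟩ := Good_abs (ι := ι) hp.p_ge U
    (by
      intro κ x
      apply tinj
      rw [hU, R.u_zero, one_cj])
    (by
      intro κ i κ' j x
      apply tinj
      rw [hU, hU, hU, hU, cj_cj, cj_cj, (R.u_comm κ i κ' j).eq])
    N N1
    (by
      intro κ j s x
      constructor
      · intro h
        have h2 : ∀ w : ZMod l, Commute (toG (U κ j x))
            (d.D κ i (fun q => (Pi.single s w : ZMod p → ZMod l) (q.1 + nd p j * q.2))) := by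
          intro w
          rw [hU, ← hline, cj_commute]
          exact (hN1 _ _).1 h w
        intro t
        rw [hN]
        exact hA κ j s _ (tmem _) h2 t
      · intro h
        have h1 := Good_B R κ i j s (toG (U κ j x)) (by
          intro t w
          exact (hN _ _ _).1 (h t) w)
        rw [hN1]
        intro w
        rw [← cj_commute (d.u κ j), hline, ← hU]
        exact h1 w)
    a0 e0
    (by
      intro κ j k
      apply tinj
      rw [hU, ha0, tadd, tsmul, ha0, hX, ha0, ← hzpow]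
      · exact R.a_lin κ j k
      · exact R.P_pow _ (R.xop_P κ _ (GRel.A_le_P (GRel.a_mem_A k))))
    (by
      intro k s
      rw [hN1]
      intro w
      rw [tsub, tsmul, ha0, he0, ← Good_cj_iff]
      exact R.e_D false false i k s w)
    (by
      intro k s
      rw [hN1]
      intro w
      rw [tsub, tsmul, hX, ha0, he0, ← Good_cj_iff]
      exact R.e_D true false i k s w)
    (by
      intro k s
      rw [hN1]
      intro w
      rw [tsub, tsmul, hX, ha0, he0, ← Good_cj_iff]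
      exact R.e_D false true i k s w)
    (by
      intro k s
      rw [hN1]
      intro w
      rw [tsub, tsmul, hX, hX, ha0, he0, ← Good_cj_iff]
      exact R.e_D true true i k s w)
  -- all elements of `A` come from `H`
  obtain ⟨H', hH'⟩ : ∃ H' : Subgroup G, ∀ x, x ∈ H' ↔ ∃ y ∈ H, toG y = x := by
    refine ⟨{ carrier := {x | ∃ y ∈ H, toG y = x}
              one_mem' := ⟨0, H.zero_mem, tzero⟩
              mul_mem' := ?_
              inv_mem' := ?_ }, fun x => Iff.rfl⟩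
    · rintro _ _ ⟨y, hy, rfl⟩ ⟨y', hy', rfl⟩
      exact ⟨y + y', H.add_mem hy hy', tadd _ _⟩
    · rintro _ ⟨y, hy, rfl⟩
      exact ⟨-y, H.neg_mem hy, tneg _⟩
  have hu1 : ∀ κ j, ∀ x ∈ H', cj (d.u κ j) x ∈ H' := by
    intro κ j x hx
    rw [hH'] at hx ⊢
    obtain ⟨y, hy, rfl⟩ := hx
    exact ⟨U κ j y, (hH2 κ j y hy).1, hU κ j y⟩
  have hu2 : ∀ κ j, ∀ x ∈ H', cj (d.u κ j)⁻¹ x ∈ H' := by
    intro κ j x hx
    rw [hH'] at hx ⊢
    obtain ⟨y, hy, rfl⟩ := hx
    refine ⟨(U κ j).symm y, (hH2 κ j y hy).2, ?_⟩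
    rw [← cj_inj (d.u κ j), ← hU, AddEquiv.apply_symm_apply, cj_cj_inv]
  have hupow : ∀ κ j (n : ℤ), ∀ x ∈ H', cj (d.u κ j ^ n) x ∈ H' := by
    intro κ j n
    induction n using Int.induction_on with
    | zero =>
      intro x hx
      rw [zpow_zero, one_cj]
      exact hx
    | succ n ih =>
      intro x hx
      rw [zpow_add_one, ← cj_cj]
      exact ih _ (hu1 κ j x hx)
    | pred n ih =>
      intro x hx
      rw [zpow_sub_one, ← cj_cj]
      exact ih _ (hu2 κ j x hx)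
  have hU4 : ∀ κ n, ∀ x ∈ H', cj (UU4 (d.u κ) n) x ∈ H' := by
    intro κ n x hx
    unfold UU4
    rw [← cj_cj, ← cj_cj, ← cj_cj]
    exact hupow _ _ _ _ (hupow _ _ _ _ (hupow _ _ _ _ (hupow _ _ _ _ hx)))
  have hAH : d.A ≤ H' := by
    refine (Subgroup.closure_le _).2 ?_
    rintro _ ⟨n, k, rfl⟩
    show cj (d.U n) (d.a k) ∈ H'
    unfold GData.U UU
    rw [← cj_cj]
    exact hU4 _ _ _ (hU4 _ _ _ ((hH' _).2 ⟨a0 k, hH1 k, ha0 k⟩))
  intro b hb
  obtain ⟨y, hy, rfl⟩ := (hH' b).1 (hAH hb)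
  obtain ⟨φ, hφ⟩ := hH3 y hy
  refine ⟨toG φ, tmem φ, ?_⟩
  intro s w
  have h2 := (hN1 _ _).1 (hφ s) w
  rw [tsub, tsmul] at h2
  rw [Good_cj_iff]
  exact h2

end Pool.Agent.MG
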