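import Pool.Agent.MG.Block

/-!
MG LayerAb.  The normal closure `d.N = closure {cj b c | b ∈ A}` is abelian.

PROOF (compare the proved /team-store/h9_NL_LayerOne.lean, part (1), and /team-store/h9_NL_Isolate.lean).
For `n : Ex`, `i : ι` let `aq := cj (U n) (a i)` and let `C s` (`s : ZMod p`) be the closure of all `cj b (Dq n i (single s w))`, `b ∈ A`.  By `block`, `C s` and `C t` commute for
`s ≠ t`; each `C s` is stable under conjugation by `A`.  `Dq n i` is a homomorphism in `f` (`Dqh`), `Dq n i (const w) = c ^ w.val` (`Dq_const`), `cj aq (Dq n i f) = Dq n i (χ f)` (`a_Dq`).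

Claim: `Commute c (cj b c)` for all `b ∈ A`.  Induction on `b` by right multiplication with generators `aq` (`aq⁻¹ = aq^(p-1)`, apply the step `p - 1` times;
`Subgroup.closure_induction_right`; `A` is abelian by `P_comm`).  Suppose it holds for `b`, and fix `n, i`.
For `s : ZMod p` put `x s := Dq n i (single s 1) ∈ C s`, `y s := cj b (x s) ∈ C s`, `z s := x s * y s * (x s)⁻¹ * (y s)⁻¹ ∈ C s`.
For `f, g : ZMod p → ZMod l` put `Φ f g := [Dq n i f, cj b (Dq n i g)]`.
TWO-BLOCK LEMMA: `Dq n i f = x' * x''` with `x' = Dq n i (single s (f s)) ∈ C s` and `x'' = Dq n i (f - single s (f s)) ∈ ⨆_{t≠s} C t`, likewise for `g`; since these commute,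
`Φ f g = [x', y'] * [x'', y'']`.  So if `Φ f g = 1` then `[x', y'] = [x'', y'']⁻¹` commutes with all `C t`.  By hypothesis `Φ 1 1 = 1` (constant functions), so every `z s` commutes with all `C t`;
and then `Φ f g = ∏_s z s ^ (f s * g s).val` (the `z s` are central in `⨆ C t`, of order dividing `l`; induction on the support, or bilinearity of `Φ`).
So `∏_s z s = 1`; conjugating by `aq ^ m`, and since `aq` commutes with `b`, `Φ (χ^m) (χ^m) = 1`, i.e. `∏_s z s ^ (ζ^(2 m s)) = 1` for all `m < p`
(exponents mod `l`).  The `m`-th of these to the power `ζ^(-2 m r)`, multiplied over `m < p`: `∏_s z s ^ (∑_m ζ^(2 m (s - r))) = z r ^ p = 1` (`Par.geom`, `2` is invertible mod `p`); so `z r = 1` as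
`z r ^ l = 1` and `gcd(p, l) = 1`.  Therefore `x r` commutes with `y r`, hence with all `y t`; all `Dq n i f` commute with all `cj b (Dq n i g)`; and
`cj (b * aq) c = cj b (Dq n i χ)` commutes with `c = Dq n i 1`.
Then the claim gives `N` abelian (`cj b c` and `cj b' c` commute iff `c` and `cj (b⁻¹ b') c` do).
-/

set_option autoImplicit false

namespace Pool.Agent.MG

section abstractpart

variable {p l : ℕ} {ζ : ZMod l} {G : Type} [Group G]

private theorem la_zero {X : (ZMod p → ZMod l) → G} (hX : ∀ f g, X (f + g) = X f * X g) :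
    X 0 = 1 := by
  have h := hX 0 0
  rw [add_zero] at h
  exact left_eq_mul.mp h

private theorem la_comm {X : (ZMod p → ZMod l) → G} (hX : ∀ f g, X (f + g) = X f * X g)
    (f g : ZMod p → ZMod l) : Commute (X f) (X g) := by
  unfold Commute SemiconjBy
  rw [← hX, ← hX, add_comm]

private theorem la_nsmul {X : (ZMod p → ZMod l) → G} (hX : ∀ f g, X (f + g) = X f * X g)
    (f : ZMod p → ZMod l) (n : ℕ) : X (n • f) = X f ^ n := by
  induction n with
  | zero => rw [zero_smul, la_zero hX, pow_zero]
  | succ n ih => rw [succ_nsmul, hX, ih, pow_succ]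

private theorem la_single [NeZero l] {X : (ZMod p → ZMod l) → G}
    (hX : ∀ f g, X (f + g) = X f * X g) (s : ZMod p) (w : ZMod l) :
    X (Pi.single s w) = zp (X (Pi.single s 1)) w := by
  unfold zp
  rw [← la_nsmul hX]
  congr 1
  funext t
  rw [Pi.smul_apply]
  by_cases h : t = s
  · subst h
    rw [Pi.single_eq_same, Pi.single_eq_same, nsmul_eq_mul, ZMod.natCast_zmod_val, mul_one]
  · rw [Pi.single_eq_of_ne h, Pi.single_eq_of_ne h, smul_zero]

private theorem la_pow_l {X : (ZMod p → ZMod l) → G} (hX : ∀ f g, X (f + g) = X f * X g)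
    (f : ZMod p → ZMod l) : X f ^ l = 1 := by
  rw [← la_nsmul hX, ← la_zero hX]
  congr 1
  funext t
  rw [Pi.smul_apply, nsmul_eq_mul, CharP.cast_eq_zero, zero_mul, Pi.zero_apply]

private theorem la_ind [NeZero p] (P : (ZMod p → ZMod l) → Prop) (h0 : P 0)
    (hs : ∀ s w f, P f → P (Pi.single s w + f)) (f : ZMod p → ZMod l) : P f := by
  classical
  have h : ∀ T : Finset (ZMod p), P (∑ s ∈ T, Pi.single s (f s)) := by
    intro T
    induction T using Finset.induction_on with
    | empty => rw [Finset.sum_empty]; exact h0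
    | insert s T hs' ih => rw [Finset.sum_insert hs']; exact hs _ _ _ ih
  have h2 := h Finset.univ
  rwa [Finset.univ_sum_single f] at h2

private theorem la_ind0 [NeZero p] (r : ZMod p) (P : (ZMod p → ZMod l) → Prop) (h0 : P 0)
    (hs : ∀ s w f, s ≠ r → P f → P (Pi.single s w + f)) (f : ZMod p → ZMod l) (hf : f r = 0) :
    P f := by
  classical
  have h : ∀ T : Finset (ZMod p), P (∑ s ∈ T, Pi.single s (f s)) := by
    intro T
    induction T using Finset.induction_on with
    | empty => rw [Finset.sum_empty]; exact h0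
    | insert s T hs' ih =>
      rw [Finset.sum_insert hs']
      by_cases hsr : s = r
      · subst hsr
        rw [hf, Pi.single_zero, zero_add]
        exact ih
      · exact hs _ _ _ hsr ih
  have h2 := h Finset.univ
  rwa [Finset.univ_sum_single f] at h2

/-- two blocks -/
private theorem la_two {x x' y y' : G} (h1 : Commute x x') (h2 : Commute y y')
    (h3 : Commute x y') (h4 : Commute x' y) (h : Commute (x * x') (y * y')) :
    Commute (x⁻¹ * y⁻¹ * x * y) x ∧ Commute (x⁻¹ * y⁻¹ * x * y) y := by
  have e : (x * y) * (x' * y') = (y * x) * (y' * x') := by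
    calc (x * y) * (x' * y') = x * (y * x') * y' := by simp only [mul_assoc]
      _ = x * (x' * y) * y' := by rw [h4.eq]
      _ = (x * x') * (y * y') := by simp only [mul_assoc]
      _ = (y * y') * (x * x') := h.eq
      _ = y * (y' * x) * x' := by simp only [mul_assoc]
      _ = y * (x * y') * x' := by rw [h3.eq]
      _ = (y * x) * (y' * x') := by simp only [mul_assoc]
  have e2 : x⁻¹ * y⁻¹ * x * y = (y' * x') * (x' * y')⁻¹ := by
    rw [eq_mul_inv_iff_mul_eq]
    calc x⁻¹ * y⁻¹ * x * y * (x' * y') = x⁻¹ * y⁻¹ * ((x * y) * (x' * y')) := by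
          simp only [mul_assoc]
      _ = x⁻¹ * y⁻¹ * ((y * x) * (y' * x')) := by rw [e]
      _ = y' * x' := by group
  rw [e2]
  constructor
  · exact ((h3.symm).mul_left h1.symm).mul_left ((h1.symm).mul_left h3.symm).inv_left
  · exact ((h2.symm).mul_left h4).mul_left (h4.mul_left h2.symm).inv_left

/-- commutators of powers if the commutator is central -/
private theorem la_pow {x y z : G} (hz : x * y = y * x * z) (hx : Commute z x) (hy : Commute z y)
    (m n : ℕ) : x ^ m * y ^ n = y ^ n * x ^ m * z ^ (m * n) := by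
  have h1 : ∀ n : ℕ, x * y ^ n = y ^ n * x * z ^ n := by
    intro n
    induction n with
    | zero => simp
    | succ n ih =>
      calc x * y ^ (n + 1) = (x * y ^ n) * y := by rw [pow_succ]; simp only [mul_assoc]
        _ = y ^ n * x * (z ^ n * y) := by rw [ih]; simp only [mul_assoc]
        _ = y ^ n * (x * y) * z ^ n := by rw [(hy.pow_left n).eq]; simp only [mul_assoc]
        _ = y ^ n * (y * x * z) * z ^ n := by rw [hz]
        _ = y ^ (n + 1) * x * z ^ (n + 1) := by
            rw [pow_succ y, pow_succ' z]; simp only [mul_assoc]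
  induction m with
  | zero => simp
  | succ m ih =>
    calc x ^ (m + 1) * y ^ n = x * (x ^ m * y ^ n) := by rw [pow_succ']; simp only [mul_assoc]
      _ = x * y ^ n * x ^ m * z ^ (m * n) := by rw [ih]; simp only [mul_assoc]
      _ = y ^ n * x * (z ^ n * x ^ m) * z ^ (m * n) := by rw [h1]; simp only [mul_assoc]
      _ = y ^ n * x * (x ^ m * z ^ n) * z ^ (m * n) := by rw [((hx.pow_left n).pow_right m).eq]
      _ = y ^ n * x ^ (m + 1) * z ^ ((m + 1) * n) := by
          rw [pow_succ' x, add_mul, one_mul, pow_add, ← pow_add z (m * n), add_comm (m * n) n,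
            pow_add]
          simp only [mul_assoc]

/-- the commutator of `X f` and `Y g` -/
private def lac (X Y : (ZMod p → ZMod l) → G) (f g : ZMod p → ZMod l) : G :=
  (X f)⁻¹ * (Y g)⁻¹ * X f * Y g

private theorem lac_spec (X Y : (ZMod p → ZMod l) → G) (f g : ZMod p → ZMod l) :
    X f * Y g = Y g * X f * lac X Y f g := by
  unfold lac
  group

private theorem lac_eq {X Y : (ZMod p → ZMod l) → G} {f g : ZMod p → ZMod l} {z : G}
    (h : X f * Y g = Y g * X f * z) : lac X Y f g = z := by
  rw [lac_spec X Y f g] at h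
  exact mul_left_cancel h

private theorem lac_one_iff {X Y : (ZMod p → ZMod l) → G} {f g : ZMod p → ZMod l} :
    lac X Y f g = 1 ↔ Commute (X f) (Y g) := by
  constructor
  · intro h
    have h2 := lac_spec X Y f g
    rw [h, mul_one] at h2
    exact h2
  · intro h
    apply lac_eq
    rw [mul_one]
    exact h

private theorem lac_add_left {X Y : (ZMod p → ZMod l) → G} (hX : ∀ f g, X (f + g) = X f * X g)
    {f f' g : ZMod p → ZMod l} (h : Commute (lac X Y f g) (X f')) :
    lac X Y (f + f') g = lac X Y f g * lac X Y f' g := by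
  apply lac_eq
  rw [hX]
  calc X f * X f' * Y g = X f * (X f' * Y g) := by simp only [mul_assoc]
    _ = X f * Y g * X f' * lac X Y f' g := by rw [lac_spec X Y f' g]; simp only [mul_assoc]
    _ = Y g * X f * (lac X Y f g * X f') * lac X Y f' g := by
        rw [lac_spec X Y f g]; simp only [mul_assoc]
    _ = Y g * (X f * X f') * (lac X Y f g * lac X Y f' g) := by
        rw [h.eq]; simp only [mul_assoc]

private theorem lac_add_right {X Y : (ZMod p → ZMod l) → G} (hY : ∀ f g, Y (f + g) = Y f * Y g)
    {f g g' : ZMod p → ZMod l} (h : Commute (lac X Y f g) (Y g')) :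
    lac X Y f (g + g') = lac X Y f g' * lac X Y f g := by
  apply lac_eq
  rw [hY]
  calc X f * (Y g * Y g') = X f * Y g * Y g' := by simp only [mul_assoc]
    _ = Y g * X f * (lac X Y f g * Y g') := by rw [lac_spec X Y f g]; simp only [mul_assoc]
    _ = Y g * (X f * Y g') * lac X Y f g := by rw [h.eq]; simp only [mul_assoc]
    _ = Y g * Y g' * X f * (lac X Y f g' * lac X Y f g) := by
        rw [lac_spec X Y f g']; simp only [mul_assoc]

private theorem la_main (hp : Par p l ζ) (X Y : (ZMod p → ZMod l) → G)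
    (hX : ∀ f g, X (f + g) = X f * X g) (hY : ∀ f g, Y (f + g) = Y f * Y g)
    (a : G) (haX : ∀ f, cj a (X f) = X (fun s => chi ζ s * f s))
    (haY : ∀ f, cj a (Y f) = Y (fun s => chi ζ s * f s))
    (hb : ∀ s t, s ≠ t → ∀ w w', Commute (X (Pi.single s w)) (Y (Pi.single t w')))
    (h1 : Commute (X (fun _ => 1)) (Y (fun _ => 1))) :
    ∀ f g, Commute (X f) (Y g) := by
  have hpp : Fact p.Prime := ⟨hp.p_prime⟩
  have hll : Fact l.Prime := ⟨hp.l_prime⟩
  have hXr : ∀ r w g, g r = 0 → Commute (X (Pi.single r w)) (Y g) := by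
    intro r w g hg
    refine la_ind0 r (fun g => Commute (X (Pi.single r w)) (Y g)) ?_ ?_ g hg
    · rw [la_zero hY]
      exact Commute.one_right _
    · intro s w' g' hs hg'
      rw [hY]
      exact (hb r s (Ne.symm hs) w w').mul_right hg'
  have hYr : ∀ r w f, f r = 0 → Commute (X f) (Y (Pi.single r w)) := by
    intro r w f hf
    refine la_ind0 r (fun f => Commute (X f) (Y (Pi.single r w))) ?_ ?_ f hf
    · rw [la_zero hX]
      exact Commute.one_left _
    · intro s w' f' hs hf'
      rw [hX]
      exact (hb s r hs w' w).mul_left hf'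
  -- the commutators of the blocks
  obtain ⟨z, hz⟩ : ∃ z : ZMod p → G, ∀ r, z r = lac X Y (Pi.single r 1) (Pi.single r 1) :=
    ⟨_, fun _ => rfl⟩
  have hsplit : ∀ (r : ZMod p) (f : ZMod p → ZMod l),
      f = Pi.single r (f r) + (f - Pi.single r (f r)) := by
    intro r f
    rw [add_sub_cancel]
  have hz1 : ∀ r, Commute (z r) (X (Pi.single r 1)) ∧ Commute (z r) (Y (Pi.single r 1)) := by
    intro r
    rw [hz]
    unfold lac
    have e0 : ((fun _ => 1) - Pi.single r 1 : ZMod p → ZMod l) r = 0 := by
      rw [Pi.sub_apply, Pi.single_eq_same, sub_self]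
    refine la_two (x' := X ((fun _ => 1) - Pi.single r 1))
      (y' := Y ((fun _ => 1) - Pi.single r 1)) (la_comm hX _ _) (la_comm hY _ _)
      (hXr r 1 _ e0) (hYr r 1 _ e0) ?_
    rw [← hX, ← hY, add_sub_cancel]
    exact h1
  have hzX : ∀ r f, Commute (z r) (X f) := by
    intro r f
    rw [hsplit r f, hX, la_single hX]
    refine ((hz1 r).1.pow_right _).mul_right ?_
    have e0 : (f - Pi.single r (f r) : ZMod p → ZMod l) r = 0 := by
      rw [Pi.sub_apply, Pi.single_eq_same, sub_self]
    rw [hz]
    unfold lac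
    have c1 := la_comm hX (Pi.single r 1) (f - Pi.single r (f r))
    have c2 := (hYr r 1 _ e0).symm
    exact ((c1.inv_left.mul_left c2.inv_left).mul_left c1).mul_left c2
  have hzY : ∀ r g, Commute (z r) (Y g) := by
    intro r g
    rw [hsplit r g, hY, la_single hY]
    refine ((hz1 r).2.pow_right _).mul_right ?_
    have e0 : (g - Pi.single r (g r) : ZMod p → ZMod l) r = 0 := by
      rw [Pi.sub_apply, Pi.single_eq_same, sub_self]
    rw [hz]
    unfold lac
    have c1 := la_comm hY (Pi.single r 1) (g - Pi.single r (g r))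
    have c2 := hXr r 1 _ e0
    exact ((c2.inv_left.mul_left c1.inv_left).mul_left c2).mul_left c1
  have hzs : ∀ r, X (Pi.single r 1) * Y (Pi.single r 1) =
      Y (Pi.single r 1) * X (Pi.single r 1) * z r := by
    intro r
    rw [hz]
    exact lac_spec X Y _ _
  have hzl : ∀ r, z r ^ l = 1 := by
    intro r
    have h2 := la_pow (hzs r) (hz1 r).1 (hz1 r).2 l 1
    rw [la_pow_l hX, pow_one, mul_one, mul_one, one_mul] at h2
    exact (left_eq_mul.mp h2)
  -- the commutator of `X (single s w)` and `Y g`
  have hQ : ∀ s w g, lac X Y (Pi.single s w) g = zp (z s) (w * g s) := by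
    intro s w g
    refine la_ind (fun g => lac X Y (Pi.single s w) g = zp (z s) (w * g s)) ?_ ?_ g
    · rw [Pi.zero_apply, mul_zero, zp_zero, lac_one_iff, la_zero hY]
      exact Commute.one_right _
    · intro t w' g' hg'
      have h2 : lac X Y (Pi.single s w) (Pi.single t w') =
          zp (z s) (w * (Pi.single t w' : ZMod p → ZMod l) s) := by
        by_cases hst : s = t
        · subst hst
          rw [Pi.single_eq_same]
          apply lac_eq
          rw [la_single hX, la_single hY]
          unfold zp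
          rw [la_pow (hzs s) (hz1 s).1 (hz1 s).2]
          congr 1
          rw [pow_eq_zp (hzl s), Nat.cast_mul, ZMod.natCast_zmod_val, ZMod.natCast_zmod_val]
          rfl
        · rw [Pi.single_eq_of_ne hst, mul_zero, zp_zero, lac_one_iff]
          exact hb s t hst w w'
      rw [lac_add_right hY (by rw [h2]; exact (hzY s _).pow_left _), hg', h2, Pi.add_apply,
        mul_add, zp_add (hzl s), ← zp_add (hzl s), ← zp_add (hzl s), add_comm]
  have hP : ∀ f g, (∀ f', Commute (lac X Y f g) (X f')) ∧
      lac X Y f g = lac X Y (f * g) (fun _ => 1) := by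
    intro f g
    refine la_ind (fun f => (∀ f', Commute (lac X Y f g) (X f')) ∧
      lac X Y f g = lac X Y (f * g) (fun _ => 1)) ?_ ?_ f
    · have h2 : ∀ g', lac X Y 0 g' = 1 := by
        intro g'
        rw [lac_one_iff, la_zero hX]
        exact Commute.one_left _
      refine ⟨fun f' => ?_, ?_⟩
      · rw [h2]
        exact Commute.one_left _
      · rw [zero_mul, h2, h2]
    · rintro s w f' ⟨h2, h3⟩
      have h4 : ∀ f'', Commute (lac X Y (Pi.single s w) g) (X f'') := by
        intro f''
        rw [hQ]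
        exact (hzX s _).pow_left _
      have h5 : (Pi.single s w * g : ZMod p → ZMod l) = Pi.single s (w * g s) := by
        funext t
        rw [Pi.mul_apply]
        by_cases hst : t = s
        · subst hst
          rw [Pi.single_eq_same, Pi.single_eq_same]
        · rw [Pi.single_eq_of_ne hst, Pi.single_eq_of_ne hst, zero_mul]
      have h6 : lac X Y (Pi.single s w * g) (fun _ => 1) = lac X Y (Pi.single s w) g := by
        rw [h5, hQ, hQ, mul_one]
      refine ⟨fun f'' => ?_, ?_⟩
      · rw [lac_add_left hX (h4 f')]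
        exact (h4 f'').mul_left (h2 f'')
      · rw [lac_add_left hX (h4 f'), add_mul, lac_add_left hX (by rw [h6]; exact h4 _), h6, h3]
  -- powers of the character
  have hm : ∀ m : ℕ, Commute (X (fun s => chi ζ s ^ (2 * m))) (Y (fun _ => 1)) := by
    intro m
    have e1 : ∀ (Z : (ZMod p → ZMod l) → G), (∀ f, cj a (Z f) = Z (fun s => chi ζ s * f s)) →
        ∀ m : ℕ, cj (a ^ m) (Z (fun _ => 1)) = Z (fun s => chi ζ s ^ m) := by
      intro Z hZ m
      induction m with
      | zero => simp only [pow_zero, one_cj]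
      | succ m ih =>
        rw [pow_succ', ← cj_cj, ih, hZ]
        congr 1
        funext s
        rw [pow_succ']
    have h2 := (cj_commute (a ^ m)).2 h1
    rw [e1 X haX, e1 Y haY, ← lac_one_iff, (hP _ _).2, lac_one_iff] at h2
    have h3 : ((fun s => chi ζ s ^ m) * (fun s => chi ζ s ^ m) : ZMod p → ZMod l) =
        fun s => chi ζ s ^ (2 * m) := by
      funext s
      rw [Pi.mul_apply, ← pow_add, two_mul]
    rw [h3] at h2
    exact h2
  have hsmul : ∀ (w : ZMod l) (f : ZMod p → ZMod l), Commute (X f) (Y (fun _ => 1)) →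
      Commute (X (fun s => w * f s)) (Y (fun _ => 1)) := by
    intro w f hf
    have h2 : (fun s => w * f s) = w.val • f := by
      funext s
      rw [Pi.smul_apply, nsmul_eq_mul, ZMod.natCast_zmod_val]
    rw [h2, la_nsmul hX]
    exact hf.pow_left _
  have hsum : ∀ (T : Finset ℕ) (F : ℕ → ZMod p → ZMod l),
      (∀ m ∈ T, Commute (X (F m)) (Y (fun _ => 1))) →
      Commute (X (∑ m ∈ T, F m)) (Y (fun _ => 1)) := by
    intro T F hF
    induction T using Finset.induction_on with
    | empty =>
      rw [Finset.sum_empty, la_zero hX]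
      exact Commute.one_left _
    | insert m T hmT ih =>
      rw [Finset.sum_insert hmT, hX]
      exact (hF m (Finset.mem_insert_self _ _)).mul_left
        (ih fun k hk => hF k (Finset.mem_insert_of_mem hk))
  have htwo : (2 : ZMod p) ≠ 0 := by
    intro h2
    have h3 : ((2 : ℕ) : ZMod p) = 0 := by exact_mod_cast h2
    rw [ZMod.natCast_eq_zero_iff] at h3
    have h4 := Nat.le_of_dvd (by norm_num) h3
    have h5 := hp.p_ge
    omega
  have hzone : ∀ r, z r = 1 := by
    intro r
    have h2 : Commute (X (∑ m ∈ Finset.range p,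
        fun s => chi ζ (-(2 * (m : ZMod p) * r)) * chi ζ s ^ (2 * m))) (Y (fun _ => 1)) :=
      hsum _ _ fun m _ => hsmul _ _ (hm m)
    have h3 : (∑ m ∈ Finset.range p,
        fun s : ZMod p => chi ζ (-(2 * (m : ZMod p) * r)) * chi ζ s ^ (2 * m)) =
        fun s => ((p : ℕ) : ZMod l) * (Pi.single r 1 : ZMod p → ZMod l) s := by
      funext s
      rw [Finset.sum_apply]
      have h4 : ∀ m ∈ Finset.range p, chi ζ (-(2 * (m : ZMod p) * r)) * chi ζ s ^ (2 * m) =
          chi ζ ((m : ZMod p) * (2 * (s - r))) := by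
        intro m _
        have h5 : chi ζ s ^ (2 * m) = chi ζ (s * ((2 * m : ℕ) : ZMod p)) := by
          have h6 : (chi ζ s) ^ p = 1 := by
            unfold chi
            rw [← pow_mul, mul_comm, pow_mul, hp.pow, one_pow]
          rw [pow_eq_zp h6]
          exact (zp_mul hp.pow s _).symm
        rw [h5, ← chi_add hp.pow]
        congr 1
        push_cast
        ring
      rw [Finset.sum_congr rfl h4, hp.geom]
      by_cases hsr : s = r
      · subst hsr
        rw [sub_self, mul_zero, if_pos rfl, Pi.single_eq_same, mul_one]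
      · rw [if_neg, Pi.single_eq_of_ne hsr, mul_zero]
        intro h5
        rcases mul_eq_zero.1 h5 with h6 | h6
        · exact htwo h6
        · exact hsr (sub_eq_zero.1 h6)
    rw [h3] at h2
    have h4 := hsmul (((p : ℕ) : ZMod l)⁻¹) _ h2
    have h5 : (fun s => (((p : ℕ) : ZMod l)⁻¹) * (((p : ℕ) : ZMod l) *
        (Pi.single r 1 : ZMod p → ZMod l) s)) = Pi.single r 1 := by
      funext s
      rw [← mul_assoc, inv_mul_cancel₀ hp.p_unit, one_mul]
    rw [h5, ← lac_one_iff, hQ, mul_one, zp_one] at h4
    exact h4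
  intro f g
  refine la_ind (fun f => Commute (X f) (Y g)) ?_ ?_ f
  · rw [la_zero hX]
    exact Commute.one_left _
  · intro s w f' hf'
    rw [hX]
    refine Commute.mul_left ?_ hf'
    rw [← lac_one_iff, hQ, hzone, one_zp]

end abstractpart

variable {p l : ℕ} {ζ : ZMod l} {ι G : Type} [Group G] {d : GData p l ι G}

theorem N_comm (hp : Par p l ζ) (R : GRel ζ d) : ∀ x ∈ d.N, ∀ y ∈ d.N, Commute x y := by
  have hpp : Fact p.Prime := ⟨hp.p_prime⟩
  have hll : Fact l.Prime := ⟨hp.l_prime⟩
  -- `A` is abelian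
  have hA : ∀ x ∈ d.A, ∀ y ∈ d.A, Commute x y := fun x hx y hy =>
    R.P_comm x (GRel.A_le_P hx) y (GRel.A_le_P hy)
  have hc : ∀ n i, d.c = d.Dq n i (fun _ => 1) := by
    intro n i
    rw [R.Dq_const, ZMod.val_one, pow_one]
  -- the claim
  have hstep : ∀ b ∈ d.A, ∀ n i, Commute d.c (cj b d.c) →
      Commute d.c (cj (b * cj (d.U n) (d.a i)) d.c) := by
    intro b hb n i hbc
    have haq : cj (d.U n) (d.a i) ∈ d.A := GRel.cj_a_mem n i
    have hmain := la_main hp (d.Dq n i) (fun f => cj b (d.Dq n i f)) (R.Dq_add n i)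
      (fun f g => by rw [R.Dq_add, cj_mul]) (cj (d.U n) (d.a i)) (R.a_Dq n i)
      (fun f => by
        rw [cj_cj, (hA _ haq _ hb).eq, ← cj_cj, R.a_Dq])
      (fun s t hst w w' => block hp R n i s t hst b hb w w')
      (by
        rw [← hc n i]
        exact hbc)
    have h2 : cj (b * cj (d.U n) (d.a i)) d.c =
        cj b (d.Dq n i (fun s => chi ζ s * 1)) := by
      rw [← cj_cj, hc n i, R.a_Dq]
    rw [h2]
    have h3 := hmain (fun _ => 1) (fun s => chi ζ s * 1)
    rw [← hc n i] at h3
    exact h3
  have hone : ∀ b ∈ d.A, Commute d.c (cj b d.c) := by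
    have hpow : ∀ b ∈ d.A, ∀ n i, Commute d.c (cj b d.c) → ∀ m : ℕ,
        Commute d.c (cj (b * cj (d.U n) (d.a i) ^ m) d.c) := by
      intro b hb n i hbc m
      induction m with
      | zero => rwa [pow_zero, mul_one]
      | succ m ih =>
        rw [pow_succ, ← mul_assoc]
        exact hstep _ (d.A.mul_mem hb (d.A.pow_mem (GRel.cj_a_mem n i) m)) n i ih
    intro b hb
    refine Subgroup.closure_induction_right (p := fun b _ => Commute d.c (cj b d.c)) ?_ ?_ ?_ hb
    · rw [one_cj]
    · rintro x hx _ ⟨n, i, rfl⟩ hpx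
      exact hstep x hx n i hpx
    · rintro x hx _ ⟨n, i, rfl⟩ hpx
      have h2 : (cj (d.U n) (d.a i))⁻¹ = cj (d.U n) (d.a i) ^ (p - 1) := by
        rw [inv_eq_iff_mul_eq_one, ← pow_succ', Nat.sub_add_cancel hp.p_prime.one_le]
        exact R.P_pow _ (GRel.A_le_P (GRel.cj_a_mem n i))
      rw [h2]
      exact hpow x hx n i hpx (p - 1)
  intro x hx y hy
  unfold GData.N at hx hy
  refine Subgroup.closure_induction (p := fun x _ => Commute x y) ?_ ?_ ?_ ?_ hx
  · rintro _ ⟨b, hb, rfl⟩
    refine Subgroup.closure_induction (p := fun y _ => Commute (cj b d.c) y) ?_ ?_ ?_ ?_ hy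
    · rintro _ ⟨b', hb', rfl⟩
      have h2 := (cj_commute b).2 (hone (b⁻¹ * b') (d.A.mul_mem (d.A.inv_mem hb) hb'))
      rwa [cj_cj, mul_inv_cancel_left] at h2
    · exact Commute.one_right _
    · intro x y _ _ hx hy
      exact hx.mul_right hy
    · intro x _ hx
      exact hx.inv_right
  · exact Commute.one_left _
  · intro x y _ _ hx hy
    exact hx.mul_left hy
  · intro x _ hx
    exact hx.inv_left

end Pool.Agent.MG
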