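import Pool.Agent.MG.LayerAb

/-!
MG Solv: solvability; metabelian if `c = 1`.
-/

set_option autoImplicit false

namespace Pool.Agent.MG

variable {p l : ℕ} {ζ : ZMod l} {ι G : Type} [Group G] {d : GData p l ι G}

/-- the group is generated by the data -/
def GData.Gen (d : GData p l ι G) : Prop :=
  Subgroup.closure ({x | ∃ κ j, x = d.u κ j} ∪ d.gens ∪ {x | ∃ κ i f, x = d.D κ i f} ∪ {d.c}) = ⊤

/-- commutators of a subgroup generated by elements commuting modulo a normal subgroup -/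
theorem solv_comm_le (S : Set G) (M : Subgroup G) [M.Normal] (h : ∀ s ∈ S, ∀ t ∈ S, s * t * s⁻¹ * t⁻¹ ∈ M) :
    ⁅Subgroup.closure S, Subgroup.closure S⁆ ≤ M := by
  have key : ∀ s t : G, s * t * s⁻¹ * t⁻¹ ∈ M ↔ Commute (QuotientGroup.mk' M s) (QuotientGroup.mk' M t) := by
    intro s t
    rw [← QuotientGroup.eq_one_iff, QuotientGroup.mk_mul, QuotientGroup.mk_mul, QuotientGroup.mk_mul,
      QuotientGroup.mk_inv, QuotientGroup.mk_inv, mul_inv_eq_one, mul_inv_eq_iff_eq_mul]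
    rfl
  have h1 : ∀ t ∈ S, ∀ s ∈ Subgroup.closure S,
      Commute (QuotientGroup.mk' M s) (QuotientGroup.mk' M t) := by
    intro t ht s hs
    induction hs using Subgroup.closure_induction with
    | mem x hx => exact (key x t).1 (h x hx t ht)
    | one => rw [map_one]; exact Commute.one_left _
    | mul x y _ _ hx hy => rw [map_mul]; exact hx.mul_left hy
    | inv x _ hx => rw [map_inv]; exact hx.inv_left
  have h2 : ∀ s ∈ Subgroup.closure S, ∀ t ∈ Subgroup.closure S,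
      Commute (QuotientGroup.mk' M s) (QuotientGroup.mk' M t) := by
    intro s hs t ht
    induction ht using Subgroup.closure_induction with
    | mem x hx => exact h1 x hx s hs
    | one => rw [map_one]; exact Commute.one_right _
    | mul x y _ _ hx hy => rw [map_mul]; exact hx.mul_right hy
    | inv x _ hx => rw [map_inv]; exact hx.inv_right
  rw [Subgroup.commutator_le]
  intro s hs t ht
  exact (key s t).2 (h2 s hs t ht)

/-- a subgroup normalised by a generating set is normal -/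
theorem solv_normal (S : Set G) (hS : Subgroup.closure S = ⊤) (M : Subgroup G)
    (h : ∀ s ∈ S, ∀ x ∈ M, cj s x ∈ M ∧ cj s⁻¹ x ∈ M) : M.Normal := by
  have h1 : Subgroup.closure S ≤ Subgroup.normalizer (M : Set G) := by
    rw [Subgroup.closure_le]
    intro s hs
    rw [SetLike.mem_coe, Subgroup.mem_normalizer_iff]
    intro x
    constructor
    · intro hx
      exact (h s hs x hx).1
    · intro hx
      have := (h s hs _ hx).2
      unfold cj at this
      simpa [mul_assoc] using this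
  rw [hS, top_le_iff] at h1
  exact Subgroup.normalizer_eq_top_iff.1 h1

namespace GRel

theorem c_mem_N : d.c ∈ d.N :=
  Subgroup.subset_closure ⟨1, d.A.one_mem, by simp⟩

theorem cj_A_N : ∀ b ∈ d.A, ∀ x ∈ d.N, cj b x ∈ d.N := by
  intro b hb
  have h : d.N ≤ d.N.comap (cjHom b) := by
    refine (Subgroup.closure_le _).mpr ?_
    rintro x ⟨b', hb', rfl⟩
    change cj b (cj b' d.c) ∈ d.N
    rw [cj_cj]
    exact Subgroup.subset_closure ⟨b * b', d.A.mul_mem hb hb', rfl⟩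
  exact fun x hx => h hx

theorem cj_U_N (R : GRel ζ d) (n : Ex) : ∀ x ∈ d.N, cj (d.U n) x ∈ d.N := by
  have h : d.N ≤ d.N.comap (cjHom (d.U n)) := by
    refine (Subgroup.closure_le _).mpr ?_
    rintro x ⟨b, hb, rfl⟩
    change cj (d.U n) (cj b d.c) ∈ d.N
    have h1 : cj (d.U n) (cj b d.c) = cj (cj (d.U n) b) (cj (d.U n) d.c) := by
      simp [cj, mul_assoc]
    rw [h1, cj_eq_self.2 (R.U_c n)]
    exact Subgroup.subset_closure ⟨cj (d.U n) b, R.cj_U_A n b hb, rfl⟩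
  exact fun x hx => h hx

theorem D_mem_N (hp : Par p l ζ) (R : GRel ζ d) (κ : Bool) (i : ι) (f : ZMod p × ZMod p → ZMod l) :
    d.D κ i f ∈ d.N :=
  fine_all hp R κ i d.N c_mem_N (fun b hb x hx => cj_A_N b hb x hx) f

theorem cj_gen_N (hp : Par p l ζ) (R : GRel ζ d) (m : G) (hm : m ∈ d.gens) : ∀ x ∈ d.N, cj m x ∈ d.N := by
  classical
  have : Fact p.Prime := ⟨hp.p_prime⟩
  have : Fact l.Prime := ⟨hp.l_prime⟩
  -- it is enough to treat `c`
  have hc : cj m d.c ∈ d.N := by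
    rcases hm with ⟨i, rfl⟩ | ⟨α, β, i, k, rfl⟩
    · exact Subgroup.subset_closure ⟨d.a i, a_mem_A i, rfl⟩
    · have h1 : d.D false i (∑ s : ZMod p, fun q : ZMod p × ZMod p => (Pi.single s (1 : ZMod l) : ZMod p → ZMod l) q.1) ∈
          d.N.comap (cjHom (d.e α β i k)) := by
        refine R.D_sum false i Finset.univ (fun s q => (Pi.single s (1 : ZMod l) : ZMod p → ZMod l) q.1) _ ?_
        intro s _
        change cj (d.e α β i k) (d.D1 i (Pi.single s 1)) ∈ d.N
        rw [R.e_D]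
        refine cj_A_N _ ?_ _ (D_mem_N hp R _ _ _)
        unfold zp
        exact d.A.pow_mem (R.ax_A α β _ (a_mem_A k)) _
      have h2 : (∑ s : ZMod p, fun q : ZMod p × ZMod p => (Pi.single s (1 : ZMod l) : ZMod p → ZMod l) q.1) =
          fun _ => 1 := by
        funext q
        rw [Finset.sum_apply]
        simp [Pi.single_apply]
      rw [h2, R.D_const, ZMod.val_one, pow_one] at h1
      exact h1
  have h : d.N ≤ d.N.comap (cjHom m) := by
    refine (Subgroup.closure_le _).mpr ?_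
    rintro x ⟨b, hb, rfl⟩
    change cj m (cj b d.c) ∈ d.N
    have h1 : cj m (cj b d.c) = cj b (cj m d.c) := by
      rw [cj_cj, cj_cj, (R.P_comm m (gen_mem_P m hm) b (A_le_P hb)).eq]
    rw [h1]
    exact cj_A_N b hb _ hc
  exact fun x hx => h hx

theorem cj_pow_N (hp : Par p l ζ) (R : GRel ζ d) (m : G) (hm : m ∈ d.gens) (n : ℕ) : ∀ x ∈ d.N, cj (m ^ n) x ∈ d.N := by
  induction n with
  | zero => intro x hx; simpa using hx
  | succ n ih =>
    intro x hx
    rw [pow_succ, ← cj_cj]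
    exact ih _ (cj_gen_N hp R m hm x hx)

theorem inv_gen (hp : Par p l ζ) (R : GRel ζ d) (m : G) (hm : m ∈ d.gens) : m⁻¹ = m ^ (p - 1) := by
  rw [inv_eq_iff_mul_eq_one, ← pow_succ', Nat.sub_add_cancel hp.p_prime.one_le, R.gen_pow m hm]

end GRel

/-- `N` is normal -/
theorem solv_N_normal (hp : Par p l ζ) (R : GRel ζ d) (hgen : d.Gen) : d.N.Normal := by
  refine solv_normal _ hgen _ ?_
  rintro s (((⟨κ, j, rfl⟩ | hs) | ⟨κ, i, f, rfl⟩) | hs) x hx
  · rw [← R.U_single κ j, ← R.U_neg]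
    exact ⟨R.cj_U_N _ x hx, R.cj_U_N _ x hx⟩
  · rw [GRel.inv_gen hp R s hs]
    exact ⟨GRel.cj_gen_N hp R s hs x hx, GRel.cj_pow_N hp R s hs _ x hx⟩
  · have h1 := GRel.D_mem_N hp R κ i f
    exact ⟨d.N.mul_mem (d.N.mul_mem h1 hx) (d.N.inv_mem h1),
      d.N.mul_mem (d.N.mul_mem (d.N.inv_mem h1) hx) (d.N.inv_mem (d.N.inv_mem h1))⟩
  · rw [Set.mem_singleton_iff] at hs
    subst hs
    have h1 : d.c ∈ d.N := GRel.c_mem_N
    exact ⟨d.N.mul_mem (d.N.mul_mem h1 hx) (d.N.inv_mem h1),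
      d.N.mul_mem (d.N.mul_mem (d.N.inv_mem h1) hx) (d.N.inv_mem (d.N.inv_mem h1))⟩

/-- the subgroup generated by `P` and `N`, as a closure -/
theorem solv_sup : d.P ⊔ d.N = Subgroup.closure ((d.P : Set G) ∪ (d.N : Set G)) := by
  rw [Subgroup.closure_union, Subgroup.closure_eq, Subgroup.closure_eq]

theorem solv_M_normal (hp : Par p l ζ) (R : GRel ζ d) (hgen : d.Gen) : (d.P ⊔ d.N).Normal := by
  have hN := solv_N_normal hp R hgen
  -- stability under a conjugation which maps `P` to `P`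
  have hst : ∀ s : G, (∀ x ∈ d.P, cj s x ∈ d.P) → ∀ x ∈ d.P ⊔ d.N, cj s x ∈ d.P ⊔ d.N := by
    intro s hs
    have h : d.P ⊔ d.N ≤ (d.P ⊔ d.N).comap (cjHom s) := by
      refine sup_le ?_ ?_
      · intro x hx
        exact (le_sup_left : d.P ≤ d.P ⊔ d.N) (hs x hx)
      · intro x hx
        exact (le_sup_right : d.N ≤ d.P ⊔ d.N) (hN.conj_mem x hx s)
    exact fun x hx => h hx
  have hin : ∀ s ∈ d.P ⊔ d.N, ∀ x ∈ d.P ⊔ d.N, cj s x ∈ d.P ⊔ d.N ∧ cj s⁻¹ x ∈ d.P ⊔ d.N := by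
    intro s hs x hx
    exact ⟨mul_mem (mul_mem hs hx) (inv_mem hs),
      mul_mem (mul_mem (inv_mem hs) hx) (inv_mem (inv_mem hs))⟩
  refine solv_normal _ hgen _ ?_
  rintro s (((⟨κ, j, rfl⟩ | hs) | ⟨κ, i, f, rfl⟩) | hs) x hx
  · rw [← R.U_single κ j, ← R.U_neg]
    exact ⟨hst _ (R.cj_U_P _) x hx, hst _ (R.cj_U_P _) x hx⟩
  · exact hin s ((le_sup_left : d.P ≤ d.P ⊔ d.N) (GRel.gen_mem_P s hs)) x hx
  · exact hin _ ((le_sup_right : d.N ≤ d.P ⊔ d.N) (GRel.D_mem_N hp R κ i f)) x hx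
  · rw [Set.mem_singleton_iff] at hs
    subst hs
    exact hin _ ((le_sup_right : d.N ≤ d.P ⊔ d.N) GRel.c_mem_N) x hx

theorem solv_step1 (hp : Par p l ζ) (R : GRel ζ d) (hgen : d.Gen) : derivedSeries G 1 ≤ d.P ⊔ d.N := by
  have hM := solv_M_normal hp R hgen
  rw [derivedSeries_succ, derivedSeries_zero]
  have h := hgen
  unfold GData.Gen at h
  rw [← h]
  refine solv_comm_le _ _ ?_
  have hin : ∀ s ∈ d.P ⊔ d.N, ∀ t : G, s * t * s⁻¹ * t⁻¹ ∈ d.P ⊔ d.N := by
    intro s hs t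
    have := mul_mem hs (hM.conj_mem _ (inv_mem hs) t)
    simpa [mul_assoc] using this
  have hin' : ∀ s ∈ d.P ⊔ d.N, ∀ t : G, t * s * t⁻¹ * s⁻¹ ∈ d.P ⊔ d.N := by
    intro s hs t
    exact mul_mem (hM.conj_mem _ hs t) (inv_mem hs)
  -- every generator is a unit or in `P ⊔ N`
  have hcase : ∀ s ∈ ({x | ∃ κ j, x = d.u κ j} ∪ d.gens ∪ {x | ∃ κ i f, x = d.D κ i f} ∪ {d.c} : Set G),
      (∃ κ j, s = d.u κ j) ∨ s ∈ d.P ⊔ d.N := by
    rintro s (((hs | hs) | ⟨κ, i, f, rfl⟩) | hs)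
    · exact Or.inl hs
    · exact Or.inr ((le_sup_left : d.P ≤ d.P ⊔ d.N) (GRel.gen_mem_P s hs))
    · exact Or.inr ((le_sup_right : d.N ≤ d.P ⊔ d.N) (GRel.D_mem_N hp R κ i f))
    · rw [Set.mem_singleton_iff] at hs
      subst hs
      exact Or.inr ((le_sup_right : d.N ≤ d.P ⊔ d.N) GRel.c_mem_N)
  intro s hs t ht
  rcases hcase s hs with ⟨κ, j, rfl⟩ | hs'
  · rcases hcase t ht with ⟨κ', j', rfl⟩ | ht'
    · have h1 : d.u κ j * d.u κ' j' * (d.u κ j)⁻¹ * (d.u κ' j')⁻¹ = 1 := by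
        rw [mul_inv_eq_one, mul_inv_eq_iff_eq_mul]
        exact (R.u_comm κ j κ' j').eq
      rw [h1]
      exact one_mem _
    · exact hin' t ht' _
  · exact hin s hs' t

theorem solv_step2 (hp : Par p l ζ) (R : GRel ζ d) (hgen : d.Gen) : derivedSeries G 2 ≤ d.N := by
  have hN := solv_N_normal hp R hgen
  rw [derivedSeries_succ]
  refine (Subgroup.commutator_mono (solv_step1 hp R hgen) (solv_step1 hp R hgen)).trans ?_
  rw [solv_sup]
  refine solv_comm_le _ _ ?_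
  rintro s (hs | hs) t (ht | ht)
  · have h1 : s * t * s⁻¹ * t⁻¹ = 1 := by
      rw [mul_inv_eq_one, mul_inv_eq_iff_eq_mul]
      exact (R.P_comm s hs t ht).eq
    rw [h1]
    exact one_mem _
  · exact d.N.mul_mem (hN.conj_mem _ ht s) (d.N.inv_mem ht)
  · have := d.N.mul_mem hs (hN.conj_mem _ (d.N.inv_mem hs) t)
    simpa [mul_assoc] using this
  · have := d.N.mul_mem hs (hN.conj_mem _ (d.N.inv_mem hs) t)
    simpa [mul_assoc] using this

theorem solv (hp : Par p l ζ) (R : GRel ζ d) (hgen : d.Gen) : derivedSeries G 3 = ⊥ := by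
  rw [eq_bot_iff, derivedSeries_succ, Subgroup.commutator_le]
  intro x hx y hy
  have hx' := solv_step2 hp R hgen hx
  have hy' := solv_step2 hp R hgen hy
  have := (N_comm hp R x hx' y hy').eq
  rw [Subgroup.mem_bot, commutatorElement_eq_one_iff_mul_comm]
  exact this

theorem metab (hp : Par p l ζ) (R : GRel ζ d) (hgen : d.Gen) (hc : d.c = 1) :
    derivedSeries G 2 = ⊥ := by
  have h1 : d.N = ⊥ := by
    rw [eq_bot_iff]
    refine (Subgroup.closure_le _).mpr ?_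
    rintro x ⟨b, -, rfl⟩
    rw [hc, cj_one]
    exact Subgroup.mem_bot.2 rfl
  rw [eq_bot_iff, ← h1]
  exact solv_step2 hp R hgen

end Pool.Agent.MG
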