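import Pool.Agent.MG.Pat

/-!
MG Words: words (lists of letters) for the elements `patEl`, their values, and computability in `k` of the word of `patEl (LE B k)`.

Letters are `(i, b) : ℕ × Bool`; `ev g w` is the value of the word `w` in a group when the letter `(i, true)` has the value `g i`.
`cU κ j`, `cA i`, `cC` are the codes (natural numbers) of the generators `u κ j`, `a i`, `c`.

PROOFS.  `ev_*`: induction on lists; `ev` is multiplicative (`ev_append`).  `ev_patW`: `patW` mirrors `patEl`: `ev (posW q) = U (toEx q)`, `ev (aqW q i) = aq q i`, `ev (epsW …) = eps …`, etc.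
`prim_LE`: everything is built from `++`, `flatten`, `map`, `replicate`, `reverse` on lists: show first
* `Primrec₂ (fun g w => cjW g w)`, `Primrec (inv' : …)`, for fixed `cf : List ℕ`, `Primrec₂ (epsW p cf)` in `(g, w)` (a fixed finite number `p` of factors with fixed exponents: induction on the number of factors, or
  `Primrec.list_flatten`/`list_map`), `Primrec` of `epsVW` in `(q-word, w)` for fixed `v` (fixed list of tracks: induction), `cellW` for a fixed list `B` (induction on the list);
* the word of the position `((p^k) • ee 0, 0)` is `replicate (p^k) (cU false 1, true)`, so it is primitive recursive in `k`; `patW (LL B k)` by primitive recursion in `k` (`Primrec.nat_rec`); then `patW (LE B k)`.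
(To make the last point easy, `posW` is defined by repetition of letters, and `patW_LE` may be restated with the explicit words; `p`, `t`, `B` and the codes are constants.)
-/

set_option autoImplicit false

namespace Pool.Agent.MG

/-- inverse word -/
def inv' (w : List (ℕ × Bool)) : List (ℕ × Bool) := (w.map fun x => (x.1, !x.2)).reverse

/-- conjugate word -/
def cjW (g w : List (ℕ × Bool)) : List (ℕ × Bool) := g ++ w ++ inv' g

/-- power word -/
def powW (w : List (ℕ × Bool)) (k : ℕ) : List (ℕ × Bool) := (List.replicate k w).flatten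

/-- word of `eps`, `cf t` are the exponents -/
def epsW (p : ℕ) (cf : ℕ → ℕ) (g w : List (ℕ × Bool)) : List (ℕ × Bool) :=
  ((List.range p).map fun t => cjW (powW g t) (powW w (cf t))).flatten

/-- the word of an integer power of a letter -/
def zpowW (i : ℕ) (n : ℤ) : List (ℕ × Bool) := List.replicate n.natAbs (i, decide (0 ≤ n))

/-- the word of `U (toEx q)` -/
def posW (cU : Bool → Fin 5 → ℕ) (q : Pos) : List (ℕ × Bool) :=
  zpowW (cU false 1) (q.1 0) ++ zpowW (cU false 2) (q.1 1) ++ zpowW (cU false 3) (q.1 2) ++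
    zpowW (cU false 4) (q.1 3) ++ (zpowW (cU true 1) (q.2 0) ++ zpowW (cU true 2) (q.2 1) ++
    zpowW (cU true 3) (q.2 2) ++ zpowW (cU true 4) (q.2 3))

/-- the word of `aq q i` -/
def aqW {t : ℕ} (cU : Bool → Fin 5 → ℕ) (cA : Fin t → ℕ) (q : Pos) (i : Fin t) : List (ℕ × Bool) :=
  cjW (posW cU q) [(cA i, true)]

/-- the word of `epsV` -/
def epsVW {p l t : ℕ} (ζ : ZMod l) (cU : Bool → Fin 5 → ℕ) (cA : Fin t → ℕ) (q : Pos)
    (v : Fin t → ZMod p) (x : List (ℕ × Bool)) : List (ℕ × Bool) :=
  (List.finRange t).foldr (fun i y => epsW p (coef ζ (v i)) (aqW cU cA q i) y) x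

/-- the word of `cell` -/
def cellW {p l t : ℕ} (ζ : ZMod l) (cU : Bool → Fin 5 → ℕ) (cA : Fin t → ℕ) (q : Pos)
    (B : List (Fin t → ZMod p)) (x : List (ℕ × Bool)) : List (ℕ × Bool) :=
  (B.map fun v => epsVW ζ cU cA q v x).flatten

/-- the word of `patEl` -/
def patW {p l t : ℕ} (ζ : ZMod l) (cU : Bool → Fin 5 → ℕ) (cA : Fin t → ℕ) (cC : ℕ)
    (L : List (Cond p t)) : List (ℕ × Bool) :=
  L.foldr (fun c x => cellW ζ cU cA c.1 c.2 x) [(cC, true)]

/-- value of a word -/
def ev {G : Type*} [Group G] (g : ℕ → G) (w : List (ℕ × Bool)) : G :=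
  (w.map fun x => if x.2 then g x.1 else (g x.1)⁻¹).prod

section
variable {G : Type*} [Group G] (g : ℕ → G)

@[simp] theorem ev_nil : ev g [] = 1 := rfl

theorem ev_append (w w' : List (ℕ × Bool)) : ev g (w ++ w') = ev g w * ev g w' := by
  simp [ev]

theorem ev_single (i : ℕ) : ev g [(i, true)] = g i := by simp [ev]

theorem ev_inv' (w : List (ℕ × Bool)) : ev g (inv' w) = (ev g w)⁻¹ := by
  induction w with
  | nil => simp [ev, inv']
  | cons x w ih =>
    have h1 : inv' (x :: w) = inv' w ++ [(x.1, !x.2)] := by simp [inv']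
    have h2 : ev g (x :: w) = (if x.2 then g x.1 else (g x.1)⁻¹) * ev g w := by simp [ev]
    have h3 : ev g [(x.1, !x.2)] = (if x.2 then g x.1 else (g x.1)⁻¹)⁻¹ := by
      cases h : x.2 <;> simp [ev]
    rw [h1, ev_append, ih, h2, h3, mul_inv_rev]

theorem ev_cjW (x w : List (ℕ × Bool)) : ev g (cjW x w) = cj (ev g x) (ev g w) := by
  unfold cjW cj
  rw [ev_append, ev_append, ev_inv']

theorem ev_flatten (L : List (List (ℕ × Bool))) : ev g L.flatten = (L.map (ev g)).prod := by
  induction L with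
  | nil => simp [ev]
  | cons w L ih => rw [List.flatten_cons, ev_append, ih, List.map_cons, List.prod_cons]

theorem ev_powW (w : List (ℕ × Bool)) (k : ℕ) : ev g (powW w k) = ev g w ^ k := by
  unfold powW
  rw [ev_flatten, List.map_replicate, List.prod_replicate]

private theorem words_ev_epsW (p : ℕ) (cf : ℕ → ℕ) (x w : List (ℕ × Bool)) :
    ev g (epsW p cf x w) =
      ((List.range p).map fun t => cj (ev g x ^ t) (ev g w ^ cf t)).prod := by
  unfold epsW
  rw [ev_flatten, List.map_map]
  congr 1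
  refine List.map_congr_left fun t _ => ?_
  rw [Function.comp_apply, ev_cjW, ev_powW, ev_powW]

private theorem words_ev_zpowW (i : ℕ) (n : ℤ) : ev g (zpowW i n) = g i ^ n := by
  unfold zpowW ev
  rw [List.map_replicate, List.prod_replicate]
  by_cases h : 0 ≤ n
  · obtain ⟨m, rfl⟩ := Int.eq_ofNat_of_zero_le h
    simp
  · have h0 : n ≤ 0 := by omega
    obtain ⟨m, rfl⟩ := Int.exists_eq_neg_ofNat h0
    simp only [decide_eq_false h]
    simp

end

private theorem words_ev_posW {p l t : ℕ} {G : Type} [Group G] (d : GData p l (Fin t) G)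
    (g : ℕ → G) (cU : Bool → Fin 5 → ℕ) (hU : ∀ κ j, g (cU κ j) = d.u κ j) (q : Pos) :
    ev g (posW cU q) = d.U (toEx q) := by
  unfold posW
  simp only [ev_append, words_ev_zpowW, hU]
  rfl

private theorem words_ev_aqW {p l t : ℕ} {G : Type} [Group G] (d : GData p l (Fin t) G)
    (g : ℕ → G) (cU : Bool → Fin 5 → ℕ) (cA : Fin t → ℕ) (hU : ∀ κ j, g (cU κ j) = d.u κ j)
    (hA : ∀ i, g (cA i) = d.a i) (q : Pos) (i : Fin t) : ev g (aqW cU cA q i) = d.aq q i := by
  unfold aqW GData.aq
  rw [ev_cjW, words_ev_posW d g cU hU, ev_single, hA]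

private theorem words_ev_epsVW {p l t : ℕ} (ζ : ZMod l) {G : Type} [Group G]
    (d : GData p l (Fin t) G) (g : ℕ → G) (cU : Bool → Fin 5 → ℕ) (cA : Fin t → ℕ)
    (hU : ∀ κ j, g (cU κ j) = d.u κ j) (hA : ∀ i, g (cA i) = d.a i) (q : Pos)
    (v : Fin t → ZMod p) (x : List (ℕ × Bool)) :
    ev g (epsVW ζ cU cA q v x) = epsV ζ d q v (ev g x) := by
  unfold epsVW epsV
  induction List.finRange t with
  | nil => rfl
  | cons i L ih =>
    rw [List.foldr_cons, List.foldr_cons, words_ev_epsW, ih, words_ev_aqW d g cU cA hU hA]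
    rfl

private theorem words_ev_cellW {p l t : ℕ} (ζ : ZMod l) {G : Type} [Group G]
    (d : GData p l (Fin t) G) (g : ℕ → G) (cU : Bool → Fin 5 → ℕ) (cA : Fin t → ℕ)
    (hU : ∀ κ j, g (cU κ j) = d.u κ j) (hA : ∀ i, g (cA i) = d.a i) (q : Pos)
    (B : List (Fin t → ZMod p)) (x : List (ℕ × Bool)) :
    ev g (cellW ζ cU cA q B x) = cell ζ d q B (ev g x) := by
  unfold cellW cell
  rw [ev_flatten, List.map_map]
  congr 1
  refine List.map_congr_left fun v _ => ?_
  rw [Function.comp_apply, words_ev_epsVW ζ d g cU cA hU hA]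

theorem ev_patW {p l t : ℕ} (ζ : ZMod l) {G : Type} [Group G] (d : GData p l (Fin t) G) (g : ℕ → G)
    (cU : Bool → Fin 5 → ℕ) (cA : Fin t → ℕ) (cC : ℕ) (hU : ∀ κ j, g (cU κ j) = d.u κ j)
    (hA : ∀ i, g (cA i) = d.a i) (hC : g cC = d.c) (L : List (Cond p t)) :
    ev g (patW ζ cU cA cC L) = patEl ζ d L := by
  unfold patW patEl
  induction L with
  | nil => rw [List.foldr_nil, List.foldr_nil, ev_single, hC]
  | cons c L ih =>
    rw [List.foldr_cons, List.foldr_cons, words_ev_cellW ζ d g cU cA hU hA, ih]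

/-- all letters of the word are smaller than `N` -/
private def WOk (N : ℕ) (w : List (ℕ × Bool)) : Prop := ∀ x ∈ w, x.1 < N

private theorem wok_append {N : ℕ} {w w' : List (ℕ × Bool)} (h : WOk N w) (h' : WOk N w') :
    WOk N (w ++ w') := by
  intro x hx
  rcases List.mem_append.1 hx with h1 | h1
  · exact h x h1
  · exact h' x h1

private theorem wok_flatten {N : ℕ} {L : List (List (ℕ × Bool))} (h : ∀ w ∈ L, WOk N w) :
    WOk N L.flatten := by
  intro x hx
  obtain ⟨w, hw, hx⟩ := List.mem_flatten.1 hx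
  exact h w hw x hx

private theorem wok_inv {N : ℕ} {w : List (ℕ × Bool)} (h : WOk N w) : WOk N (inv' w) := by
  intro x hx
  unfold inv' at hx
  rw [List.mem_reverse, List.mem_map] at hx
  obtain ⟨y, hy, rfl⟩ := hx
  exact h y hy

private theorem wok_cjW {N : ℕ} {g w : List (ℕ × Bool)} (h : WOk N g) (h' : WOk N w) :
    WOk N (cjW g w) := wok_append (wok_append h h') (wok_inv h)

private theorem wok_powW {N : ℕ} {w : List (ℕ × Bool)} (h : WOk N w) (k : ℕ) :
    WOk N (powW w k) := by
  refine wok_flatten fun v hv => ?_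
  rw [(List.mem_replicate.1 hv).2]
  exact h

private theorem wok_epsW {N : ℕ} (p : ℕ) (cf : ℕ → ℕ) {g w : List (ℕ × Bool)} (h : WOk N g)
    (h' : WOk N w) : WOk N (epsW p cf g w) := by
  refine wok_flatten fun v hv => ?_
  obtain ⟨t, _, rfl⟩ := List.mem_map.1 hv
  exact wok_cjW (wok_powW h t) (wok_powW h' _)

private theorem wok_zpowW {N i : ℕ} (h : i < N) (n : ℤ) : WOk N (zpowW i n) := by
  intro x hx
  unfold zpowW at hx
  rw [(List.mem_replicate.1 hx).2]
  exact h

private theorem wok_posW {N : ℕ} {cU : Bool → Fin 5 → ℕ} (hU : ∀ κ j, cU κ j < N) (q : Pos) :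
    WOk N (posW cU q) := by
  have h := fun κ j n => wok_zpowW (hU κ j) n
  exact wok_append (wok_append (wok_append (wok_append (h _ _ _) (h _ _ _)) (h _ _ _)) (h _ _ _))
    (wok_append (wok_append (wok_append (h _ _ _) (h _ _ _)) (h _ _ _)) (h _ _ _))

private theorem wok_aqW {N t : ℕ} {cU : Bool → Fin 5 → ℕ} {cA : Fin t → ℕ}
    (hU : ∀ κ j, cU κ j < N) (hA : ∀ i, cA i < N) (q : Pos) (i : Fin t) :
    WOk N (aqW cU cA q i) := by
  refine wok_cjW (wok_posW hU q) ?_
  intro x hx
  rw [List.mem_singleton.1 hx]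
  exact hA i

private theorem wok_epsVW {p l t N : ℕ} (ζ : ZMod l) {cU : Bool → Fin 5 → ℕ} {cA : Fin t → ℕ}
    (hU : ∀ κ j, cU κ j < N) (hA : ∀ i, cA i < N) (q : Pos) (v : Fin t → ZMod p)
    {x : List (ℕ × Bool)} (hx : WOk N x) : WOk N (epsVW ζ cU cA q v x) := by
  unfold epsVW
  induction List.finRange t with
  | nil => exact hx
  | cons i L ih =>
    rw [List.foldr_cons]
    exact wok_epsW p _ (wok_aqW hU hA q i) ih

/-- all letters of `patW` are among the codes -/
theorem letters_patW {p l t : ℕ} (ζ : ZMod l) (cU : Bool → Fin 5 → ℕ) (cA : Fin t → ℕ) (cC : ℕ)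
    (N : ℕ) (hU : ∀ κ j, cU κ j < N) (hA : ∀ i, cA i < N) (hC : cC < N) (L : List (Cond p t)) :
    ∀ x ∈ patW ζ cU cA cC L, x.1 < N := by
  have key : WOk N (patW ζ cU cA cC L) := by
    unfold patW
    induction L with
    | nil =>
      intro x hx
      rw [List.foldr_nil, List.mem_singleton] at hx
      rw [hx]
      exact hC
    | cons c L ih =>
      rw [List.foldr_cons]
      refine wok_flatten fun w hw => ?_
      obtain ⟨v, _, rfl⟩ := List.mem_map.1 hw
      exact wok_epsVW ζ hU hA c.1 v ih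
  exact key


section prim

variable {α : Type} [Primcodable α]

private theorem wb_append {f g : α → List (ℕ × Bool)} (hf : Primrec f) (hg : Primrec g) :
    Primrec fun a => f a ++ g a := Primrec.list_append.comp hf hg

private theorem wb_inv {f : α → List (ℕ × Bool)} (hf : Primrec f) :
    Primrec fun a => inv' (f a) := by
  have h1 : Primrec₂ (fun (_ : α) (x : ℕ × Bool) => ((x.1, !x.2) : ℕ × Bool)) :=
    Primrec.pair (Primrec.fst.comp Primrec.snd)
      (Primrec.not.comp (Primrec.snd.comp Primrec.snd))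
  exact Primrec.list_reverse.comp (Primrec.list_map hf h1)

private theorem wb_cjW {f g : α → List (ℕ × Bool)} (hf : Primrec f) (hg : Primrec g) :
    Primrec fun a => cjW (f a) (g a) := wb_append (wb_append hf hg) (wb_inv hf)

private theorem wb_powW {f : α → List (ℕ × Bool)} (hf : Primrec f) (k : ℕ) :
    Primrec fun a => powW (f a) k := by
  induction k with
  | zero => exact Primrec.const []
  | succ k ih =>
    have h : (fun a => powW (f a) (k + 1)) = fun a => f a ++ powW (f a) k := by
      funext a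
      unfold powW
      rw [List.replicate_succ, List.flatten_cons]
    rw [h]
    exact wb_append hf ih

private theorem wb_epsW (p : ℕ) (cf : ℕ → ℕ) {f g : α → List (ℕ × Bool)} (hf : Primrec f)
    (hg : Primrec g) : Primrec fun a => epsW p cf (f a) (g a) := by
  have key : ∀ L : List ℕ, Primrec fun a =>
      (L.map fun t => cjW (powW (f a) t) (powW (g a) (cf t))).flatten := by
    intro L
    induction L with
    | nil => exact Primrec.const []
    | cons t L ih =>
      have h : (fun a => ((t :: L).map fun t => cjW (powW (f a) t) (powW (g a) (cf t))).flatten) =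
          fun a => cjW (powW (f a) t) (powW (g a) (cf t)) ++
            (L.map fun t => cjW (powW (f a) t) (powW (g a) (cf t))).flatten := by
        funext a
        rw [List.map_cons, List.flatten_cons]
      rw [h]
      exact wb_append (wb_cjW (wb_powW hf t) (wb_powW hg (cf t))) ih
  exact key _

private theorem wb_epsVW {p l t : ℕ} (ζ : ZMod l) (cU : Bool → Fin 5 → ℕ) (cA : Fin t → ℕ)
    {pos : α → Pos} (hpos : Primrec fun a => posW cU (pos a)) (v : Fin t → ZMod p)
    {x : α → List (ℕ × Bool)} (hx : Primrec x) :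
    Primrec fun a => epsVW ζ cU cA (pos a) v (x a) := by
  have key : ∀ L : List (Fin t), Primrec fun a =>
      L.foldr (fun i y => epsW p (coef ζ (v i)) (aqW cU cA (pos a) i) y) (x a) := by
    intro L
    induction L with
    | nil => exact hx
    | cons i L ih =>
      exact wb_epsW p (coef ζ (v i)) (wb_cjW hpos (Primrec.const _)) ih
  exact key _

private theorem wb_cellW {p l t : ℕ} (ζ : ZMod l) (cU : Bool → Fin 5 → ℕ) (cA : Fin t → ℕ)
    {pos : α → Pos} (hpos : Primrec fun a => posW cU (pos a)) (B : List (Fin t → ZMod p))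
    {x : α → List (ℕ × Bool)} (hx : Primrec x) :
    Primrec fun a => cellW ζ cU cA (pos a) B (x a) := by
  induction B with
  | nil => exact Primrec.const []
  | cons v B ih =>
    have h : (fun a => cellW ζ cU cA (pos a) (v :: B) (x a)) =
        fun a => epsVW ζ cU cA (pos a) v (x a) ++ cellW ζ cU cA (pos a) B (x a) := by
      funext a
      unfold cellW
      rw [List.map_cons, List.flatten_cons]
    rw [h]
    exact wb_append (wb_epsVW ζ cU cA hpos v hx) ih

private theorem wb_pow (p : ℕ) : Primrec fun k : ℕ => p ^ k := by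
  have h1 : Primrec₂ (fun (_ : ℕ) (x : ℕ) => x * p) :=
    Primrec.nat_mul.comp Primrec.snd (Primrec.const p)
  have h2 := Primrec.nat_rec₁ 1 h1
  refine h2.of_eq fun k => ?_
  induction k with
  | zero => rfl
  | succ k ih =>
    rw [pow_succ, ← ih]

private theorem wb_pos (p : ℕ) (cU : Bool → Fin 5 → ℕ) (m : E4) {f : α → ℕ} (hf : Primrec f) :
    Primrec fun a => posW cU (((p : ℤ) ^ f a) • ee 0, m) := by
  have h1 : Primrec₂ (fun (_ : α) (_ : ℕ) => ((cU false 1, true) : ℕ × Bool)) :=
    Primrec.const _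
  have h2 : Primrec fun a => (List.range (p ^ f a)).map
      (fun _ => ((cU false 1, true) : ℕ × Bool)) :=
    Primrec.list_map (Primrec.list_range.comp ((wb_pow p).comp hf)) h1
  have h3 := wb_append h2 (Primrec.const
    (zpowW (cU true 1) (m 0) ++ zpowW (cU true 2) (m 1) ++
    zpowW (cU true 3) (m 2) ++ zpowW (cU true 4) (m 3)))
  refine h3.of_eq fun a => ?_
  have h4 : zpowW (cU false 1) ((((p : ℤ) ^ f a) • ee 0) 0) =
      (List.range (p ^ f a)).map (fun _ => ((cU false 1, true) : ℕ × Bool)) := by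
    have h5 : (((p : ℤ) ^ f a) • ee 0) 0 = ((p ^ f a : ℕ) : ℤ) := by
      simp [ee]
    rw [h5, zpowW, Int.natAbs_natCast, List.map_const', List.length_range]
    have h6 : decide ((0 : ℤ) ≤ ((p ^ f a : ℕ) : ℤ)) = true := decide_eq_true (Int.natCast_nonneg _)
    rw [h6]
  have h7 : ∀ j : Fin 4, j ≠ 0 → ∀ i, zpowW i ((((p : ℤ) ^ f a) • ee 0) j) = [] := by
    intro j hj i
    have h8 : (((p : ℤ) ^ f a) • ee 0) j = 0 := by
      simp [ee, Pi.single_eq_of_ne hj]
    rw [h8]
    rfl
  unfold posW
  show _ = zpowW (cU false 1) ((((p : ℤ) ^ f a) • ee 0) 0) ++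
    zpowW (cU false 2) ((((p : ℤ) ^ f a) • ee 0) 1) ++
    zpowW (cU false 3) ((((p : ℤ) ^ f a) • ee 0) 2) ++
    zpowW (cU false 4) ((((p : ℤ) ^ f a) • ee 0) 3) ++ _
  rw [h4, h7 1 (by decide), h7 2 (by decide), h7 3 (by decide), List.append_nil, List.append_nil,
    List.append_nil]

end prim

theorem prim_LE {p l t : ℕ} (ζ : ZMod l) (cU : Bool → Fin 5 → ℕ) (cA : Fin t → ℕ) (cC : ℕ)
    (B : Fin 4 → List (Fin t → ZMod p)) : Primrec fun k => patW ζ cU cA cC (LE B k) := by
  have h1 : Primrec₂ (fun (k : ℕ) (x : List (ℕ × Bool)) =>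
      cellW ζ cU cA ((((p : ℤ) ^ k) • ee 0, 0) : Pos) (B 1) x) :=
    wb_cellW ζ cU cA (wb_pos p cU 0 Primrec.fst) (B 1) Primrec.snd
  have h2 := Primrec.nat_rec₁ (patW ζ cU cA cC (LL B 0)) h1
  have h3 : Primrec fun k => patW ζ cU cA cC (LL B k) := by
    refine h2.of_eq fun k => ?_
    induction k with
    | zero => rfl
    | succ k ih =>
      show cellW ζ cU cA ((((p : ℤ) ^ k) • ee 0, 0) : Pos) (B 1) _ = _
      rw [ih]
      rfl
  have h4 : Primrec fun k => cellW ζ cU cA ((((p : ℤ) ^ k) • ee 0, ee 0) : Pos) (B 3)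
      (patW ζ cU cA cC (LL B (k + 1))) :=
    wb_cellW ζ cU cA (wb_pos p cU (ee 0) Primrec.id) (B 3) (h3.comp Primrec.succ)
  exact h4

end Pool.Agent.MG
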