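import Pool.Agent.MG.Eqn
import Pool.Agent.MG.Words
import Pool.Agent.MG.Solv
import Pool.Agent.H69.Metab.Wrapper

/-!
MG PresG: the computable family of presentations.  (`Pres`, `Grp`, `word` in Pool/Agent/H69/Metab/Wrapper.lean, landed on origin/main.)
-/

set_option autoImplicit false

namespace Pool.Agent.MG

open Pool.Agent.H69.Metab

namespace PresGAux

/-- the generators -/
abbrev Gn (p l t : ℕ) : Type :=
  (Bool × Fin 5) ⊕ (Fin t ⊕ ((Bool × Bool × Fin t × Fin t) ⊕
    ((Bool × Fin t × (ZMod p × ZMod p → ZMod l)) ⊕ Unit)))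

/-- the data given by a family indexed by the generators -/
def dOf {p l t : ℕ} {G : Type} (v : Gn p l t → G) : GData p l (Fin t) G where
  u κ j := v (.inl (κ, j))
  a i := v (.inr (.inl i))
  e α β i k := v (.inr (.inr (.inl (α, β, i, k))))
  D κ i g := v (.inr (.inr (.inr (.inl (κ, i, g)))))
  c := v (.inr (.inr (.inr (.inr ()))))

/-- the family of the data -/
def ofD {p l t : ℕ} {G : Type} (d : GData p l (Fin t) G) : Gn p l t → G
  | .inl x => d.u x.1 x.2
  | .inr (.inl i) => d.a i
  | .inr (.inr (.inl x)) => d.e x.1 x.2.1 x.2.2.1 x.2.2.2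
  | .inr (.inr (.inr (.inl x))) => d.D x.1 x.2.1 x.2.2
  | .inr (.inr (.inr (.inr _))) => d.c

theorem dOf_ofD {p l t : ℕ} {G : Type} (d : GData p l (Fin t) G) : dOf (ofD d) = d := rfl

theorem dOf_map {p l t : ℕ} {G H : Type} (v : Gn p l t → G) (f : G → H) :
    (dOf v).map f = dOf (fun x => f (v x)) := rfl

/-- the list of letters of an element of the free group -/
def enc {N : ℕ} (x : FreeGroup (Fin N)) : List (ℕ × Bool) :=
  x.toWord.map fun y => ((y.1 : ℕ), y.2)

theorem word_enc {N : ℕ} (x : FreeGroup (Fin N)) : word N (enc x) = x := by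
  unfold word enc
  rw [List.filterMap_map]
  have h : ((fun l : ℕ × Bool => if h : l.1 < N then some ((⟨l.1, h⟩ : Fin N), l.2) else none) ∘
      fun y : Fin N × Bool => ((y.1 : ℕ), y.2)) = some := by
    funext y
    simp
  rw [h, List.filterMap_some, FreeGroup.mk_toWord]

theorem enc_lt {N : ℕ} (x : FreeGroup (Fin N)) : ∀ y ∈ enc x, y.1 < N := by
  intro y hy
  unfold enc at hy
  rw [List.mem_map] at hy
  obtain ⟨z, _, rfl⟩ := hy
  exact z.1.2

/-- the values of the letters under a homomorphism -/
def val {N : ℕ} {M : Type} [Group M] (π : FreeGroup (Fin N) →* M) (i : ℕ) : M :=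
  if h : i < N then π (FreeGroup.of ⟨i, h⟩) else 1

theorem val_fin {N : ℕ} {M : Type} [Group M] (π : FreeGroup (Fin N) →* M) (i : Fin N) :
    val π (i : ℕ) = π (FreeGroup.of i) := by
  unfold val
  rw [dif_pos i.2]

theorem ev_word {N : ℕ} {M : Type} [Group M] (π : FreeGroup (Fin N) →* M) (w : List (ℕ × Bool)) :
    ev (val π) w = π (word N w) := by
  induction w with
  | nil =>
    have h : word N [] = 1 := rfl
    rw [h, map_one]; rfl
  | cons x w ih =>
    have h1 : ev (val π) (x :: w) =
        (if x.2 then val π x.1 else (val π x.1)⁻¹) * ev (val π) w := by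
      simp [ev]
    rw [h1, ih]
    by_cases hx : x.1 < N
    · have h2 : word N (x :: w) = FreeGroup.mk [(⟨x.1, hx⟩, x.2)] * word N w := by
        unfold word
        rw [List.filterMap_cons, dif_pos hx]
        rfl
      rw [h2, map_mul]
      congr 1
      have h3 : val π x.1 = π (FreeGroup.of ⟨x.1, hx⟩) := by
        unfold val
        rw [dif_pos hx]
      rw [h3]
      rcases x with ⟨i, b⟩
      cases b
      · rw [if_neg (by simp), ← map_inv]
        rfl
      · rfl
    · have h2 : word N (x :: w) = word N w := by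
        unfold word
        rw [List.filterMap_cons, dif_neg hx]
      have h3 : val π x.1 = 1 := by
        unfold val
        rw [dif_neg hx]
      rw [h2, h3]
      simp

end PresGAux

open PresGAux in
theorem presG {p l t : ℕ} {ζ : ZMod l} (hp : Par p l ζ) (FP : List (List (Cond p t)))
    (B : Fin 4 → List (Fin t → ZMod p)) :
    ∃ c : ℕ → Pres, Computable c ∧ ∀ k, (∀ r ∈ (c k).2, ∀ x ∈ r, x.1 < (c k).1) ∧
      ∃ d : GData p l (Fin t) (Grp (c k)), GRel ζ d ∧ d.Gen ∧ (∀ L ∈ FP, patEl ζ d L = 1) ∧
        patEl ζ d (LE B k) = 1 ∧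
        ∀ (M : Type) (_ : Group M) (d' : GData p l (Fin t) M), GRel ζ d' →
          (∀ L ∈ FP, patEl ζ d' L = 1) → patEl ζ d' (LE B k) = 1 →
          ∃ π : Grp (c k) →* M, (∀ κ j, π (d.u κ j) = d'.u κ j) ∧ (∀ i, π (d.a i) = d'.a i) ∧
            π d.c = d'.c := by
  have hpF : Fact p.Prime := ⟨hp.p_prime⟩
  have hlF : Fact l.Prime := ⟨hp.l_prime⟩
  have hpN : NeZero p := ⟨hp.p_prime.ne_zero⟩
  have hlN : NeZero l := ⟨hp.l_prime.ne_zero⟩
  obtain ⟨I, hI, eqn, he1, he2⟩ := eqn_exists p l t ζ
  have hfinI : Fintype I := Fintype.ofFinite I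
  obtain ⟨N, ⟨code⟩⟩ := Finite.exists_equiv_fin (Gn p l t)
  -- the free data
  let dF : GData p l (Fin t) (FreeGroup (Fin N)) := dOf fun x => FreeGroup.of (code x)
  let cU : Bool → Fin 5 → ℕ := fun κ j => (code (.inl (κ, j)) : ℕ)
  let cA : Fin t → ℕ := fun i => (code (.inr (.inl i)) : ℕ)
  let cC : ℕ := (code (.inr (.inr (.inr (.inr ())))) : ℕ)
  let R0 : List (List (ℕ × Bool)) :=
    (Finset.univ : Finset I).toList.map
      (fun i => enc ((eqn (FreeGroup (Fin N)) dF i).1 * ((eqn (FreeGroup (Fin N)) dF i).2)⁻¹)) ++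
    FP.map (patW ζ cU cA cC)
  let c : ℕ → Pres := fun k => (N, patW ζ cU cA cC (LE B k) :: R0)
  have hcU : ∀ κ j, cU κ j < N := fun κ j => (code (.inl (κ, j))).2
  have hcA : ∀ i, cA i < N := fun i => (code (.inr (.inl i))).2
  have hcC : cC < N := (code (.inr (.inr (.inr (.inr ()))))).2
  -- evaluation of the pattern words
  have hev : ∀ (M : Type) [Group M] (π : FreeGroup (Fin N) →* M) (L : List (Cond p t)),
      π (word N (patW ζ cU cA cC L)) = patEl ζ (dF.map π) L := by
    intro M _ π L
    rw [← ev_word]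
    exact ev_patW ζ (dF.map π) (val π) cU cA cC (fun κ j => val_fin π _) (fun i => val_fin π _)
      (val_fin π _) L
  have hmem0 : ∀ i : I, enc ((eqn (FreeGroup (Fin N)) dF i).1 *
      ((eqn (FreeGroup (Fin N)) dF i).2)⁻¹) ∈ R0 := by
    intro i
    refine List.mem_append_left _ (List.mem_map.mpr ⟨i, ?_, rfl⟩)
    simp
  have hmem1 : ∀ L ∈ FP, patW ζ cU cA cC L ∈ R0 := by
    intro L hL
    exact List.mem_append_right _ (List.mem_map.mpr ⟨L, hL, rfl⟩)
  refine ⟨c, ?_, ?_⟩
  · exact ((Primrec.const N).pair (Primrec.list_cons.comp (prim_LE ζ cU cA cC B)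
      (Primrec.const R0))).to_comp
  intro k
  refine ⟨?_, ?_⟩
  · -- letters
    intro r hr x hx
    change x.1 < N
    change r ∈ patW ζ cU cA cC (LE B k) :: R0 at hr
    rw [List.mem_cons] at hr
    rcases hr with rfl | hr
    · exact letters_patW ζ cU cA cC N hcU hcA hcC _ x hx
    · rcases List.mem_append.mp hr with h | h
      · obtain ⟨i, _, rfl⟩ := List.mem_map.mp h
        exact enc_lt _ x hx
      · obtain ⟨L, _, rfl⟩ := List.mem_map.mp h
        exact letters_patW ζ cU cA cC N hcU hcA hcC _ x hx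
  · let π0 : FreeGroup (Fin N) →* Grp (c k) := PresentedGroup.mk (relators (c k))
    have hkill : ∀ w ∈ patW ζ cU cA cC (LE B k) :: R0, π0 (word N w) = 1 := by
      intro w hw
      exact PresentedGroup.one_of_mem (rels := relators (c k)) ⟨w, hw, rfl⟩
    refine ⟨dF.map π0, ?_, ?_, ?_, ?_, ?_⟩
    · -- the relations
      rw [he1]
      intro i
      rw [he2 _ _ π0 dF i]
      change π0 (eqn (FreeGroup (Fin N)) dF i).1 = π0 (eqn (FreeGroup (Fin N)) dF i).2
      have h := hkill _ (List.mem_cons_of_mem _ (hmem0 i))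
      rw [word_enc, map_mul, map_inv, mul_inv_eq_one] at h
      exact h
    · -- generation
      unfold GData.Gen
      rw [eq_top_iff, ← PresentedGroup.closure_range_of (relators (c k)), Subgroup.closure_le]
      rintro _ ⟨n, rfl⟩
      refine Subgroup.subset_closure ?_
      obtain ⟨x, rfl⟩ := code.surjective n
      rcases x with x | i | x | x | x
      · exact Or.inl (Or.inl (Or.inl ⟨x.1, x.2, rfl⟩))
      · exact Or.inl (Or.inl (Or.inr (Or.inl ⟨i, rfl⟩)))
      · exact Or.inl (Or.inl (Or.inr (Or.inr ⟨x.1, x.2.1, x.2.2.1, x.2.2.2, rfl⟩)))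
      · exact Or.inl (Or.inr ⟨x.1, x.2.1, x.2.2, rfl⟩)
      · exact Or.inr rfl
    · intro L hL
      rw [← hev]
      exact hkill _ (List.mem_cons_of_mem _ (hmem1 L hL))
    · rw [← hev]
      exact hkill _ List.mem_cons_self
    · intro M _ d' R hFP hLE
      -- the homomorphism on the free group
      let F : FreeGroup (Fin N) →* M := FreeGroup.lift fun n => ofD d' (code.symm n)
      have hF : dF.map F = d' := by
        have h : (fun x => F (FreeGroup.of (code x))) = ofD d' := by
          funext x
          simp [F]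
        change dOf (fun x => F (FreeGroup.of (code x))) = d'
        rw [h, dOf_ofD]
      have hrel : ∀ r ∈ relators (c k), F r = 1 := by
        rintro r ⟨w, hw, rfl⟩
        change F (word N w) = 1
        change w ∈ patW ζ cU cA cC (LE B k) :: R0 at hw
        rw [List.mem_cons] at hw
        rcases hw with rfl | hw
        · rw [hev, hF]; exact hLE
        · rcases List.mem_append.mp hw with h | h
          · obtain ⟨i, _, rfl⟩ := List.mem_map.mp h
            rw [word_enc, map_mul, map_inv, mul_inv_eq_one]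
            have h1 := (he1 M d').mp R i
            have h2 := he2 _ _ F dF i
            rw [hF] at h2
            rw [h2] at h1
            exact h1
          · obtain ⟨L, hL, rfl⟩ := List.mem_map.mp h
            rw [hev, hF]; exact hFP L hL
      let π : Grp (c k) →* M := PresentedGroup.toGroup (rels := relators (c k))
        (f := fun n => ofD d' (code.symm n)) hrel
      have hπ : ∀ x, π (π0 (FreeGroup.of (code x))) = ofD d' x := by
        intro x
        have h : π (PresentedGroup.of (code x)) = ofD d' (code.symm (code x)) :=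
          PresentedGroup.toGroup.of (rels := relators (c k)) hrel
        rw [Equiv.symm_apply_apply] at h
        exact h
      exact ⟨π, fun κ j => hπ (.inl (κ, j)), fun i => hπ (.inr (.inl i)),
        hπ (.inr (.inr (.inr (.inr ()))))⟩

end Pool.Agent.MG
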