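import Pool.Agent.MG.Defs

/-!
MG UBasic: proved basic facts on `U`, `A`, `P`, `D`, `D1`, `Dq`.
-/

set_option autoImplicit false

namespace Pool.Agent.MG

variable {p l : ℕ} {ζ : ZMod l} {ι G : Type} [Group G] {d : GData p l ι G}

theorem UU4_add {v : Fin 5 → G} (hv : ∀ i j, Commute (v i) (v j)) (n m : Fin 5 → ℤ) :
    UU4 v (n + m) = UU4 v n * UU4 v m := by
  unfold UU4
  have hc : ∀ i j (x y : ℤ), Commute (v i ^ x) (v j ^ y) := fun i j x y =>
    ((hv i j).zpow_left x).zpow_right y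
  simp only [Pi.add_apply, zpow_add]
  have h1 := hc 1 2 (m 1) (n 2)
  have h2 := hc 1 3 (m 1) (n 3)
  have h3 := hc 1 4 (m 1) (n 4)
  have h4 := hc 2 3 (m 2) (n 3)
  have h5 := hc 2 4 (m 2) (n 4)
  have h6 := hc 3 4 (m 3) (n 4)
  generalize v 1 ^ n 1 = a1 at *
  generalize v 2 ^ n 2 = a2 at *
  generalize v 3 ^ n 3 = a3 at *
  generalize v 4 ^ n 4 = a4 at *
  generalize v 1 ^ m 1 = b1 at *
  generalize v 2 ^ m 2 = b2 at *
  generalize v 3 ^ m 3 = b3 at *
  generalize v 4 ^ m 4 = b4 at *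
  calc a1 * b1 * (a2 * b2) * (a3 * b3) * (a4 * b4)
      = a1 * (b1 * a2) * (b2 * a3) * (b3 * a4) * b4 := by simp only [mul_assoc]
    _ = a1 * (a2 * b1) * (a3 * b2) * (a4 * b3) * b4 := by rw [h1.eq, h4.eq, h6.eq]
    _ = a1 * a2 * (b1 * a3) * (b2 * a4) * b3 * b4 := by simp only [mul_assoc]
    _ = a1 * a2 * (a3 * b1) * (a4 * b2) * b3 * b4 := by rw [h2.eq, h5.eq]
    _ = a1 * a2 * a3 * (b1 * a4) * b2 * b3 * b4 := by simp only [mul_assoc]
    _ = a1 * a2 * a3 * (a4 * b1) * b2 * b3 * b4 := by rw [h3.eq]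
    _ = a1 * a2 * a3 * a4 * (b1 * b2 * b3 * b4) := by simp only [mul_assoc]

theorem UU4_commute {v w : Fin 5 → G} (h : ∀ i j, Commute (v i) (w j)) (n m : Fin 5 → ℤ) :
    Commute (UU4 v n) (UU4 w m) := by
  unfold UU4
  have hc : ∀ i j (x y : ℤ), Commute (v i ^ x) (w j ^ y) := fun i j x y =>
    ((h i j).zpow_left x).zpow_right y
  have h1 : ∀ i (x : ℤ), Commute (v i ^ x) (w 1 ^ m 1 * w 2 ^ m 2 * w 3 ^ m 3 * w 4 ^ m 4) :=
    fun i x => (((hc i 1 x _).mul_right (hc i 2 x _)).mul_right (hc i 3 x _)).mul_right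
      (hc i 4 x _)
  exact (((h1 1 _).mul_left (h1 2 _)).mul_left (h1 3 _)).mul_left (h1 4 _)

theorem UU4_zero (v : Fin 5 → G) : UU4 v 0 = 1 := by simp [UU4]

theorem UU4_single {v : Fin 5 → G} (h0 : v 0 = 1) (j : Fin 5) :
    UU4 v (Pi.single j 1) = v j := by
  unfold UU4
  have key : ∀ j : Fin 5, j = 0 ∨ j = 1 ∨ j = 2 ∨ j = 3 ∨ j = 4 := by decide
  rcases key j with h | h | h | h | h <;> subst h
  · rw [Pi.single_eq_of_ne (by decide), Pi.single_eq_of_ne (by decide),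
      Pi.single_eq_of_ne (by decide), Pi.single_eq_of_ne (by decide), h0]; simp
  · rw [Pi.single_eq_same, Pi.single_eq_of_ne (by decide),
      Pi.single_eq_of_ne (by decide), Pi.single_eq_of_ne (by decide)]; simp
  · rw [Pi.single_eq_of_ne (by decide), Pi.single_eq_same,
      Pi.single_eq_of_ne (by decide), Pi.single_eq_of_ne (by decide)]; simp
  · rw [Pi.single_eq_of_ne (by decide), Pi.single_eq_of_ne (by decide),
      Pi.single_eq_same, Pi.single_eq_of_ne (by decide)]; simp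
  · rw [Pi.single_eq_of_ne (by decide), Pi.single_eq_of_ne (by decide),
      Pi.single_eq_of_ne (by decide), Pi.single_eq_same]; simp

/-- the exponent vector of `u κ j` -/
def sg (κ : Bool) (j : Fin 5) : Ex := Pi.single κ (Pi.single j 1)

namespace GRel

theorem U_zero : d.U 0 = 1 := by simp [GData.U, UU, UU4]

theorem U_add (R : GRel ζ d) (n m : Ex) : d.U (n + m) = d.U n * d.U m := by
  unfold GData.U UU
  rw [Pi.add_apply, Pi.add_apply, UU4_add (fun i j => R.u_comm false i false j),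
    UU4_add (fun i j => R.u_comm true i true j)]
  have h := UU4_commute (fun i j => R.u_comm false i true j) (m false) (n true)
  calc UU4 (d.u false) (n false) * UU4 (d.u false) (m false) *
      (UU4 (d.u true) (n true) * UU4 (d.u true) (m true))
      = UU4 (d.u false) (n false) * (UU4 (d.u false) (m false) *
      UU4 (d.u true) (n true)) * UU4 (d.u true) (m true) := by simp only [mul_assoc]
    _ = UU4 (d.u false) (n false) * (UU4 (d.u true) (n true) *
      UU4 (d.u false) (m false)) * UU4 (d.u true) (m true) := by rw [h.eq]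
    _ = _ := by simp only [mul_assoc]

theorem U_neg (R : GRel ζ d) (n : Ex) : d.U (-n) = (d.U n)⁻¹ := by
  rw [eq_inv_iff_mul_eq_one, ← U_add R]; simp [U_zero]

theorem U_comm (R : GRel ζ d) (n m : Ex) : Commute (d.U n) (d.U m) := by
  unfold Commute SemiconjBy
  rw [← U_add R, ← U_add R, add_comm]

/-- `U` does not depend on the entries at `0` -/
theorem U_congr (n m : Ex) (h : ∀ κ j, j ≠ 0 → n κ j = m κ j) :
    d.U n = d.U m := by
  unfold GData.U UU UU4
  simp only [h _ 1 (by decide), h _ 2 (by decide), h _ 3 (by decide), h _ 4 (by decide)]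

theorem U_single (R : GRel ζ d) (κ : Bool) (j : Fin 5) : d.U (sg κ j) = d.u κ j := by
  unfold GData.U UU sg
  cases κ
  · rw [Pi.single_eq_same, Pi.single_eq_of_ne (by decide), UU4_zero,
      UU4_single (R.u_zero false), mul_one]
  · rw [Pi.single_eq_same, Pi.single_eq_of_ne (by decide), UU4_zero,
      UU4_single (R.u_zero true), one_mul]

theorem cj_a_mem (n : Ex) (i : ι) : cj (d.U n) (d.a i) ∈ d.A :=
  Subgroup.subset_closure ⟨n, i, rfl⟩

theorem a_mem_gens (i : ι) : d.a i ∈ d.gens := Or.inl ⟨i, rfl⟩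

theorem e_mem_gens (α β : Bool) (i k : ι) : d.e α β i k ∈ d.gens := Or.inr ⟨α, β, i, k, rfl⟩

theorem cj_gen_mem (n : Ex) (m : G) (hm : m ∈ d.gens) : cj (d.U n) m ∈ d.P :=
  Subgroup.subset_closure ⟨n, m, hm, rfl⟩

theorem gen_mem_P (m : G) (hm : m ∈ d.gens) : m ∈ d.P :=
  Subgroup.subset_closure ⟨0, m, hm, by simp [U_zero]⟩

theorem a_mem_A (i : ι) : d.a i ∈ d.A :=
  Subgroup.subset_closure ⟨0, i, by simp [U_zero]⟩

theorem A_le_P : d.A ≤ d.P := by
  refine Subgroup.closure_mono ?_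
  rintro x ⟨n, i, rfl⟩
  exact ⟨n, d.a i, a_mem_gens i, rfl⟩

/-- `A` is invariant under the units -/
theorem cj_U_A (R : GRel ζ d) (n : Ex) : ∀ b ∈ d.A, cj (d.U n) b ∈ d.A := by
  have h : d.A ≤ d.A.comap (cjHom (d.U n)) := by
    refine (Subgroup.closure_le _).mpr ?_
    rintro x ⟨m, i, rfl⟩
    change cj (d.U n) (cj (d.U m) (d.a i)) ∈ d.A
    rw [cj_cj, ← U_add R]
    exact cj_a_mem _ _
  exact fun b hb => h hb

theorem cj_U_P (R : GRel ζ d) (n : Ex) : ∀ b ∈ d.P, cj (d.U n) b ∈ d.P := by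
  have h : d.P ≤ d.P.comap (cjHom (d.U n)) := by
    refine (Subgroup.closure_le _).mpr ?_
    rintro x ⟨m, g, hg, rfl⟩
    change cj (d.U n) (cj (d.U m) g) ∈ d.P
    rw [cj_cj, ← U_add R]
    exact cj_gen_mem _ _ hg
  exact fun b hb => h hb

theorem cj_u_A (R : GRel ζ d) (κ : Bool) (j : Fin 5) : ∀ b ∈ d.A, cj (d.u κ j) b ∈ d.A := by
  intro b hb; rw [← U_single R]; exact R.cj_U_A _ b hb

theorem cj_u_P (R : GRel ζ d) (κ : Bool) (j : Fin 5) : ∀ b ∈ d.P, cj (d.u κ j) b ∈ d.P := by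
  intro b hb; rw [← U_single R]; exact R.cj_U_P _ b hb

theorem cj_u_inv_A (R : GRel ζ d) (κ : Bool) (j : Fin 5) :
    ∀ b ∈ d.A, cj (d.u κ j)⁻¹ b ∈ d.A := by
  intro b hb; rw [← U_single R, ← U_neg R]; exact R.cj_U_A _ b hb

theorem cj_u_inv_P (R : GRel ζ d) (κ : Bool) (j : Fin 5) :
    ∀ b ∈ d.P, cj (d.u κ j)⁻¹ b ∈ d.P := by
  intro b hb; rw [← U_single R, ← U_neg R]; exact R.cj_U_P _ b hb

theorem xop_A (R : GRel ζ d) (κ : Bool) : ∀ b ∈ d.A, xop d.u κ b ∈ d.A :=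
  fun b hb => d.A.mul_mem (R.cj_u_A κ 1 b hb) (d.A.inv_mem hb)

theorem xop_P (R : GRel ζ d) (κ : Bool) : ∀ b ∈ d.P, xop d.u κ b ∈ d.P :=
  fun b hb => d.P.mul_mem (R.cj_u_P κ 1 b hb) (d.P.inv_mem hb)

theorem ax_A (R : GRel ζ d) (α β : Bool) : ∀ b ∈ d.A, ax d.u b α β ∈ d.A := by
  intro b hb
  cases α <;> cases β
  · exact hb
  · exact R.xop_A _ _ hb
  · exact R.xop_A _ _ hb
  · exact R.xop_A _ _ (R.xop_A _ _ hb)

/-- `D κ i` as a homomorphism -/
def Dh (R : GRel ζ d) (κ : Bool) (i : ι) : Multiplicative (ZMod p × ZMod p → ZMod l) →* G where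
  toFun f := d.D κ i (Multiplicative.toAdd f)
  map_one' := by
    have h := R.D_add κ i 0 0
    rw [add_zero] at h
    exact left_eq_mul.mp h
  map_mul' f g := R.D_add κ i _ _

@[simp] theorem Dh_apply (R : GRel ζ d) (κ : Bool) (i : ι)
    (f : Multiplicative (ZMod p × ZMod p → ZMod l)) :
    R.Dh κ i f = d.D κ i (Multiplicative.toAdd f) := rfl

theorem D_zero (R : GRel ζ d) (κ : Bool) (i : ι) : d.D κ i 0 = 1 := (R.Dh κ i).map_one

theorem D_neg (R : GRel ζ d) (κ : Bool) (i : ι) (f : ZMod p × ZMod p → ZMod l) :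
    d.D κ i (-f) = (d.D κ i f)⁻¹ := (R.Dh κ i).map_inv (Multiplicative.ofAdd f)

theorem D_sub (R : GRel ζ d) (κ : Bool) (i : ι) (f g : ZMod p × ZMod p → ZMod l) :
    d.D κ i (f - g) = d.D κ i f * (d.D κ i g)⁻¹ := by
  rw [sub_eq_add_neg, R.D_add, R.D_neg]

theorem D_nsmul (R : GRel ζ d) (κ : Bool) (i : ι) (f : ZMod p × ZMod p → ZMod l) (n : ℕ) :
    d.D κ i (n • f) = d.D κ i f ^ n := (R.Dh κ i).map_pow (Multiplicative.ofAdd f) n

theorem D_commute (R : GRel ζ d) (κ : Bool) (i : ι) (f g : ZMod p × ZMod p → ZMod l) :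
    Commute (d.D κ i f) (d.D κ i g) := by
  unfold Commute SemiconjBy
  rw [← R.D_add, ← R.D_add, add_comm]

theorem D_sum (R : GRel ζ d) (κ : Bool) (i : ι) {J : Type} (s : Finset J)
    (f : J → ZMod p × ZMod p → ZMod l) (N : Subgroup G) (h : ∀ j ∈ s, d.D κ i (f j) ∈ N) :
    d.D κ i (∑ j ∈ s, f j) ∈ N := by
  classical
  induction s using Finset.induction_on with
  | empty => simp [R.D_zero, N.one_mem]
  | insert j s hj ih =>
    rw [Finset.sum_insert hj, R.D_add]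
    exact N.mul_mem (h j (Finset.mem_insert_self _ _))
      (ih (fun k hk => h k (Finset.mem_insert_of_mem hk)))

theorem D1_add (R : GRel ζ d) (i : ι) (f g : ZMod p → ZMod l) :
    d.D1 i (f + g) = d.D1 i f * d.D1 i g := R.D_add false i _ _

/-- `D1 i` as a homomorphism -/
def D1h (R : GRel ζ d) (i : ι) : Multiplicative (ZMod p → ZMod l) →* G where
  toFun f := d.D1 i (Multiplicative.toAdd f)
  map_one' := R.D_zero false i
  map_mul' f g := R.D1_add i _ _

theorem D_fst (R : GRel ζ d) (κ : Bool) (i : ι) (f : ZMod p → ZMod l) :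
    d.D κ i (fun s => f s.1) = d.D1 i f := by
  cases κ
  · rfl
  · exact R.D_coarse i f

/-- `Dq n i` as a homomorphism -/
def Dqh (R : GRel ζ d) (n : Ex) (i : ι) : Multiplicative (ZMod p → ZMod l) →* G :=
  (cjHom (d.U n)).comp (R.D1h i)

theorem Dqh_apply (R : GRel ζ d) (n : Ex) (i : ι) (f : ZMod p → ZMod l) :
    R.Dqh n i (Multiplicative.ofAdd f) = d.Dq n i f := rfl

theorem Dq_add (R : GRel ζ d) (n : Ex) (i : ι) (f g : ZMod p → ZMod l) :
    d.Dq n i (f + g) = d.Dq n i f * d.Dq n i g := by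
  unfold GData.Dq; rw [R.D1_add, cj_mul]

theorem U_c (R : GRel ζ d) (n : Ex) : Commute (d.U n) d.c := by
  have h : ∀ κ j (m : ℤ), Commute (d.u κ j ^ m) d.c := fun κ j m => (R.u_c κ j).zpow_left m
  unfold GData.U UU UU4
  exact ((((h _ 1 _).mul_left (h _ 2 _)).mul_left (h _ 3 _)).mul_left (h _ 4 _)).mul_left
    ((((h _ 1 _).mul_left (h _ 2 _)).mul_left (h _ 3 _)).mul_left (h _ 4 _))

/-- constants -/
theorem Dq_const (R : GRel ζ d) (n : Ex) (i : ι) (w : ZMod l) :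
    d.Dq n i (fun _ => w) = d.c ^ w.val := by
  unfold GData.Dq GData.D1
  rw [R.D_const false i w, cj_eq_self]
  exact (R.U_c n).pow_right _

/-- `a^{U n}` acts on `Dq n i f` by `ζ ^ s` at `s` -/
theorem a_Dq (R : GRel ζ d) (n : Ex) (i : ι) (f : ZMod p → ZMod l) :
    cj (cj (d.U n) (d.a i)) (d.Dq n i f) = d.Dq n i (fun s => chi ζ s * f s) := by
  have h : cj (d.a i) (d.D1 i f) = d.D1 i (fun s => chi ζ s * f s) := R.a_D false i _
  unfold GData.Dq
  rw [← h]
  simp [cj, mul_assoc]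

end GRel

section chi
variable (p l : ℕ) (ζ : ZMod l)

theorem chi_zero : chi ζ (0 : ZMod p) = 1 := by simp [chi]

end chi

theorem chi_add {p l : ℕ} [NeZero p] {ζ : ZMod l} (h : ζ ^ p = 1) (s t : ZMod p) :
    chi ζ (s + t) = chi ζ s * chi ζ t := zp_add h s t

theorem chi_mul {p l : ℕ} [NeZero p] {ζ : ZMod l} (h : ζ ^ p = 1) (s t : ZMod p) :
    chi ζ (s * t) = (chi ζ s) ^ t.val := zp_mul h s t

theorem chi_natCast {p l : ℕ} {ζ : ZMod l} (h : ζ ^ p = 1) (n : ℕ) :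
    chi ζ ((n : ℕ) : ZMod p) = ζ ^ n := (pow_eq_zp h n).symm

end Pool.Agent.MG
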